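import Pool.Agent.Helper43K9.CI.Stm
import Pool.Agent.Helper43K9.NH.Can

/-!
# [TOP] The canonical order of the divisors with given weights
-/

set_option autoImplicit false
set_option linter.unusedSectionVars false
set_option linter.unusedVariables false

namespace Pool.Agent.Helper43K9.CI

open Pool.Agent.H436R3.Fol Pool.Agent.H436R3.KT Pool.Agent.W497.Mld MvPolynomial Matrix
open Pool.Agent.TH165.ACC (pr ex Prim Cn Hs lead part mldsR pr_add pr_zero pr_neg pr_sub pr_smul
  pr_smul_right ex_add ex_inj exists_nat_ex coeff_euler support_euler)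
open Pool.Agent.Helper43K9.NH

variable {n d r : ℕ} {L : Type} [Field L] [Algebra ℂ L]

namespace TopL

theorem reg_det {v : DVal L} {ι : Type} [Fintype ι] [DecidableEq ι] (A : Matrix ι ι L)
    (h : ∀ i j, v.Reg (A i j)) : v.Reg A.det := by
  rw [det_apply]
  have key : (∑ σ : Equiv.Perm ι, Equiv.Perm.sign σ • ∏ i, A (σ i) i) ∈ v.O := by
    refine v.O.sum_mem fun σ _ => ?_
    have h1 : (∏ i, A (σ i) i) ∈ v.O := v.O.prod_mem fun i _ => h _ _
    rcases Int.units_eq_one_or (Equiv.Perm.sign σ) with h2 | h2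
    · rw [h2, one_smul]; exact h1
    · rw [h2]
      have : (-1 : ℤˣ) • (∏ i, A (σ i) i) = -∏ i, A (σ i) i := by
        rw [Units.smul_def]; simp
      rw [this]
      exact v.O.neg_mem h1
  exact key

theorem ord_of_reg {v : DVal L} {a : L} (h : v.Reg a) (h0 : a ≠ 0) : 0 ≤ v.ord a :=
  h.resolve_left h0

/-- the entries of the inverse of a matrix with given orders of the columns -/
theorem inv_entries {v : DVal L} {N : ℕ} (G : Matrix (Fin N) (Fin N) L) (co : Fin N → ℤ)
    (hG : ∀ l c, G l c = 0 ∨ co c ≤ v.ord (G l c)) (hdet : G.det ≠ 0)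
    (hord : v.ord G.det = ∑ c, co c) (c l : Fin N) :
    G⁻¹ c l = 0 ∨ -co c ≤ v.ord (G⁻¹ c l) := by
  obtain ⟨π, hπ, h1⟩ := v.surj
  -- the cofactor
  rw [inv_def, Ring.inverse_eq_inv', Matrix.smul_apply, smul_eq_mul]
  by_cases h0 : adjugate G c l = 0
  · left; rw [h0, mul_zero]
  right
  rw [v.map_mul _ _ (inv_ne_zero hdet) h0, v.ord_inv hdet, hord]
  -- the scaled matrix
  set A : Matrix (Fin N) (Fin N) L := Matrix.of fun i j =>
    (if j = c then (1 : L) else π ^ (-co j)) with hA
  have hadj : adjugate G c l = (G.updateCol c (Pi.single l 1)).det := by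
    have e0 : adjugate G c l = adjugate Gᵀ l c := by
      rw [← adjugate_transpose, Matrix.transpose_apply]
    rw [e0, adjugate_apply, updateRow_transpose, det_transpose]
  have key : v.Reg ((G.updateCol c (Pi.single l 1)).det * ∏ j ∈ Finset.univ.erase c, π ^ (-co j)) := by
    have e1 : (∏ j ∈ Finset.univ.erase c, π ^ (-co j)) =
        ∏ j, (if j = c then (1 : L) else π ^ (-co j)) := by
      rw [← Finset.mul_prod_erase Finset.univ _ (Finset.mem_univ c), if_pos rfl, one_mul]
      exact Finset.prod_congr rfl fun j hj => by rw [if_neg (Finset.ne_of_mem_erase hj)]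
    rw [e1, mul_comm, ← det_mul_row]
    refine reg_det _ fun i j => ?_
    change v.Reg ((if j = c then (1 : L) else π ^ (-co j)) * (G.updateCol c (Pi.single l 1)) i j)
    by_cases hj : j = c
    · subst hj
      rw [if_pos rfl, one_mul, updateCol_self]
      by_cases hi : i = l
      · subst hi
        rw [Pi.single_eq_same]
        exact v.reg_one
      · rw [Pi.single_eq_of_ne hi]
        exact v.reg_zero
    · rw [if_neg hj, updateCol_ne hj]
      rcases hG i j with h | h
      · left; rw [h, mul_zero]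
      · by_cases h2 : G i j = 0
        · left; rw [h2, mul_zero]
        right
        rw [v.map_mul _ _ (zpow_ne_zero _ hπ) h2, v.ord_zpow hπ, h1]
        omega
  rw [← hadj] at key
  have hp : (∏ j ∈ Finset.univ.erase c, π ^ (-co j)) ≠ 0 :=
    Finset.prod_ne_zero_iff.2 fun j _ => zpow_ne_zero _ hπ
  have h2 := ord_of_reg key (mul_ne_zero h0 hp)
  rw [v.map_mul _ _ h0 hp, v.ord_prod _ _ fun j _ => zpow_ne_zero _ hπ] at h2
  have h3 : ∑ j ∈ Finset.univ.erase c, v.ord (π ^ (-co j)) = -∑ j ∈ Finset.univ.erase c, co j := by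
    rw [← Finset.sum_neg_distrib]
    refine Finset.sum_congr rfl fun j _ => ?_
    rw [v.ord_zpow hπ, h1, mul_one]
  have h4 := Finset.add_sum_erase Finset.univ co (Finset.mem_univ c)
  rw [h3] at h2
  omega

/-- the weighted Euler relation -/
theorem euler_pos {y : Fin n → L} (hy : ∀ i, y i ≠ 0) {F : MvPolynomial (Fin n) ℂ} (hF : F ≠ 0)
    (hF0 : aeval y F = 0) {v : DVal L} :
    (∑ k, (wt y v k : L) * aeval y (X k * pderiv k F)) = 0 ∨
      phi (expo F) (wt y v) + 1 ≤ v.ord (∑ k, (wt y v k : L) * aeval y (X k * pderiv k F)) := by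
  classical
  set w := wt y v with hw
  set m := phi (expo F) w with hm
  let q : MvPolynomial (Fin n) ℂ := ∑ k, C (w k : ℂ) * (X k * pderiv k F) - C (m : ℂ) * F
  have hq : ∀ s, q.coeff s = ((pr (ex s) w - m : ℤ) : ℂ) * F.coeff s := by
    intro s
    simp only [q, coeff_sub, coeff_sum, coeff_C_mul, coeff_euler]
    rw [pr]
    push_cast
    rw [sub_mul, Finset.sum_mul]
    congr 1
    refine Finset.sum_congr rfl fun k _ => ?_
    simp only [Pool.Agent.TH165.ACC.ex]
    push_cast
    ring
  have h1 : aeval y q = ∑ k, (w k : L) * aeval y (X k * pderiv k F) := by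
    simp only [q, map_sub, map_sum, map_mul (aeval y) (C _) _, aeval_C, hF0, mul_zero, sub_zero]
    refine Finset.sum_congr rfl fun k _ => ?_
    rw [map_intCast]
  rw [← h1]
  refine ge_of_weights hy fun s hs => ?_
  rw [mem_support_iff, hq] at hs
  have h2 : F.coeff s ≠ 0 := right_ne_zero_of_mul hs
  have h3 : pr (ex s) w - m ≠ 0 := by
    intro h0
    rw [h0] at hs
    simp at hs
  have h4 := (phi_expo hF w).2 s (mem_support_iff.2 h2)
  rw [← hw]
  omega

theorem aeval_F (g : CIGerm r d L) (j : Fin r) : aeval g.y (g.F j) = 0 := by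
  rw [g.ker]
  refine ⟨0, ?_⟩
  rw [show (monomial (0 : Fin (d + r) →₀ ℕ) (1 : ℂ)) = 1 from rfl, one_mul]
  exact Ideal.subset_span ⟨j, rfl⟩

end TopL

open TopL

theorem top (idx : S_IDX) (low : S_LOW) : S_TOP := by
  intro r d L _ _ g v h hw hv
  classical
  refine ⟨?_, fun m hm => by obtain ⟨A, hA0, hA, rfl⟩ := hm; exact low r d L g v h A hA0 hA⟩
  have hy := g.yne
  obtain ⟨κ, hdet, hord⟩ := idx r d L g v h
  obtain ⟨m1, hm1⟩ := hw
  set w := wt g.y v with hwd
  set M0 : Matrix (Fin (d + r)) (Fin d) L := Matrix.of fun l i => if l = κ i then 1 else 0 with hM0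
  set G := GM g.y g.F M0 with hG
  have hGu : IsUnit G.det := isUnit_iff_ne_zero.2 hdet
  set Φ : ℤ := ∑ j, phi (g.S j) w with hΦ
  let co : Fin (d + r) → ℤ := Fin.addCases (fun _ => 0) (fun j => phi (g.S j) w)
  have hco1 : ∀ i, co (Fin.castAdd r i) = 0 := fun i => Fin.addCases_left i
  have hco2 : ∀ j, co (Fin.natAdd d j) = phi (g.S j) w := fun j => Fin.addCases_right j
  have hGc : ∀ l i, G l (Fin.castAdd r i) = if l = κ i then 1 else 0 := by
    intro l i
    simp [hG, GM, hM0]
  have hGn : ∀ l j, G l (Fin.natAdd d j) = aeval g.y (X l * pderiv l (g.F j)) := by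
    intro l j
    simp [hG, GM]
  have hGord : ∀ l c, G l c = 0 ∨ co c ≤ v.ord (G l c) := by
    intro l c
    refine Fin.addCases (fun i => ?_) (fun j => ?_) c
    · rw [hGc, hco1]
      by_cases hl : l = κ i
      · rw [if_pos hl]; right; rw [v.ord_one]
      · rw [if_neg hl]; left; rfl
    · rw [hGn, hco2]
      exact ge_of_weights hy fun s hs => (phi_expo (g.Fne j) w).2 s (support_euler _ _ hs)
  have hinv := inv_entries G co hGord hdet (by
    rw [hord, Fin.sum_univ_add]
    simp only [hco1, hco2, Finset.sum_const_zero, zero_add]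
    rfl)
  have hi1 : ∀ i l, v.Reg (G⁻¹ (Fin.castAdd r i) l) := by
    intro i l
    have := hinv (Fin.castAdd r i) l
    rw [hco1, neg_zero] at this
    exact this
  have hi2 : ∀ j l, G⁻¹ (Fin.natAdd d j) l = 0 ∨
      -phi (g.S j) w ≤ v.ord (G⁻¹ (Fin.natAdd d j) l) := by
    intro j l
    have := hinv (Fin.natAdd d j) l
    rw [hco2] at this
    exact this
  let T : Fin d → Derivation ℂ L L := fun j => g.X.T.D (g.e.symm j)
  let Λf : Matrix (Fin d) (Fin (d + r)) L := Matrix.of fun j l => T j (g.y l) / g.y l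
  set Λ : Matrix (Fin d) (Fin d) L := Λf * M0 with hΛdef
  have hΛ : Λ.det = G.det := g.res M0
  have hΛ0 : Λ.det ≠ 0 := by rw [hΛ]; exact hdet
  have hΛu : IsUnit Λ.det := isUnit_iff_ne_zero.2 hΛ0
  have hΛG : ∀ j c, (Λf * G) j c = (Fin.addCases (fun i => Λ j i) (fun _ => 0) c : L) := by
    intro j c
    refine Fin.addCases (fun i => ?_) (fun k => ?_) c
    · rw [Fin.addCases_left, hΛdef, mul_apply, mul_apply]
      exact Finset.sum_congr rfl fun l _ => by rw [hGc, hM0, Matrix.of_apply]
    · rw [Fin.addCases_right, mul_apply]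
      have h1 := der_aeval hy (T j) (g.F k)
      rw [aeval_F, map_zero] at h1
      rw [h1]
      refine Finset.sum_congr rfl fun l _ => ?_
      rw [hGn, mul_comm]
      rfl
  let D : Fin d → Derivation ℂ L L := fun i => ∑ j, Λ⁻¹ i j • T j
  -- logarithmic vectors
  have hDf : ∀ i l, D i (g.y l) / g.y l = G⁻¹ (Fin.castAdd r i) l := by
    let Q : Matrix (Fin d) (Fin (d + r)) L := Matrix.of fun i c =>
        (Fin.addCases (fun i' => if i = i' then (1 : L) else 0) (fun _ => 0) c : L)
    have h1 : Λ⁻¹ * Λf * G = Q := by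
      rw [Matrix.mul_assoc]
      ext i c
      rw [Matrix.mul_apply]
      change _ = (Fin.addCases (fun i' => if i = i' then (1 : L) else 0) (fun _ => 0) c : L)
      refine Fin.addCases (fun i' => ?_) (fun k => ?_) c
      · simp only [hΛG, Fin.addCases_left]
        rw [← Matrix.mul_apply, Matrix.nonsing_inv_mul _ hΛu, Matrix.one_apply]
      · simp only [hΛG, Fin.addCases_right, mul_zero, Finset.sum_const_zero]
    have h2 : Λ⁻¹ * Λf = Q * G⁻¹ := by
      rw [← h1, Matrix.mul_assoc (Λ⁻¹ * Λf), Matrix.mul_nonsing_inv _ hGu, Matrix.mul_one]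
    intro i l
    have h3 : D i (g.y l) / g.y l = (Λ⁻¹ * Λf) i l := by
      rw [Matrix.mul_apply, der_sum_apply, Finset.sum_div]
      refine Finset.sum_congr rfl fun j _ => ?_
      simp only [Λf, Matrix.of_apply]
      rw [mul_div_assoc]
    rw [h3, h2, Matrix.mul_apply, Fin.sum_univ_add]
    simp only [Q, Matrix.of_apply, Fin.addCases_left, Fin.addCases_right, zero_mul,
      Finset.sum_const_zero, add_zero, ite_mul, one_mul]
    rw [Finset.sum_ite_eq]
    simp
  have hDch : ∀ i m, D i (ch g.y m) = ch g.y m * ∑ l, (m l : L) * G⁻¹ (Fin.castAdd r i) l := by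
    intro i m
    rw [der_ch hy]
    simp only [hDf]
  have hDpres : ∀ i, Preserves v (D i) := by
    intro i
    refine preserves_of v hv fun f hf => der_AA hv.1 (fun m hm => ?_) hf
    rw [hDch]
    refine v.reg_mul (hv.1 _ (ch_mem_AA hm)) ?_
    exact v.O.sum_mem fun l _ => v.reg_mul (v.reg_intCast _) (hi1 _ _)
  -- the special derivation
  let W : Fin r → L := fun j => ∑ k, (w k : L) * aeval g.y (X k * pderiv k (g.F j))
  have hW : ∀ j, W j = 0 ∨ phi (g.S j) w + 1 ≤ v.ord (W j) := fun j =>
    TopL.euler_pos hy (g.Fne j) (aeval_F g j)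
  let δ : Fin (d + r) → L := fun l => ∑ j, W j * G⁻¹ (Fin.natAdd d j) l
  have hδ : ∀ l, v.Pos (δ l) := by
    intro l
    have key : ∀ s : Finset (Fin r), v.Pos (∑ j ∈ s, W j * G⁻¹ (Fin.natAdd d j) l) := by
      intro s
      induction s using Finset.induction_on with
      | empty => exact Or.inl (by simp)
      | insert a s ha ih =>
        rw [Finset.sum_insert ha]
        refine v.pos_add ?_ ih
        rcases hW a with h1 | h1
        · left; rw [h1, zero_mul]
        rcases hi2 a l with h2 | h2
        · left; rw [h2, mul_zero]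
        by_cases h3 : W a = 0
        · left; rw [h3, zero_mul]
        by_cases h4 : G⁻¹ (Fin.natAdd d a) l = 0
        · left; rw [h4, mul_zero]
        right
        rw [v.map_mul _ _ h3 h4]
        omega
    exact key Finset.univ
  have hwl : ∀ l, (w l : L) = ∑ i, (w (κ i) : L) * G⁻¹ (Fin.castAdd r i) l + δ l := by
    intro l
    have h1 : (fun k => (w k : L)) ᵥ* G ᵥ* G⁻¹ = fun k => (w k : L) := by
      rw [vecMul_vecMul, Matrix.mul_nonsing_inv _ hGu, vecMul_one]
    have h2 := congrFun h1 l
    rw [← h2]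
    simp only [vecMul, dotProduct]
    rw [Fin.sum_univ_add]
    congr 1
    · refine Finset.sum_congr rfl fun i _ => ?_
      congr 1
      rw [Finset.sum_eq_single (κ i)]
      · rw [hGc, if_pos rfl, mul_one]
      · intro k _ hk
        rw [hGc, if_neg hk, mul_zero]
      · intro h0; exact absurd (Finset.mem_univ _) h0
    · refine Finset.sum_congr rfl fun j _ => ?_
      congr 1
      refine Finset.sum_congr rfl fun k _ => ?_
      rw [hGn]
  let c : Fin d → L := fun i => ch g.y (-m1) * (w (κ i) : L)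
  have hEch : ∀ m, (∑ i, c i • D i) (ch g.y m) =
      ch g.y (m - m1) * ((pr m w : L) - ∑ l, (m l : L) * δ l) := by
    intro m
    rw [der_sum_apply]
    simp only [hDch, c]
    have h3 : ch g.y (m - m1) = ch g.y m * ch g.y (-m1) := by
      rw [sub_eq_add_neg, ch_add hy]
    have h4 : (pr m w : L) = ∑ l, (m l : L) * ((∑ i, (w (κ i) : L) * G⁻¹ (Fin.castAdd r i) l) + δ l) := by
      rw [pr]
      push_cast
      exact Finset.sum_congr rfl fun l _ => by rw [← hwl l]
    rw [h3, h4]
    simp only [mul_add, Finset.sum_add_distrib, add_sub_cancel_right]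
    simp only [Finset.mul_sum]
    rw [Finset.sum_comm]
    refine Finset.sum_congr rfl fun i _ => Finset.sum_congr rfl fun l _ => ?_
    ring
  have hEpres : Preserves v (∑ i, c i • D i) := by
    refine preserves_of v hv fun f hf => der_AA hv.1 (fun m hm => ?_) hf
    have hm' : 0 ≤ pr m w := hm
    rw [hEch]
    have hδm : v.Pos (∑ l, (m l : L) * δ l) := by
      have key : ∀ s : Finset (Fin (d + r)), v.Pos (∑ l ∈ s, (m l : L) * δ l) := by
        intro s
        induction s using Finset.induction_on with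
        | empty => exact Or.inl (by simp)
        | insert a s ha ih =>
          rw [Finset.sum_insert ha]
          exact v.pos_add (v.pos_mul_left (v.reg_intCast _) (hδ a)) ih
      exact key Finset.univ
    have hordm : v.ord (ch g.y (m - m1)) = pr m w - 1 := by
      rw [ord_ch hy, pr_sub]
      change pr m w - pr m1 w = _
      rw [hm1]
    by_cases h3 : pr m w = 0
    · rw [h3, Int.cast_zero, zero_sub]
      rcases hδm with h4 | h4
      · left; rw [h4, neg_zero, mul_zero]
      · by_cases h5 : (∑ l, (m l : L) * δ l) = 0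
        · left; rw [h5, neg_zero, mul_zero]
        right
        rw [v.map_mul _ _ (ch_ne hy _) (neg_ne_zero.2 h5), v.ord_neg h5, hordm]
        omega
    · refine v.reg_mul (Or.inr (by rw [hordm]; omega)) ?_
      rw [sub_eq_add_neg]
      refine v.reg_add (v.reg_intCast _) (v.reg_neg ?_)
      rcases hδm with h4 | h4
      · exact Or.inl h4
      · exact Or.inr h4.le
  -- a nonzero weight
  obtain ⟨i0, hi0⟩ : ∃ i : Fin d, w (κ i) ≠ 0 := by
    by_contra h0
    push Not at h0
    have h1 : ∀ l, (w l : L) = δ l := by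
      intro l
      rw [hwl l]
      simp [h0]
    have h2 : (1 : L) = ∑ l, (m1 l : L) * δ l := by
      have : ((pr m1 w : ℤ) : L) = 1 := by rw [hm1, Int.cast_one]
      rw [← this, pr]
      push_cast
      exact Finset.sum_congr rfl fun l _ => by rw [h1 l]
    have h3 : v.Pos (∑ l, (m1 l : L) * δ l) := by
      have key : ∀ s : Finset (Fin (d + r)), v.Pos (∑ l ∈ s, (m1 l : L) * δ l) := by
        intro s
        induction s using Finset.induction_on with
        | empty => exact Or.inl (by simp)
        | insert a s ha ih =>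
          rw [Finset.sum_insert ha]
          exact v.pos_add (v.pos_mul_left (v.reg_intCast _) (hδ a)) ih
      exact key Finset.univ
    rw [← h2] at h3
    rcases h3 with h3 | h3
    · exact one_ne_zero h3
    · rw [v.ord_one] at h3
      exact lt_irrefl _ h3
  have hwi : (w (κ i0) : L) ≠ 0 := by
    rw [Ne, ← map_intCast (algebraMap ℂ L), map_eq_zero_iff _ (algebraMap ℂ L).injective]
    exact_mod_cast hi0
  let B : Matrix (Fin d) (Fin d) L := (1 : Matrix (Fin d) (Fin d) L).updateRow i0 c
  have hdetB : B.det = c i0 := by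
    have h1 := Matrix.det_updateRow_sum (1 : Matrix (Fin d) (Fin d) L) i0 c
    have h2 : (∑ k, c k • (1 : Matrix (Fin d) (Fin d) L) k) = c := by
      funext j
      rw [Finset.sum_apply, Finset.sum_eq_single j]
      · simp
      · intro k _ hk
        simp [Matrix.one_apply_ne hk]
      · intro h; exact absurd (Finset.mem_univ _) h
    rw [h2, det_one, smul_eq_mul, mul_one] at h1
    exact h1
  have hci : c i0 ≠ 0 := mul_ne_zero (ch_ne hy _) hwi
  have hB0 : ∀ j, B i0 j = c j := fun j => by simp [B]
  have hB1 : ∀ i j, i ≠ i0 → B i j = (1 : Matrix (Fin d) (Fin d) L) i j := fun i j h => by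
    simp [B, updateRow_ne h]
  have hinv' : (Λ⁻¹).det ≠ 0 := by
    rw [Matrix.det_nonsing_inv, Ring.inverse_eq_inv']
    exact inv_ne_zero hΛ0
  have hrow : ∀ i : Fin g.X.d, (∑ j, ((B * Λ⁻¹).submatrix g.e g.e) i j • g.X.T.D j) =
      ∑ l, B (g.e i) l • D l := by
    intro i
    simp only [D, Finset.smul_sum, smul_smul]
    rw [Finset.sum_comm, ← g.e.sum_comp]
    refine Finset.sum_congr rfl fun j _ => ?_
    rw [Matrix.submatrix_apply, Matrix.mul_apply, Finset.sum_smul]
    refine Finset.sum_congr rfl fun l _ => ?_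
    simp only [T, Equiv.symm_apply_apply]
  refine ⟨(B * Λ⁻¹).submatrix g.e g.e, ?_, fun i => ?_, ?_⟩
  · rw [det_submatrix_equiv_self, det_mul, hdetB]
    exact mul_ne_zero hci hinv'
  · rw [hrow]
    by_cases h1 : g.e i = i0
    · rw [h1]
      simp only [hB0]
      exact hEpres
    · have h2 : (∑ l, B (g.e i) l • D l) = D (g.e i) := by
        rw [Finset.sum_eq_single (g.e i)]
        · rw [hB1 _ _ h1, Matrix.one_apply_eq, one_smul]
        · intro j _ hj
          rw [hB1 _ _ h1, Matrix.one_apply_ne hj.symm, zero_smul]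
        · intro h
          exact absurd (Finset.mem_univ _) h
      rw [h2]
      exact hDpres _
  · rw [det_submatrix_equiv_self, det_mul, hdetB, v.map_mul _ _ hci hinv', Matrix.det_nonsing_inv,
      Ring.inverse_eq_inv', v.ord_inv hΛ0, hΛ, hord, v.map_mul _ _ (ch_ne hy _) hwi, ord_ch hy,
      pr_neg]
    have h4 : v.ord (w (κ i0) : L) = 0 := by
      have := v.const (w (κ i0) : ℂ) (by exact_mod_cast hi0)
      rwa [map_intCast] at this
    rw [h4]
    change -pr m1 w + 0 + -Φ = _
    rw [hm1]
    ring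

end Pool.Agent.Helper43K9.CI
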