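import Pool.Agent.Helper43K9.CI.Div
import Pool.Agent.Helper43K9.CI.Top
import Pool.Agent.Helper43K9.NH.Comb
import Pool.Agent.Helper43K9.NH.Asm

/-!
# Assembly: the minimal log discrepancy is the least toric log discrepancy
-/

set_option autoImplicit false
set_option linter.unusedSectionVars false
set_option linter.unusedVariables false

namespace Pool.Agent.Helper43K9.CI

open Pool.Agent.H436R3.Fol Pool.Agent.H436R3.KT Pool.Agent.W497.Mld MvPolynomial
open Pool.Agent.TH165.ACC (pr ex Prim Cn Hs lead part mldsR pr_add pr_zero pr_neg pr_sub pr_smul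
  pr_smul_right ex_add ex_inj exists_nat_ex exists_prim coeff_part lead_eq)
open Pool.Agent.Helper43K9.NH

variable {n d r : ℕ} {L : Type} [Field L] [Algebra ℂ L]

/-! ### the Minkowski sum -/

theorem mink : S_MINK := by
  intro n r S hS
  classical
  have hne : (Fintype.piFinset S).Nonempty := by
    choose f hf using hS
    exact ⟨f, Fintype.mem_piFinset.2 hf⟩
  have hpr : ∀ (f : Fin r → Fin n → ℤ) (w : Fin n → ℤ), pr (∑ j, f j) w = ∑ j, pr (f j) w := by
    intro f w
    have key : ∀ s : Finset (Fin r), pr (∑ j ∈ s, f j) w = ∑ j ∈ s, pr (f j) w := by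
      intro s
      induction s using Finset.induction_on with
      | empty => rw [Finset.sum_empty, Finset.sum_empty, pr_zero]
      | insert a s ha ih => rw [Finset.sum_insert ha, Finset.sum_insert ha, pr_add, ih]
    exact key Finset.univ
  refine ⟨(Fintype.piFinset S).image fun f => ∑ j, f j, hne.image _, fun w => ?_⟩
  apply phi_eq
  · have h1 : ∀ j, ∃ m ∈ S j, pr m w = phi (S j) w := fun j => (phi_spec (hS j) w).1
    choose f hf hf' using h1
    refine ⟨∑ j, f j, Finset.mem_image.2 ⟨f, Fintype.mem_piFinset.2 hf, rfl⟩, ?_⟩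
    rw [hpr]
    exact Finset.sum_congr rfl fun j _ => hf' j
  · intro m hm
    obtain ⟨f, hf, rfl⟩ := Finset.mem_image.1 hm
    rw [Fintype.mem_piFinset] at hf
    rw [hpr]
    exact Finset.sum_le_sum fun j _ => (phi_spec (hS j) w).2 _ (hf j)

/-! ### weights -/

theorem S_ne (g : CIGerm r d L) (j : Fin r) : (g.S j).Nonempty := expo_nonempty (g.Fne j)

theorem la_smul (ψ : Fin n → ℝ) {S : Fin r → Finset (Fin n → ℤ)} (hS : ∀ j, (S j).Nonempty) {k : ℤ}
    (hk : 0 ≤ k) (w : Fin n → ℤ) : la ψ S (k • w) = k * la ψ S w := by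
  rw [la, la, dot_smul]
  have h : ∀ j, (phi (S j) (k • w) : ℝ) = k * (phi (S j) w : ℝ) := fun j => by
    rw [phi_smul (hS j) hk]; push_cast; rfl
  simp only [h]
  rw [← Finset.mul_sum]
  ring

theorem la_conv (ψ ψ' : Fin n → ℝ) (S : Fin r → Finset (Fin n → ℤ)) (t : ℝ) (w : Fin n → ℤ) :
    la (fun j => (1 - t) * ψ j + t * ψ' j) S w = (1 - t) * la ψ S w + t * la ψ' S w := by
  have h : dot (fun j => (1 - t) * ψ j + t * ψ' j) w = (1 - t) * dot ψ w + t * dot ψ' w := by
    simp only [dot]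
    rw [Finset.mul_sum, Finset.mul_sum, ← Finset.sum_add_distrib]
    exact Finset.sum_congr rfl fun i _ => by ring
  rw [la, h, la, la]
  ring

theorem ini_smul {S : Finset (Fin n → ℤ)} (hS : S.Nonempty) {k : ℤ} (hk : 0 < k)
    (w : Fin n → ℤ) : ini S (k • w) = ini S w := by
  unfold ini
  refine Finset.filter_congr fun m _ => ?_
  rw [phi_smul hS hk.le, pr_smul_right]
  exact mul_right_inj' hk.ne'

theorem bern_smul {S : Fin r → Finset (Fin n → ℤ)} (hS : ∀ j, (S j).Nonempty) {k : ℤ} (hk : 0 < k)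
    {w : Fin n → ℤ} (h : Bern S (k • w)) : Bern S w := by
  intro J
  have h1 := h J
  have h2 : VJ S (k • w) J = VJ S w J := by
    unfold VJ
    congr 1
    ext v
    simp only [ini_smul (hS _) hk]
  rwa [h2] at h1

theorem Inn.ne_zero {g : CIGerm r d L} {w : Fin (d + r) → ℤ} (hdr : 0 < d + r)
    (h : Inn g.E w) : w ≠ 0 := by
  rintro rfl
  obtain ⟨Q, hQ⟩ := g.pointed
  have hQ0 : Q ≠ 0 := by
    rintro rfl
    have h1 : ∀ j : Fin g.N, False := fun j => by
      have := hQ j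
      rw [pr_zero] at this
      exact lt_irrefl _ this
    have h2 := g.full (Pi.single ⟨0, hdr⟩ 1) fun j => (h1 j).elim
    have h3 := congrFun h2 ⟨0, hdr⟩
    simp at h3
  have h1 := h Q (fun j => (hQ j).le) hQ0
  rw [pr] at h1
  simp at h1

theorem expo_lead {F : MvPolynomial (Fin n) ℂ} (hF : F ≠ 0) (w : Fin n → ℤ) :
    expo (lead w F) = ini (expo F) w := by
  classical
  obtain ⟨⟨s0, hs0, e0⟩, h0⟩ := phi_expo hF w
  have hlead : lead w F = part w (phi (expo F) w) F := lead_eq ⟨s0, hs0, e0⟩ h0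
  ext m
  rw [mem_expo, ini, Finset.mem_filter, mem_expo, hlead]
  constructor
  · rintro ⟨s, hs, rfl⟩
    rw [mem_support_iff, coeff_part] at hs
    by_cases h : pr (ex s) w = phi (expo F) w
    · rw [if_pos h] at hs
      exact ⟨⟨s, mem_support_iff.2 hs, rfl⟩, h⟩
    · rw [if_neg h] at hs
      exact absurd rfl hs
  · rintro ⟨⟨s, hs, rfl⟩, h⟩
    refine ⟨s, ?_, rfl⟩
    rw [mem_support_iff, coeff_part, if_pos h]
    exact mem_support_iff.1 hs

theorem lead_ne {F : MvPolynomial (Fin n) ℂ} (hF : F ≠ 0) (w : Fin n → ℤ) : lead w F ≠ 0 := by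
  intro h
  obtain ⟨⟨m, hm, h1⟩, -⟩ := phi_spec (expo_nonempty hF) w
  have h2 : m ∈ expo (lead w F) := by
    rw [expo_lead hF, ini, Finset.mem_filter]
    exact ⟨hm, h1⟩
  rw [h, mem_expo] at h2
  obtain ⟨s, hs, -⟩ := h2
  rw [support_zero] at hs
  exact absurd hs (Finset.notMem_empty _)

/-- Bernstein's theorem for the initial forms -/
theorem bkw (bk : S_BK) (lea : S_LEAD) (inn : S_INN) (g : CIGerm r d L) {w : Fin (d + r) → ℤ}
    (hi : Inn g.E w) (hb : Bern g.S w) :
    ∃ ξ : Fin (d + r) → ℂ, (∀ i, ξ i ≠ 0) ∧ ∀ j, eval ξ (lead w (g.F j)) = 0 := by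
  classical
  refine bk (d + r) r (fun j => lead w (g.F j)) (fun j => lead_ne (g.Fne j) w) ?_ ?_
  · intro u ξ hξ hz
    obtain ⟨K0, hK0, h0⟩ := inn (d + r) g.N g.E w u hi
    have h1 : ∀ j, ∃ K : ℤ, 0 < K ∧ ∀ k ≥ K, lead u (lead w (g.F j)) = lead (k • w + u) (g.F j) :=
      fun j => lea (d + r) (g.F j) w u (g.Fne j)
    choose K hK hK' using h1
    obtain ⟨k, hk⟩ : ∃ k : ℤ, K0 ≤ k ∧ ∀ j, K j ≤ k := by
      refine ⟨K0 + ∑ j, K j, ?_, fun j => ?_⟩
      · have := Finset.sum_nonneg fun j (_ : j ∈ Finset.univ) => (hK j).le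
        omega
      · have := Finset.single_le_sum (f := K) (fun j _ => (hK j).le) (Finset.mem_univ j)
        omega
    have h2 : ∀ j, lead u (lead w (g.F j)) = lead (k • w + u) (g.F j) := fun j => hK' j k (hk.2 j)
    have h3 := g.nondeg (k • w + u) (h0 k hk.1) ξ hξ fun j => by rw [← h2 j]; exact hz j
    simp only [Ind, h2]
    exact h3
  · intro J
    refine (hb J).trans (le_of_eq ?_)
    have h : ∀ j, expo (lead w (g.F j)) = ini (expo (g.F j)) w := fun j => expo_lead (g.Fne j) w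
    have e : VJ g.S w J = Submodule.span ℚ {v : Fin (d + r) → ℚ | ∃ j ∈ J,
        ∃ m ∈ expo (lead w (g.F j)), ∃ m' ∈ expo (lead w (g.F j)),
          v = fun i => ((m i - m' i : ℤ) : ℚ)} := by
      unfold VJ
      congr 1
      ext v
      constructor
      · rintro ⟨j, hj, m, hm, m', hm', e⟩
        exact ⟨j, hj, m, by rw [h]; exact hm, m', by rw [h]; exact hm', e⟩
      · rintro ⟨j, hj, m, hm, m', hm', e⟩
        rw [h] at hm hm'
        exact ⟨j, hj, m, hm, m', hm', e⟩
    rw [e]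

/-- a prime divisor over the germ with given primitive weights -/
theorem exists_over (bk : S_BK) (lea : S_LEAD) (inn : S_INN) (dv : S_DIV) (tp : S_TOP)
    {g : CIGerm r d L} {w : Fin (d + r) → ℤ} (hi : Inn g.E w) (hw : Prim w) (hb : Bern g.S w) :
    ∃ v : DVal L, IsOverGerm g.P v ∧ wt g.y v = w ∧
      IsCanOrd g.X.T v (-1 - ∑ j, phi (g.S j) w) := by
  obtain ⟨ξ, hξ, hz⟩ := bkw bk lea inn g hi hb
  obtain ⟨v, hv, rfl⟩ := dv r d L g w ξ hi hw hξ hz
  exact ⟨v, over_of_local hi hw hv, rfl, tp r d L g v hi hw hv⟩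

/-- the toric log discrepancy is a lower bound -/
theorem low_bound (low : S_LOW) {g : CIGerm r d L} {v : DVal L} (h : IsOverGerm g.P v) {c : ℤ}
    (hc : IsCanOrd g.X.T v c) : -1 - ∑ j, phi (g.S j) (wt g.y v) ≤ c := by
  obtain ⟨A, hA0, hA, rfl⟩ := hc.1
  exact low r d L g v (inn_of_over h) A hA0 hA

theorem low_bound' (low : S_LOW) {g : CIGerm r d L} (b : Bd g) {B : EffDiv g.X} {e : LocEq B g.P}
    (hr : IsRestr b e) {v : DVal L} (h : IsOverGerm g.P v) {a : ℝ} (ha : IsLogDisc e v a) :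
    la b.ψ g.S (wt g.y v) ≤ a := by
  obtain ⟨c, hc, rfl⟩ := ha
  have h1 : ((-1 - ∑ j, phi (g.S j) (wt g.y v) : ℤ) : ℝ) ≤ (c : ℝ) := by
    exact_mod_cast low_bound low h hc
  rw [hr, la]
  push_cast at h1
  linarith

theorem hmin (st : S_STEP) (bk : S_BK) (lea : S_LEAD) (inn : S_INN) (dv : S_DIV) (tp : S_TOP)
    (low : S_LOW) (pnt : S_PNT) (hdr : 0 < d + r)
    {g : CIGerm r d L} (hk : KltType g) (b : Bd g) (hl : LcType b) {B : EffDiv g.X}
    {e : LocEq B g.P} (hr : IsRestr b e) {m : ℝ} (hm0 : 0 ≤ m)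
    (hm : ∀ v, IsOverGerm g.P v → ∀ a, IsLogDisc e v a → m ≤ a) :
    ∀ w, Inn g.E w → m ≤ la b.ψ g.S w := by
  have hS := S_ne g
  have htrop : ∀ w, Inn g.E w → Bern g.S w → m ≤ la b.ψ g.S w := by
    intro w hi ht
    obtain ⟨k, w', hk0, hw', rfl⟩ := exists_prim (Inn.ne_zero hdr hi)
    obtain ⟨v, hv, hwt, hc⟩ := exists_over bk lea inn dv tp (hi.of_smul hk0) hw' (bern_smul hS hk0 ht)
    have h1 : m ≤ la b.ψ g.S w' := by
      apply hm v hv
      refine ⟨_, hc, ?_⟩
      rw [hr, hwt, la]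
      push_cast
      ring
    rw [la_smul _ hS hk0.le]
    have h2 : (1 : ℝ) ≤ k := by exact_mod_cast hk0
    nlinarith
  intro w0 hi0
  obtain ⟨b', ε, Q, hε, hQ, hlow⟩ := hk
  by_contra hlt
  push Not at hlt
  have hQ0 : Q ≠ 0 := by
    rintro rfl
    have h5 : ∀ j : Fin g.N, False := fun j => by
      have := hQ j
      rw [pr_zero] at this
      exact lt_irrefl _ this
    have h6 := g.full (Pi.single ⟨0, hdr⟩ 1) fun j => (h5 j).elim
    have h7 := congrFun h6 ⟨0, hdr⟩
    simp at h7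
  have hQw : ∀ w, Inn g.E w → (0 : ℝ) < (pr Q w : ℝ) := by
    intro w hi
    exact_mod_cast hi Q (fun j => (hQ j).le) hQ0
  set a0 := la b.ψ g.S w0 with ha0
  set a1 := la b'.ψ g.S w0 with ha1
  have ha1' : 0 < a1 := lt_of_lt_of_le (mul_pos hε (hQw w0 hi0)) (hlow w0 hi0)
  have ha0' : 0 ≤ a0 := hl w0 hi0
  obtain ⟨t, ht0, ht1, ht2⟩ : ∃ t : ℝ, 0 < t ∧ t < 1 ∧ (1 - t) * a0 + t * a1 < (1 - t) * m := by
    have h0 : 0 < a1 + (m - a0) := by linarith
    refine ⟨(m - a0) / (2 * (a1 + (m - a0))), div_pos (by linarith) (by positivity), ?_, ?_⟩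
    · rw [div_lt_one (by positivity)]
      linarith
    · set t := (m - a0) / (2 * (a1 + (m - a0))) with ht
      have h1 : t * (a1 + (m - a0)) = (m - a0) / 2 := by
        rw [ht]; field_simp
      nlinarith
  let ψt : Fin (d + r) → ℝ := fun j => (1 - t) * b.ψ j + t * b'.ψ j
  have hla : ∀ w, la ψt g.S w = (1 - t) * la b.ψ g.S w + t * la b'.ψ g.S w := fun w =>
    la_conv _ _ _ _ _
  have hψt : ∀ i, dot ψt (g.E i) ≤ 1 + ∑ j, (phi (g.S j) (g.E i) : ℝ) := by
    intro i
    have h1 : dot ψt (g.E i) = (1 - t) * dot b.ψ (g.E i) + t * dot b'.ψ (g.E i) := by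
      simp only [dot, ψt]
      rw [Finset.mul_sum, Finset.mul_sum, ← Finset.sum_add_distrib]
      exact Finset.sum_congr rfl fun i _ => by ring
    rw [h1, b.eq, b'.eq]
    have h2 := b.nonneg i
    have h3 := b'.nonneg i
    nlinarith
  have key : ∀ k : ℕ, ∃ w, Inn g.E w ∧ la ψt g.S w < (1 - t) * m ∧ (k : ℤ) ≤ pr Q w := by
    intro k
    induction k with
    | zero =>
      refine ⟨w0, hi0, by rw [hla]; exact ht2, ?_⟩
      have := hQw w0 hi0
      have h1 : 0 < pr Q w0 := by exact_mod_cast this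
      push_cast
      omega
    | succ k ih =>
      obtain ⟨w, hi, hlt', hk⟩ := ih
      have hnb : ¬ Bern g.S w := by
        intro hb
        have h1 := htrop w hi hb
        have h2 := hlow w hi
        have h3 := mul_pos hε (hQw w hi)
        rw [hla] at hlt'
        nlinarith
      obtain ⟨I, hI, hle⟩ := st (d + r) g.N r g.E g.S ψt w g.full g.pointed hS (pnt r d L g) hψt hi
        hnb
      refine ⟨w + ∑ i ∈ I, g.E i, ?_, lt_of_le_of_lt hle hlt', ?_⟩
      · intro q hq hq0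
        rw [pr_add_right]
        have h1 := hi q hq hq0
        have h2 : ∀ s : Finset (Fin g.N), 0 ≤ pr q (∑ i ∈ s, g.E i) := by
          intro s
          classical
          induction s using Finset.induction_on with
          | empty => rw [Finset.sum_empty]; simp [pr]
          | insert a s ha ih =>
            rw [Finset.sum_insert ha, pr_add_right]
            have := hq a
            omega
        have := h2 I
        omega
      · rw [pr_add_right]
        have h2 : ∀ s : Finset (Fin g.N), (s.card : ℤ) ≤ pr Q (∑ i ∈ s, g.E i) := by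
          intro s
          classical
          induction s using Finset.induction_on with
          | empty => rw [Finset.sum_empty]; simp [pr]
          | insert a s ha ih =>
            rw [Finset.sum_insert ha, pr_add_right, Finset.card_insert_of_notMem ha]
            have := hQ a
            push_cast
            omega
        have h3 := h2 I
        have h4 := hI.card_pos
        push_cast
        omega
  obtain ⟨k, hk⟩ := exists_nat_gt ((1 - t) * m / (t * ε))
  obtain ⟨w, hi, h1, h2⟩ := key k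
  have h3 := hl w hi
  have h4 := hlow w hi
  rw [hla] at h1
  have h5 : t * ε * (pr Q w : ℝ) < (1 - t) * m := by nlinarith
  have h6 : (k : ℝ) ≤ (pr Q w : ℝ) := by exact_mod_cast h2
  have h7 : 0 < t * ε := mul_pos ht0 hε
  rw [div_lt_iff₀ h7] at hk
  nlinarith

/-- **The minimal log discrepancy is the least toric log discrepancy.** -/
theorem formula (st : S_STEP) (bk : S_BK) (lea : S_LEAD) (inn : S_INN) (dv : S_DIV) (tp : S_TOP)
    (low : S_LOW) (pnt : S_PNT) (hdr : 0 < d + r)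
    {g : CIGerm r d L} (hk : KltType g) (b : Bd g) (hl : LcType b) {B : EffDiv g.X}
    {e : LocEq B g.P} (hr : IsRestr b e) {m : ℝ} (hm : IsMld e m) :
    IsLeast {a | ∃ w, Inn g.E w ∧ la b.ψ g.S w = a} m := by
  obtain ⟨v, hv, hmv⟩ := hm.1
  have h0 := low_bound' low b hr hv hmv
  have hm0 : 0 ≤ m := (hl _ (inn_of_over hv)).trans h0
  have h1 := hmin st bk lea inn dv tp low pnt hdr hk b hl hr hm0 fun v hv a ha => hm.2 ⟨v, hv, ha⟩
  refine ⟨⟨wt g.y v, inn_of_over hv, le_antisymm h0 (h1 _ (inn_of_over hv))⟩, ?_⟩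
  rintro _ ⟨w, hi, rfl⟩
  exact h1 w hi

/-- The minimal log discrepancies are values of the combinatorial ones. -/
theorem mem_comb (st : S_STEP) (bk : S_BK) (lea : S_LEAD) (inn : S_INN) (dv : S_DIV) (tp : S_TOP)
    (low : S_LOW) (pnt : S_PNT) (hdr : 0 < d + r)
    {g : CIGerm r d L} (hk : KltType g) (b : Bd g) (hl : LcType b) {B : EffDiv g.X}
    {e : LocEq B g.P} (hr : IsRestr b e) {Γ : Set ℝ} (hΓ : ∀ i, b.β i ≠ 0 → b.β i ∈ Γ) {m : ℝ}
    (hm : IsMld e m) : ∃ k ≤ d + r, ∃ s, m ∈ mldsR k s (insert 1 Γ) := by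
  obtain ⟨⟨w, hw, h1⟩, h2⟩ := formula st bk lea inn dv tp low pnt hdr hk b hl hr hm
  obtain ⟨T, hT, hφ⟩ := mink (d + r) r g.S (S_ne g)
  have haa : ∀ u, aa b.ψ T u = la b.ψ g.S u := by
    intro u
    rw [aa, la, hφ]
    push_cast
    rfl
  refine mem_mlds (E := g.E) (S := T) (ψ := b.ψ) (β := b.β) hT b.nonneg (fun i => ?_)
    (Set.mem_insert _ _) (fun i hi => Set.mem_insert_of_mem _ (hΓ i hi)) hw (by rw [haa, h1]) ?_
  · rw [b.eq, hφ]
    push_cast
    rfl
  · intro u hu
    rw [haa]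
    exact h2 ⟨u, hu, rfl⟩

end Pool.Agent.Helper43K9.CI
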