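import Pool.Agent.Helper43K9.CI.Stm

/-!
# The leaf [DVR]: a discrete valuation of a finite extension of `ℂ (s)`
-/

set_option autoImplicit false

namespace Pool.Agent.Helper43K9.CI

open Pool.Agent.H436R3.Fol

namespace DvrL

open IsDedekindDomain

/-- the valuation of a prime ideal of a Dedekind domain -/
noncomputable def dval (B K : Type) [CommRing B] [IsDomain B] [IsDedekindDomain B] [Field K] [Algebra B K]
    [IsFractionRing B K] [Algebra ℂ K] (h : ∀ c : ℂ, ∃ b : B, algebraMap B K b = algebraMap ℂ K c)
    (P : HeightOneSpectrum B) : DVal K where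
  ord f := - WithZero.log (P.valuation K f)
  map_mul f g hf hg := by
    rw [map_mul, WithZero.log_mul ((Valuation.ne_zero_iff _).2 hf) ((Valuation.ne_zero_iff _).2 hg)]
    ring
  map_add f g hf hg hfg := by
    have h1 := (P.valuation K).map_add f g
    rcases le_max_iff.1 h1 with h2 | h2
    · have := (WithZero.log_le_log ((Valuation.ne_zero_iff _).2 hfg) ((Valuation.ne_zero_iff _).2 hf)).2 h2
      exact (min_le_left _ _).trans (neg_le_neg this)
    · have := (WithZero.log_le_log ((Valuation.ne_zero_iff _).2 hfg) ((Valuation.ne_zero_iff _).2 hg)).2 h2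
      exact (min_le_right _ _).trans (neg_le_neg this)
  surj := by
    obtain ⟨π, hπ⟩ := P.valuation_exists_uniformizer K
    refine ⟨π, ?_, ?_⟩
    · rintro rfl
      rw [map_zero] at hπ
      exact absurd hπ.symm (by simp)
    · rw [hπ]
      simp
  const c hc := by
    have h1 : ∀ c : ℂ, P.valuation K (algebraMap ℂ K c) ≤ 1 := by
      intro c
      obtain ⟨b, hb⟩ := h c
      rw [← hb]
      exact P.valuation_le_one b
    have h2 : P.valuation K (algebraMap ℂ K c) * P.valuation K (algebraMap ℂ K c⁻¹) = 1 := by
      rw [← map_mul, ← map_mul, mul_inv_cancel₀ hc, map_one, map_one]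
    have h3 : P.valuation K (algebraMap ℂ K c) = 1 := by
      apply le_antisymm (h1 c)
      rw [← h2]
      exact mul_le_of_le_one_right' (h1 _)
    rw [h3]
    simp

end DvrL

/-- [DVR] -/
theorem dvr : S_DVR := by
  intro K _ _ _ _ _
  letI alg : Algebra (Polynomial ℂ) K := ((algebraMap (FractionRing (Polynomial ℂ)) K).comp
    (algebraMap (Polynomial ℂ) (FractionRing (Polynomial ℂ)))).toAlgebra
  haveI st : IsScalarTower (Polynomial ℂ) (FractionRing (Polynomial ℂ)) K :=
    IsScalarTower.of_algebraMap_eq fun _ => rfl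
  have hsep : Algebra.IsSeparable (FractionRing (Polynomial ℂ)) K := inferInstance
  haveI hD : IsDedekindDomain (integralClosure (Polynomial ℂ) K) :=
    integralClosure.isDedekindDomain (Polynomial ℂ) (FractionRing (Polynomial ℂ)) K
  haveI hF : IsFractionRing (integralClosure (Polynomial ℂ) K) K :=
    integralClosure.isFractionRing_of_finite_extension (FractionRing (Polynomial ℂ)) K
  have hmax : (Ideal.span {(Polynomial.X : Polynomial ℂ)}).IsMaximal :=
    PrincipalIdealRing.isMaximal_of_irreducible Polynomial.irreducible_X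
  have hinj : Function.Injective (algebraMap (Polynomial ℂ) K) :=
    (algebraMap (FractionRing (Polynomial ℂ)) K).injective.comp
      (IsFractionRing.injective (Polynomial ℂ) (FractionRing (Polynomial ℂ)))
  obtain ⟨Q, hQ, hQX⟩ := Ideal.exists_ideal_over_maximal_of_isIntegral
    (S := integralClosure (Polynomial ℂ) K) (Ideal.span {(Polynomial.X : Polynomial ℂ)}) (by
      intro x hx
      rw [RingHom.mem_ker] at hx
      have : algebraMap (Polynomial ℂ) K x = 0 := by
        rw [IsScalarTower.algebraMap_apply (Polynomial ℂ) (integralClosure (Polynomial ℂ) K) K, hx,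
          map_zero]
      rw [(map_eq_zero_iff _ hinj).1 this]
      exact Ideal.zero_mem _)
  have hXQ : algebraMap (Polynomial ℂ) (integralClosure (Polynomial ℂ) K) Polynomial.X ∈ Q := by
    rw [← Ideal.mem_comap, hQX]
    exact Ideal.mem_span_singleton_self _
  let P : IsDedekindDomain.HeightOneSpectrum (integralClosure (Polynomial ℂ) K) := ⟨Q, hQ.isPrime, by
    rintro rfl
    rw [Ideal.mem_bot] at hXQ
    have : algebraMap (Polynomial ℂ) K Polynomial.X = 0 := by
      rw [IsScalarTower.algebraMap_apply (Polynomial ℂ) (integralClosure (Polynomial ℂ) K) K, hXQ,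
        map_zero]
    exact Polynomial.X_ne_zero ((map_eq_zero_iff _ hinj).1 this)⟩
  refine ⟨DvrL.dval (integralClosure (Polynomial ℂ) K) K (fun c =>
    ⟨algebraMap (Polynomial ℂ) _ (Polynomial.C c), ?_⟩) P, ?_⟩
  · rw [← IsScalarTower.algebraMap_apply (Polynomial ℂ) (integralClosure (Polynomial ℂ) K) K]
    rw [IsScalarTower.algebraMap_apply ℂ (FractionRing (Polynomial ℂ)) K]
    rfl
  · have h1 : P.valuation K (algebraMap (integralClosure (Polynomial ℂ) K) K
        (algebraMap (Polynomial ℂ) (integralClosure (Polynomial ℂ) K) Polynomial.X)) < 1 := by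
      rw [P.valuation_lt_one_iff_mem]
      exact hXQ
    have h2 : P.valuation K (algebraMap (integralClosure (Polynomial ℂ) K) K
        (algebraMap (Polynomial ℂ) (integralClosure (Polynomial ℂ) K) Polynomial.X)) ≠ 0 := by
      rw [Valuation.ne_zero_iff]
      intro h0
      rw [← IsScalarTower.algebraMap_apply] at h0
      exact Polynomial.X_ne_zero ((map_eq_zero_iff _ hinj).1 h0)
    have h3 := (WithZero.log_lt_log h2 one_ne_zero).2 h1
    rw [WithZero.log_one] at h3
    exact neg_pos.2 h3

end Pool.Agent.Helper43K9.CI
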