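import Pool.Agent.Helper43K9.CI.Stm

/-!
# The leaf [EXT]: a zero over a finite extension of `ℂ (s)`
-/

set_option autoImplicit false

namespace Pool.Agent.Helper43K9.CI

open MvPolynomial

namespace ExtL

attribute [local instance] MvPolynomial.algebraMvPolynomial

/-- polynomials over `ℂ [s]` in the coordinates and the inverse of their product -/
abbrev RA (n : ℕ) : Type := MvPolynomial (Option (Fin n)) (Polynomial ℂ)

/-- polynomials over `ℂ (s)` -/
abbrev Rk (n : ℕ) : Type := MvPolynomial (Option (Fin n)) (FractionRing (Polynomial ℂ))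

/-- polynomials with constant coefficients -/
noncomputable def em (n : ℕ) : MvPolynomial (Fin n) ℂ →+* RA n :=
  (MvPolynomial.rename some).toRingHom.comp (MvPolynomial.map Polynomial.C)

/-- the equations -/
noncomputable def HH {n : ℕ} (F B : MvPolynomial (Fin n) ℂ) : RA n :=
  em n F + C Polynomial.X * em n (B - F)

/-- the equation of the inverse of the product of the coordinates -/
noncomputable def gg (n : ℕ) : RA n := X none * ∏ i : Fin n, X (some i) - 1

/-- the ideal -/
noncomputable def IA {n r : ℕ} (F B : Fin r → MvPolynomial (Fin n) ℂ) : Ideal (RA n) :=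
  Ideal.span (insert (gg n) (Set.range fun j => HH (F j) (B j)))

/-- evaluation -/
noncomputable def ev {n : ℕ} (s : ℂ) (z : Fin n → ℂ) (t : ℂ) : RA n →+* ℂ :=
  eval₂Hom (Polynomial.evalRingHom s) (fun o : Option (Fin n) => o.elim t z)

theorem ev_em {n : ℕ} (s : ℂ) (z : Fin n → ℂ) (t : ℂ) (F : MvPolynomial (Fin n) ℂ) :
    ev s z t (em n F) = eval z F := by
  have : (ev s z t).comp (em n) = eval z := by
    apply MvPolynomial.ringHom_ext
    · intro c
      simp [ev, em]
    · intro i
      simp [ev, em]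
  exact congrArg (fun f : MvPolynomial (Fin n) ℂ →+* ℂ => f F) this

theorem ev_C {n : ℕ} (s : ℂ) (z : Fin n → ℂ) (t : ℂ) (d : Polynomial ℂ) :
    ev s z t (C d) = d.eval s := by
  simp [ev]

theorem ev_zero {n r : ℕ} {F B : Fin r → MvPolynomial (Fin n) ℂ} {s : ℂ} {z : Fin n → ℂ}
    (hz : ∀ i, z i ≠ 0) (h : ∀ j, eval z (F j) + s * eval z (B j - F j) = 0) {p : RA n}
    (hp : p ∈ IA F B) : ev s z (∏ i, z i)⁻¹ p = 0 := by
  have hle : IA F B ≤ RingHom.ker (ev s z (∏ i, z i)⁻¹) := by
    rw [IA, Ideal.span_le]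
    rintro q (rfl | ⟨j, rfl⟩)
    · rw [SetLike.mem_coe, RingHom.mem_ker, gg, map_sub, map_mul, map_prod, map_one]
      have h1 : ev s z (∏ i, z i)⁻¹ (X none) = (∏ i, z i)⁻¹ := by simp [ev]
      have h2 : ∀ i : Fin n, ev s z (∏ i, z i)⁻¹ (X (some i)) = z i := by
        intro i
        simp [ev]
      simp only [h1, h2]
      rw [inv_mul_cancel₀ (Finset.prod_ne_zero_iff.2 fun i _ => hz i), sub_self]
    · beta_reduce
      rw [SetLike.mem_coe, RingHom.mem_ker, HH, map_add, map_mul, ev_em, ev_em, ev_C,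
        Polynomial.eval_X]
      exact h j
  exact hle hp

/-- if the ideal becomes the unit ideal over `ℂ (s)` it contains a nonzero polynomial of `s` -/
theorem exists_d {n r : ℕ} {F B : Fin r → MvPolynomial (Fin n) ℂ}
    (h : (IA F B).map (algebraMap (RA n) (Rk n)) = ⊤) :
    ∃ d : Polynomial ℂ, d ≠ 0 ∧ (C d : RA n) ∈ IA F B := by
  have hloc : IsLocalization ((nonZeroDivisors (Polynomial ℂ)).map
      (C : Polynomial ℂ →+* MvPolynomial (Option (Fin n)) (Polynomial ℂ))) (Rk n) :=
    MvPolynomial.isLocalization _ _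
  have h1 : (1 : Rk n) ∈ (IA F B).map (algebraMap (RA n) (Rk n)) := by
    rw [h]
    trivial
  rw [IsLocalization.mem_map_algebraMap_iff ((nonZeroDivisors (Polynomial ℂ)).map
      (C : Polynomial ℂ →+* MvPolynomial (Option (Fin n)) (Polynomial ℂ)))] at h1
  obtain ⟨⟨a, ⟨m, hm⟩⟩, h2⟩ := h1
  obtain ⟨d, hd, rfl⟩ := hm
  simp only [one_mul] at h2
  have hinj : Function.Injective (algebraMap (RA n) (Rk n)) := by
    have : (algebraMap (RA n) (Rk n)) = MvPolynomial.map (algebraMap (Polynomial ℂ)
        (FractionRing (Polynomial ℂ))) := rfl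
    rw [this]
    exact MvPolynomial.map_injective _ (IsFractionRing.injective _ _)
  refine ⟨d, nonZeroDivisors.ne_zero hd, ?_⟩
  have h3 := hinj h2
  have h4 : (C d : RA n) = a := h3
  rw [h4]
  exact a.2

theorem ne_top {n r : ℕ} (hop : S_OPEN) {F B : Fin r → MvPolynomial (Fin n) ℂ}
    (hB : ∀ j, eval (fun _ => (1 : ℂ)) (B j) = 0) (hI : Ind B (fun _ => (1 : ℂ))) :
    (IA F B).map (algebraMap (RA n) (Rk n)) ≠ ⊤ := by
  intro htop
  obtain ⟨d, hd, hdI⟩ := exists_d htop
  have hcomp : ∀ (s : ℂ) (z : Fin n → ℂ), (Fin.cons s z : Fin (n + 1) → ℂ) ∘ Fin.succ = z :=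
    fun s z => funext fun i => Fin.cons_succ _ _ _
  have hev : ∀ (s : ℂ) (z : Fin n → ℂ) (j : Fin r), eval (Fin.cons s z : Fin (n + 1) → ℂ)
      (rename Fin.succ (F j) + X 0 * rename Fin.succ (B j - F j)) =
      eval z (F j) + s * eval z (B j - F j) := by
    intro s z j
    rw [map_add, map_mul, eval_rename, eval_rename, eval_X, hcomp]
    rfl
  obtain ⟨δ, hδ, h1⟩ := hop n r (fun j => rename Fin.succ (F j) + X 0 *
    rename Fin.succ (B j - F j)) 1 (fun _ => 1) (by
      intro j
      rw [hev, map_sub, hB]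
      ring) (by
      suffices heq : (fun (j : Fin r) (i : Fin n) => eval (Fin.cons 1 fun _ => 1 : Fin (n + 1) → ℂ)
          (pderiv i.succ (rename Fin.succ (F j) + X 0 * rename Fin.succ (B j - F j)))) =
          fun (j : Fin r) (i : Fin n) => eval (fun _ => 1) (pderiv i (B j)) by
        rw [heq]
        exact hI
      funext j i
      rw [map_add, Derivation.leibniz, pderiv_X_of_ne (Fin.succ_ne_zero i).symm, smul_zero, add_zero,
        pderiv_rename (Fin.succ_injective _), pderiv_rename (Fin.succ_injective _), smul_eq_mul,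
        map_add, map_mul, eval_X, eval_rename, eval_rename, hcomp, map_sub, map_sub, Fin.cons_zero]
      ring) 1 one_pos
  apply hd
  apply Polynomial.eq_zero_of_infinite_isRoot
  apply Set.Infinite.mono (s := Metric.ball (1 : ℂ) δ) _
    (infinite_of_mem_nhds (1 : ℂ) (Metric.ball_mem_nhds _ hδ))
  intro s hs
  rw [Metric.mem_ball, dist_eq_norm] at hs
  obtain ⟨z, hz1, hz2⟩ := h1 s hs
  have hz : ∀ i, z i ≠ 0 := by
    intro i h0
    have := hz1 i
    rw [h0, zero_sub, norm_neg, norm_one] at this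
    exact lt_irrefl _ this
  have h2 := ev_zero (F := F) (B := B) hz (fun j => by rw [← hev]; exact hz2 j) hdI
  rw [ev_C] at h2
  exact h2

end ExtL

attribute [local instance] MvPolynomial.algebraMvPolynomial

/-- [EXT] -/
theorem ext (hop : S_OPEN) : S_EXT := by
  intro n r F B hB hI
  obtain ⟨M, hM, hle⟩ := Ideal.exists_le_maximal _ (ExtL.ne_top hop (F := F) hB hI)
  letI hfield : Field (ExtL.Rk n ⧸ M) := Ideal.Quotient.field M
  have hft : Algebra.FiniteType (FractionRing (Polynomial ℂ)) (ExtL.Rk n ⧸ M) := inferInstance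
  have hfin : Module.Finite (FractionRing (Polynomial ℂ)) (ExtL.Rk n ⧸ M) :=
    finite_of_finite_type_of_isJacobsonRing _ _
  have hz : ∀ p ∈ ExtL.IA F B, Ideal.Quotient.mk M (algebraMap (ExtL.RA n) (ExtL.Rk n) p) = 0 := by
    intro p hp
    rw [Ideal.Quotient.eq_zero_iff_mem]
    exact hle (Ideal.mem_map_of_mem _ hp)
  have hem : ∀ p : MvPolynomial (Fin n) ℂ,
      Ideal.Quotient.mk M (algebraMap (ExtL.RA n) (ExtL.Rk n) (ExtL.em n p)) =
      aeval (fun i => Ideal.Quotient.mk M (X (some i))) p := by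
    intro p
    have : ((Ideal.Quotient.mk M).comp (algebraMap (ExtL.RA n) (ExtL.Rk n))).comp (ExtL.em n) =
        (aeval (R := ℂ) (fun i : Fin n => Ideal.Quotient.mk M (X (some i) : ExtL.Rk n))).toRingHom := by
      apply MvPolynomial.ringHom_ext
      · intro c
        simp [ExtL.em]
        rfl
      · intro i
        simp [ExtL.em]
    exact congrArg (fun f : MvPolynomial (Fin n) ℂ →+* (ExtL.Rk n ⧸ M) => f p) this
  refine ⟨ExtL.Rk n ⧸ M, hfield, inferInstance, inferInstance, inferInstance, hfin,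
    fun i => Ideal.Quotient.mk M (X (some i)), fun i hi => ?_, fun j => ?_⟩
  · have h1 := hz _ (Ideal.subset_span (Set.mem_insert _ _))
    rw [ExtL.gg, map_sub, map_mul, map_prod, map_one, map_sub, map_mul, map_prod, map_one] at h1
    have h2 : ∏ i : Fin n, Ideal.Quotient.mk M (algebraMap (ExtL.RA n) (ExtL.Rk n) (X (some i))) = 0 := by
      apply Finset.prod_eq_zero (Finset.mem_univ i)
      simpa using hi
    rw [h2, mul_zero, zero_sub] at h1
    exact one_ne_zero (neg_eq_zero.1 h1)
  · have h1 := hz _ (Ideal.subset_span (Set.mem_insert_of_mem _ ⟨j, rfl⟩))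
    simp only [ExtL.HH, map_add, map_mul] at h1
    rw [hem, hem] at h1
    convert h1 using 3
    simp
    rfl

end Pool.Agent.Helper43K9.CI
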