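import Pool.Agent.Helper43K9.CI.Rado
import Pool.Agent.Helper43K9.CI.Dvr
import Pool.Agent.Helper43K9.CI.Ext

/-!
# The leaf [BK]: Bernstein's theorem, existence of a zero
-/

set_option autoImplicit false

namespace Pool.Agent.Helper43K9.CI

open Pool.Agent.H436R3.KT Pool.Agent.W497.Mld MvPolynomial
open Pool.Agent.TH165.ACC (pr ex Prim Cn Hs lead part mldsR)
open Pool.Agent.Helper43K9.NH (ch AA wt Inn expo phi dot)

namespace BkL

theorem lin_cast {n r : ℕ} (v : Fin r → Fin n → ℚ) (h : LinearIndependent ℚ v) :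
    LinearIndependent ℂ (fun (j : Fin r) (i : Fin n) => ((v j i : ℚ) : ℂ)) := by
  classical
  let f : (Fin r → ℚ) →ₗ[ℚ] (Fin n → ℚ) := Fintype.linearCombination ℚ v
  have hf : LinearMap.ker f = ⊥ := by
    rw [LinearMap.ker_eq_bot]
    exact linearIndependent_iff_injective_fintypeLinearCombination.1 h
  obtain ⟨g, hg⟩ := LinearMap.exists_leftInverse_of_injective f hf
  have h1 : ∀ j k, ∑ i, v j i * g (Pi.single i 1) k = if k = j then 1 else 0 := by
    intro j k
    have h2 : g (v j) = Pi.single j 1 := by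
      have h3 : f (Pi.single j 1) = v j := by
        simp only [f]
        rw [Fintype.linearCombination_apply_single]
        simp
      rw [← h3]
      exact congrArg (fun F : (Fin r → ℚ) →ₗ[ℚ] (Fin r → ℚ) => F (Pi.single j 1)) hg
    have h4 : v j = ∑ i, v j i • (Pi.single i 1 : Fin n → ℚ) := by
      funext i
      simp [Finset.sum_apply, Pi.single_apply]
    have h5 := congrArg (fun x => g x k) h4
    simp only [map_sum, map_smul] at h5
    rw [h2, Finset.sum_apply] at h5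
    simp only [Pi.smul_apply, smul_eq_mul] at h5
    rw [← h5, Pi.single_apply]
  rw [Fintype.linearIndependent_iff]
  intro c hc k
  have h6 : ∑ i, (∑ j, c j * ((v j i : ℚ) : ℂ)) * ((g (Pi.single i 1) k : ℚ) : ℂ) = 0 := by
    apply Finset.sum_eq_zero
    intro i _
    have := congrFun hc i
    rw [Finset.sum_apply] at this
    simp only [Pi.smul_apply, smul_eq_mul, Pi.zero_apply] at this
    rw [this, zero_mul]
  have h7 : ∑ i, (∑ j, c j * ((v j i : ℚ) : ℂ)) * ((g (Pi.single i 1) k : ℚ) : ℂ) =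
      ∑ j, c j * (((∑ i, v j i * g (Pi.single i 1) k : ℚ)) : ℂ) := by
    simp only [Finset.sum_mul]
    rw [Finset.sum_comm]
    refine Finset.sum_congr rfl fun j _ => ?_
    rw [Rat.cast_sum, Finset.mul_sum]
    refine Finset.sum_congr rfl fun i _ => ?_
    rw [Rat.cast_mul]
    ring
  rw [h7] at h6
  simp only [h1] at h6
  rw [Finset.sum_eq_single k (fun j _ hj => by rw [if_neg (Ne.symm hj)]; simp)
    (fun h => absurd (Finset.mem_univ _) h)] at h6
  simpa using h6

/-- the binomial -/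
noncomputable def bin {n : ℕ} (s s' : Fin n →₀ ℕ) : MvPolynomial (Fin n) ℂ :=
  monomial s 1 - monomial s' 1

theorem bin_one {n : ℕ} (s s' : Fin n →₀ ℕ) : eval (fun _ => (1 : ℂ)) (bin s s') = 0 := by
  rw [bin, map_sub, eval_monomial, eval_monomial]
  simp

theorem pd_bin {n : ℕ} (s s' : Fin n →₀ ℕ) (i : Fin n) :
    eval (fun _ => (1 : ℂ)) (pderiv i (bin s s')) = (s i : ℂ) - (s' i : ℂ) := by
  rw [bin, map_sub, pderiv_monomial, pderiv_monomial, map_sub, eval_monomial, eval_monomial]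
  simp

theorem bin_supp {n : ℕ} {s s' : Fin n →₀ ℕ} {F : MvPolynomial (Fin n) ℂ} (hs : s ∈ F.support)
    (hs' : s' ∈ F.support) : (bin s s' - F).support ⊆ F.support := by
  classical
  intro t ht
  by_contra hF
  rw [mem_support_iff] at ht
  apply ht
  have h1 : s ≠ t := fun h => hF (h ▸ hs)
  have h2 : s' ≠ t := fun h => hF (h ▸ hs')
  rw [coeff_sub, bin, coeff_sub, coeff_monomial, coeff_monomial, if_neg h1, if_neg h2,
    notMem_support_iff.1 hF]
  simp

end BkL

/-- [BK] -/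
theorem bk (hop : S_OPEN) (hred : S_RED) (hlim : S_LIM) : S_BK := by
  classical
  intro n r F hF hnd hdim
  let V : Fin r → Finset (Fin n → ℚ) := fun j => ((F j).support ×ˢ (F j).support).image
    fun q : (Fin n →₀ ℕ) × (Fin n →₀ ℕ) => fun i => ((ex q.1 i - ex q.2 i : ℤ) : ℚ)
  have hV : ∀ J : Finset (Fin r), {v : Fin n → ℚ | ∃ j ∈ J, v ∈ V j} =
      {v : Fin n → ℚ | ∃ j ∈ J, ∃ m ∈ expo (F j), ∃ m' ∈ expo (F j),
        v = fun i => ((m i - m' i : ℤ) : ℚ)} := by
    intro J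
    ext v
    constructor
    · rintro ⟨j, hj, hv⟩
      obtain ⟨⟨s, s'⟩, hq, rfl⟩ := Finset.mem_image.1 hv
      obtain ⟨h1, h2⟩ := Finset.mem_product.1 hq
      exact ⟨j, hj, ex s, Finset.mem_image_of_mem _ h1, ex s', Finset.mem_image_of_mem _ h2, rfl⟩
    · rintro ⟨j, hj, m, hm, m', hm', rfl⟩
      obtain ⟨s, hs, rfl⟩ := Finset.mem_image.1 hm
      obtain ⟨s', hs', rfl⟩ := Finset.mem_image.1 hm'
      exact ⟨j, hj, Finset.mem_image.2 ⟨(s, s'), Finset.mem_product.2 ⟨hs, hs'⟩, rfl⟩⟩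
  obtain ⟨v, hv, hlin⟩ := rado n r V (fun J => by rw [hV]; exact hdim J)
  have hv' : ∀ j, ∃ s ∈ (F j).support, ∃ s' ∈ (F j).support,
      v j = fun i => ((ex s i - ex s' i : ℤ) : ℚ) := by
    intro j
    obtain ⟨⟨s, s'⟩, hq, h⟩ := Finset.mem_image.1 (hv j)
    obtain ⟨h1, h2⟩ := Finset.mem_product.1 hq
    exact ⟨s, h1, s', h2, h.symm⟩
  choose s hs s' hs' hvs using hv'
  have hInd : Ind (fun j => BkL.bin (s j) (s' j)) (fun _ => (1 : ℂ)) := by
    have h1 := BkL.lin_cast v hlin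
    unfold Ind
    convert h1 using 3 with j i
    rw [BkL.pd_bin, hvs]
    simp [ex]
  obtain ⟨K, _, _, _, _, _, x, hx, hz⟩ := ext hop n r F (fun j => BkL.bin (s j) (s' j))
    (fun j => BkL.bin_one _ _) hInd
  obtain ⟨w, hw⟩ := dvr K
  obtain ⟨ξ, hξ, hlead⟩ := hred K w _ hw (by
    rw [Ne, map_eq_zero_iff _ (algebraMap (FractionRing (Polynomial ℂ)) K).injective,
      map_eq_zero_iff _ (IsFractionRing.injective (Polynomial ℂ) (FractionRing (Polynomial ℂ)))]
    exact Polynomial.X_ne_zero) n r F (fun j => BkL.bin (s j) (s' j) - F j) hF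
    (fun j => BkL.bin_supp (hs j) (hs' j)) x hx hz
  exact (hlim n r F hF (wt x w) ξ hξ hlead (hnd _ ξ hξ hlead)).1

end Pool.Agent.Helper43K9.CI
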