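import Pool.Agent.Helper43K9.CI.Stm

/-!
# [COT] the cotangent space at a point of a boundary divisor
-/

set_option autoImplicit false
set_option linter.unusedSectionVars false
set_option linter.unusedVariables false

namespace Pool.Agent.Helper43K9.CI

open Pool.Agent.H436R3.Fol Pool.Agent.H436R3.KT Pool.Agent.W497.Mld MvPolynomial
open Pool.Agent.TH165.ACC (pr ex Prim Cn Hs lead part mldsR pr_add pr_zero pr_neg pr_sub pr_smul
  pr_smul_right ex_add ex_inj exists_nat_ex)
open Pool.Agent.Helper43K9.NH (ch AA wt Inn expo phi dot ch_ne ch_add ch_zero ch_neg ch_mul_neg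
  ch_sub ch_mem_AA aeval_eq_sum aeval_mon)

namespace CotL

/-- linear algebra in the quotient -/
theorem exists_gens {A : Type} [CommRing A] [Algebra ℂ A] {n r : ℕ} (ev : A →ₐ[ℂ] ℂ) (J : Ideal A)
    (e : Fin n → A) (he : ∀ l, ev (e l) = 0) (v : Fin (r + 1) → Fin n → ℂ)
    (hv : LinearIndependent ℂ v)
    (hker : ∀ i, ∑ l, v i l • Ideal.Quotient.mk J (e l) = 0)
    (hgen : ∀ a : A, ev a = 0 →
      ∃ c : Fin n → ℂ, Ideal.Quotient.mk J a = ∑ l, c l • Ideal.Quotient.mk J (e l)) :
    ∃ (k : ℕ) (x : Fin k → A), k + 1 + r ≤ n ∧ (∀ i, ev (x i) = 0) ∧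
      ∀ a, ev a = 0 → a ∈ J ⊔ Ideal.span (Set.range x) := by
  let Φ : (Fin n → ℂ) →ₗ[ℂ] A ⧸ J := Fintype.linearCombination ℂ fun l => Ideal.Quotient.mk J (e l)
  have hΦ : ∀ c, Φ c = ∑ l, c l • Ideal.Quotient.mk J (e l) := fun c =>
    Fintype.linearCombination_apply _ _ _
  have h1 := LinearMap.finrank_range_add_finrank_ker Φ
  rw [Module.finrank_fintype_fun_eq_card, Fintype.card_fin] at h1
  have h2 : r + 1 ≤ Module.finrank ℂ (LinearMap.ker Φ) := by
    let v' : Fin (r + 1) → LinearMap.ker Φ := fun i => ⟨v i, by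
      rw [LinearMap.mem_ker, hΦ]; exact hker i⟩
    have h3 : LinearIndependent ℂ v' :=
      LinearIndependent.of_comp (LinearMap.ker Φ).subtype hv
    have h4 := h3.fintype_card_le_finrank
    rwa [Fintype.card_fin] at h4
  let b := Module.finBasis ℂ (LinearMap.range Φ)
  have hc : ∀ i, ∃ c : Fin n → ℂ, Φ c = (b i : A ⧸ J) := fun i => (b i).2
  choose c hc using hc
  refine ⟨Module.finrank ℂ (LinearMap.range Φ), fun i => ∑ l, c i l • e l, by omega, ?_, ?_⟩
  · intro i
    rw [map_sum]
    exact Finset.sum_eq_zero fun l _ => by rw [map_smul, he, smul_zero]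
  · intro a ha
    obtain ⟨d, hd⟩ := hgen a ha
    have h3 : Ideal.Quotient.mk J a ∈ LinearMap.range Φ := ⟨d, by rw [hΦ, hd]⟩
    have h4 := b.sum_repr ⟨Ideal.Quotient.mk J a, h3⟩
    have h5 := congrArg (Submodule.subtype _) h4
    rw [map_sum] at h5
    have h6 : ∀ i, Ideal.Quotient.mk J (∑ l, c i l • e l) = (b i : A ⧸ J) := by
      intro i
      rw [← hc i, hΦ, map_sum]
      exact Finset.sum_congr rfl fun l _ => rfl
    have h7 : Ideal.Quotient.mk J (a - ∑ i, b.repr ⟨Ideal.Quotient.mk J a, h3⟩ i •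
        ∑ l, c i l • e l) = 0 := by
      rw [map_sub, sub_eq_zero, map_sum]
      refine Eq.trans h5.symm (Finset.sum_congr rfl fun i _ => ?_)
      rw [map_smul]
      have h8 : Ideal.Quotient.mk J (b.repr ⟨Ideal.Quotient.mk J a, h3⟩ i •
          ∑ l, c i l • e l) = b.repr ⟨Ideal.Quotient.mk J a, h3⟩ i •
          Ideal.Quotient.mk J (∑ l, c i l • e l) := rfl
      rw [h8, h6]
      rfl
    rw [Ideal.Quotient.eq_zero_iff_mem] at h7
    have h9 : a = (a - ∑ i, b.repr ⟨Ideal.Quotient.mk J a, h3⟩ i • ∑ l, c i l • e l) +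
        ∑ i, b.repr ⟨Ideal.Quotient.mk J a, h3⟩ i • ∑ l, c i l • e l := by ring
    rw [h9]
    refine add_mem (Ideal.mem_sup_left h7) (sum_mem fun i _ => Ideal.mem_sup_right ?_)
    rw [Algebra.smul_def]
    exact Ideal.mul_mem_left _ _ (Ideal.subset_span ⟨i, rfl⟩)

variable {L : Type} [Field L] [Algebra ℂ L] {n r : ℕ} {y : Fin n → L} {w : Fin n → ℤ}

/-- the monomials as elements of the algebra -/
noncomputable def cx (y : Fin n → L) (w m : Fin n → ℤ) : AA y (Hs w) :=
  if h : 0 ≤ pr m w then ⟨ch y m, ch_mem_AA h⟩ else 0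

theorem cx_coe {m : Fin n → ℤ} (h : 0 ≤ pr m w) : (cx y w m : L) = ch y m := by
  rw [cx, dif_pos h]

theorem cx_add (hy : ∀ i, y i ≠ 0) {m m' : Fin n → ℤ} (h : 0 ≤ pr m w) (h' : 0 ≤ pr m' w) :
    cx y w (m + m') = cx y w m * cx y w m' := by
  apply Subtype.ext
  rw [MulMemClass.coe_mul, cx_coe h, cx_coe h', cx_coe (by rw [pr_add]; omega), ch_add hy]

theorem pr_single (l : Fin n) (w : Fin n → ℤ) : pr (Pi.single l 1) w = w l := by
  simp [pr, Pi.single_apply]

end CotL

open CotL

theorem cot : S_COT := by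
  intro L _ _ n r y hy w ξ hξ F hF hFy hFξ hInd ev hev m1 hm1 π hπ
  set M : Ideal (AA y (Hs w)) := RingHom.ker ev with hM
  set J : Ideal (AA y (Hs w)) := Ideal.span {π} ⊔ M ^ 2 with hJ
  have hevx : ∀ m, pr m w = 0 → ev (cx y w m) = ch ξ m := by
    intro m hm
    rw [hev m _ hm.ge (cx_coe hm.ge), if_pos hm]
  -- the monomials of positive weight
  have hpos : ∀ m, 0 < pr m w → cx y w m ∈ J := by
    intro m hm
    have h1 : cx y w m = cx y w (m - m1) * π := by
      apply Subtype.ext
      rw [MulMemClass.coe_mul, cx_coe hm.le, cx_coe (by rw [pr_sub]; omega), hπ, ← ch_add hy,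
        sub_add_cancel]
    rw [h1]
    exact Ideal.mem_sup_left (Ideal.mul_mem_left _ _ (Ideal.mem_span_singleton_self π))
  let E : (Fin n → ℤ) → AA y (Hs w) := fun m => (ch ξ m)⁻¹ • cx y w m - 1
  have hE : ∀ m, pr m w = 0 → ev (E m) = 0 := by
    intro m hm
    simp only [E]
    rw [map_sub, map_smul, hevx m hm, map_one, smul_eq_mul, inv_mul_cancel₀ (ch_ne hξ m), sub_self]
  have hEadd : ∀ m m', pr m w = 0 → pr m' w = 0 → E (m + m') = E m + E m' + E m * E m' := by
    intro m m' hm hm'
    simp only [E]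
    rw [ch_add hξ, cx_add hy hm.ge hm'.ge, mul_inv, ← smul_mul_smul_comm]
    ring
  have hE0 : E 0 = 0 := by
    simp only [E]
    rw [ch_zero, inv_one, one_smul, sub_eq_zero]
    apply Subtype.ext
    rw [cx_coe (by rw [pr_zero]), ch_zero]
    rfl
  have hpm : ∀ m, pr (m - pr m w • m1) w = 0 := by
    intro m
    rw [pr_sub, pr_smul, hm1]
    ring
  have hmkadd : ∀ m m', pr m w = 0 → pr m' w = 0 →
      Ideal.Quotient.mk J (E (m + m')) = Ideal.Quotient.mk J (E m) + Ideal.Quotient.mk J (E m') := by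
    intro m m' hm hm'
    rw [hEadd m m' hm hm', map_add, map_add]
    have : E m * E m' ∈ J := by
      apply Ideal.mem_sup_right
      rw [pow_two]
      exact Ideal.mul_mem_mul (RingHom.mem_ker.2 (hE m hm)) (RingHom.mem_ker.2 (hE m' hm'))
    rw [Ideal.Quotient.eq_zero_iff_mem.2 this, add_zero]
  let θ : (Fin n → ℤ) →+ (AA y (Hs w)) ⧸ J :=
    { toFun := fun m => Ideal.Quotient.mk J (E (m - pr m w • m1))
      map_zero' := by
        rw [pr_zero, zero_smul, sub_zero, hE0, map_zero]
      map_add' := by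
        intro a b
        rw [← hmkadd _ _ (hpm a) (hpm b)]
        congr 2
        rw [pr_add]
        module }
  have hθ : ∀ m, pr m w = 0 → θ m = Ideal.Quotient.mk J (E m) := by
    intro m hm
    change Ideal.Quotient.mk J (E (m - pr m w • m1)) = _
    rw [hm, zero_smul, sub_zero]
  let e : Fin n → AA y (Hs w) := fun l => E (Pi.single l 1 - pr (Pi.single l 1) w • m1)
  have hθe : ∀ l, θ (Pi.single l 1) = Ideal.Quotient.mk J (e l) := fun l => rfl
  have hθs : ∀ m, θ m = ∑ l, ((m l : ℤ) : ℂ) • Ideal.Quotient.mk J (e l) := by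
    intro m
    have h1 : m = ∑ l, m l • (Pi.single l 1 : Fin n → ℤ) := by
      funext i
      rw [Finset.sum_apply]
      simp [Pi.single_apply]
    conv_lhs => rw [h1]
    rw [map_sum]
    refine Finset.sum_congr rfl fun l _ => ?_
    rw [map_zsmul, hθe, Int.cast_smul_eq_zsmul]
  -- the class of a monomial of weight zero
  have hcx : ∀ m, pr m w = 0 → Ideal.Quotient.mk J (cx y w m) = ch ξ m • (1 + θ m) := by
    intro m hm
    rw [hθ m hm]
    have h1 : cx y w m = ch ξ m • (1 + E m) := by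
      simp only [E]
      rw [add_sub_cancel, smul_smul, mul_inv_cancel₀ (ch_ne hξ m), one_smul]
    conv_lhs => rw [h1]
    rfl
  have he : ∀ l, ev (e l) = 0 := fun l => hE _ (hpm _)
  have hmks : ∀ (c : ℂ) (a : AA y (Hs w)),
      Ideal.Quotient.mk J (c • a) = c • Ideal.Quotient.mk J a := fun _ _ => rfl
  -- generation
  let R : Submodule ℂ ((AA y (Hs w)) ⧸ J) :=
    Submodule.span ℂ (Set.range fun l => Ideal.Quotient.mk J (e l))
  have hθR : ∀ m, θ m ∈ R := by
    intro m
    rw [hθs]
    exact sum_mem fun l _ => Submodule.smul_mem _ _ (Submodule.subset_span ⟨l, rfl⟩)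
  have hgen0 : ∀ x : L, x ∈ Algebra.adjoin ℂ (ch y '' Hs w) → ∀ a : AA y (Hs w), (a : L) = x →
      Ideal.Quotient.mk J a - ev a • (1 : (AA y (Hs w)) ⧸ J) ∈ R := by
    intro x hx
    induction hx using Algebra.adjoin_induction with
    | mem x hx =>
      obtain ⟨m, hm, rfl⟩ := hx
      intro a ha
      have hm' : 0 ≤ pr m w := hm
      have h1 : a = cx y w m := Subtype.ext (by rw [ha, cx_coe hm'])
      rcases hm'.eq_or_lt with h0 | h0
      · rw [h1, hcx m h0.symm, hevx m h0.symm, smul_add, add_sub_cancel_left]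
        exact Submodule.smul_mem _ _ (hθR m)
      · rw [h1, Ideal.Quotient.eq_zero_iff_mem.2 (hpos m h0), hev m _ hm' (cx_coe hm'),
          if_neg h0.ne', zero_smul, sub_zero]
        exact zero_mem _
    | algebraMap c =>
      intro a ha
      have h1 : a = algebraMap ℂ _ c := Subtype.ext ha
      rw [h1, AlgHom.commutes, Algebra.algebraMap_eq_smul_one, hmks, map_one]
      simp
    | add x z hx hz ihx ihz =>
      intro a ha
      have h1 : a = (⟨x, hx⟩ : AA y (Hs w)) + ⟨z, hz⟩ := Subtype.ext ha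
      rw [h1, map_add, map_add, add_smul, add_sub_add_comm]
      exact add_mem (ihx _ rfl) (ihz _ rfl)
    | mul x z hx hz ihx ihz =>
      intro a ha
      have h1 : a = (⟨x, hx⟩ : AA y (Hs w)) * ⟨z, hz⟩ := Subtype.ext ha
      set p : AA y (Hs w) := ⟨x, hx⟩
      set q : AA y (Hs w) := ⟨z, hz⟩
      have h2 : (p - ev p • 1) * (q - ev q • 1) ∈ J := by
        apply Ideal.mem_sup_right
        rw [pow_two]
        refine Ideal.mul_mem_mul (RingHom.mem_ker.2 ?_) (RingHom.mem_ker.2 ?_)
        · rw [map_sub, map_smul, map_one]; simp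
        · rw [map_sub, map_smul, map_one]; simp
      have h3 : Ideal.Quotient.mk J a - ev a • (1 : (AA y (Hs w)) ⧸ J) =
          Ideal.Quotient.mk J ((p - ev p • 1) * (q - ev q • 1)) +
          (ev q • (Ideal.Quotient.mk J p - ev p • (1 : (AA y (Hs w)) ⧸ J)) +
          ev p • (Ideal.Quotient.mk J q - ev q • (1 : (AA y (Hs w)) ⧸ J))) := by
        rw [h1, map_mul, map_mul, map_mul, map_sub, map_sub, hmks, hmks, map_one]
        simp only [sub_mul, mul_sub, smul_mul_assoc, mul_smul_comm, one_mul, mul_one, smul_sub,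
          smul_smul]
        rw [mul_comm (ev p) (ev q)]
        abel
      rw [h3, Ideal.Quotient.eq_zero_iff_mem.2 h2, zero_add]
      exact add_mem (Submodule.smul_mem _ _ (ihx _ rfl)) (Submodule.smul_mem _ _ (ihz _ rfl))
  have hgen : ∀ a : AA y (Hs w), ev a = 0 →
      ∃ c : Fin n → ℂ, Ideal.Quotient.mk J a = ∑ l, c l • Ideal.Quotient.mk J (e l) := by
    intro a ha
    have h1 := hgen0 a a.2 a rfl
    rw [ha, zero_smul, sub_zero] at h1
    obtain ⟨c, hc⟩ := (Submodule.mem_span_range_iff_exists_fun ℂ).1 h1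
    exact ⟨c, hc.symm⟩
  -- the gradients
  let u : Fin r → Fin n → ℂ := fun j l => ξ l * eval ξ (pderiv l (lead w (F j)))
  have hleads : ∀ j, ∃ φ : ℤ, ∃ t0 ∈ (F j).support, pr (ex t0) w = φ ∧
      (∀ s ∈ (F j).support, φ ≤ pr (ex s) w) ∧
      lead w (F j) = ∑ s ∈ (F j).support with pr (ex s) w = φ, monomial s ((F j).coeff s) := by
    intro j
    obtain ⟨⟨s, hs, h1⟩, h2⟩ := Pool.Agent.Helper43K9.NH.phi_expo (hF j) w
    refine ⟨phi (expo (F j)) w, s, hs, h1.symm, h2, ?_⟩
    rw [Pool.Agent.TH165.ACC.lead_eq ⟨s, hs, h1⟩ h2]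
    rfl
  have hevs : ∀ (s : Fin n →₀ ℕ) (a : ℂ), eval ξ (monomial s a) = a * ch ξ (ex s) := by
    intro s a
    have := aeval_mon (y := ξ) s a
    rw [MvPolynomial.aeval_eq_eval] at this
    exact this
  have hu : ∀ j l φ, lead w (F j) =
      ∑ s ∈ (F j).support with pr (ex s) w = φ, monomial s ((F j).coeff s) →
      u j l = ∑ s ∈ (F j).support with pr (ex s) w = φ,
        ((F j).coeff s * ch ξ (ex s)) * ((ex s l : ℤ) : ℂ) := by
    intro j l φ h
    simp only [u]
    rw [h]
    have h1 : ξ l = eval ξ (X l) := by rw [eval_X]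
    rw [h1, ← map_mul, map_sum, Finset.mul_sum, map_sum]
    refine Finset.sum_congr rfl fun s _ => ?_
    rw [X_mul_pderiv_monomial, map_nsmul, hevs, nsmul_eq_mul, mul_comm]
    simp [Pool.Agent.TH165.ACC.ex]
  have hlin : LinearIndependent ℂ (Fin.cons (fun l => ((m1 l : ℤ) : ℂ)) u :
      Fin (r + 1) → Fin n → ℂ) := by
    rw [Fintype.linearIndependent_iff]
    intro g hg
    rw [Fin.sum_univ_succ] at hg
    simp only [Fin.cons_zero, Fin.cons_succ] at hg
    have hw1 : ∑ l, ((m1 l : ℤ) : ℂ) * ((w l : ℤ) : ℂ) = 1 := by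
      have : ((pr m1 w : ℤ) : ℂ) = 1 := by rw [hm1]; norm_num
      rw [pr] at this
      push_cast at this
      exact this
    have hw2 : ∀ j, ∑ l, u j l * ((w l : ℤ) : ℂ) = 0 := by
      intro j
      obtain ⟨φ, t0, ht0, h1, h2, h3⟩ := hleads j
      have h4 : ∀ l, u j l * ((w l : ℤ) : ℂ) = ∑ s ∈ (F j).support with pr (ex s) w = φ,
          ((F j).coeff s * ch ξ (ex s)) * (((ex s l * w l : ℤ)) : ℂ) := by
        intro l
        rw [hu j l φ h3, Finset.sum_mul]
        refine Finset.sum_congr rfl fun s _ => ?_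
        push_cast
        ring
      simp only [h4]
      rw [Finset.sum_comm]
      have h5 : ∀ s ∈ (F j).support.filter (fun s => pr (ex s) w = φ),
          ∑ l, ((F j).coeff s * ch ξ (ex s)) * (((ex s l * w l : ℤ)) : ℂ) =
          ((F j).coeff s * ch ξ (ex s)) * (φ : ℂ) := by
        intro s hs
        rw [Finset.mem_filter] at hs
        rw [← Finset.mul_sum, ← hs.2, pr]
        push_cast
        rfl
      rw [Finset.sum_congr rfl h5, ← Finset.sum_mul]
      have h6 := hFξ j
      rw [h3, map_sum] at h6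
      simp only [hevs] at h6
      rw [h6, zero_mul]
    have hg0 : g 0 = 0 := by
      have h1 := congrArg (fun f : Fin n → ℂ => ∑ l, f l * ((w l : ℤ) : ℂ)) hg
      simp only [Pi.add_apply, Pi.smul_apply, smul_eq_mul, Finset.sum_apply, Pi.zero_apply,
        zero_mul, Finset.sum_const_zero, add_mul, Finset.sum_add_distrib] at h1
      have h2 : ∑ l, g 0 * ((m1 l : ℤ) : ℂ) * ((w l : ℤ) : ℂ) = g 0 := by
        simp only [mul_assoc]
        rw [← Finset.mul_sum, hw1, mul_one]
      have h3 : ∑ l, (∑ j : Fin r, g j.succ * u j l) * ((w l : ℤ) : ℂ) = 0 := by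
        simp only [Finset.sum_mul]
        rw [Finset.sum_comm]
        refine Finset.sum_eq_zero fun j _ => ?_
        simp only [mul_assoc]
        rw [← Finset.mul_sum, hw2, mul_zero]
      rw [h2, h3, add_zero] at h1
      exact h1
    rw [hg0, zero_smul, zero_add] at hg
    have h7 : ∀ j : Fin r, g j.succ = 0 := by
      refine Fintype.linearIndependent_iff.1 hInd (fun j => g j.succ) ?_
      funext l
      have h8 := congrFun hg l
      simp only [Finset.sum_apply, Pi.smul_apply, smul_eq_mul, Pi.zero_apply, u] at h8 ⊢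
      have h9 : ξ l * ∑ j : Fin r, g j.succ * eval ξ (pderiv l (lead w (F j))) = 0 := by
        rw [Finset.mul_sum]
        rw [← h8]
        exact Finset.sum_congr rfl fun j _ => by ring
      exact (mul_eq_zero.1 h9).resolve_left (hξ l)
    intro i
    refine Fin.cases hg0 h7 i
  have hker : ∀ i, ∑ l, (Fin.cons (fun l => ((m1 l : ℤ) : ℂ)) u : Fin (r + 1) → Fin n → ℂ) i l •
      Ideal.Quotient.mk J (e l) = 0 := by
    intro i
    refine Fin.cases ?_ (fun j => ?_) i
    · simp only [Fin.cons_zero]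
      rw [← hθs m1]
      change Ideal.Quotient.mk J (E (m1 - pr m1 w • m1)) = 0
      rw [hm1, one_smul, sub_self, hE0, map_zero]
    · simp only [Fin.cons_succ]
      obtain ⟨φ, t0, ht0, h1, h2, h3⟩ := hleads j
      have h4 : ∑ s ∈ (F j).support, (F j).coeff s • cx y w (ex s - ex t0) = 0 := by
        apply Subtype.ext
        have h5 : ∑ s ∈ (F j).support, algebraMap ℂ L ((F j).coeff s) * ch y (ex s - ex t0) = 0 := by
          have h6 := hFy j
          rw [aeval_eq_sum] at h6
          have h7 := congrArg (fun z => z * (ch y (ex t0))⁻¹) h6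
          simp only [Finset.sum_mul, zero_mul] at h7
          rw [← h7]
          refine Finset.sum_congr rfl fun s _ => ?_
          rw [ch_sub hy, mul_assoc]
        rw [AddSubmonoidClass.coe_finsetSum]
        rw [ZeroMemClass.coe_zero, ← h5]
        refine Finset.sum_congr rfl fun s hs => ?_
        have h8 : 0 ≤ pr (ex s - ex t0) w := by
          rw [pr_sub, h1]
          have := h2 s hs
          omega
        change (F j).coeff s • ((cx y w (ex s - ex t0) : AA y (Hs w)) : L) = _
        rw [cx_coe h8, Algebra.smul_def]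
      have h9 := congrArg (Ideal.Quotient.mk J) h4
      rw [map_sum, map_zero, ← Finset.sum_filter_add_sum_filter_not _ (fun s => pr (ex s) w = φ)]
        at h9
      have h10 : ∑ s ∈ (F j).support with ¬pr (ex s) w = φ,
          Ideal.Quotient.mk J ((F j).coeff s • cx y w (ex s - ex t0)) = 0 := by
        refine Finset.sum_eq_zero fun s hs => ?_
        rw [Finset.mem_filter] at hs
        have h11 := h2 s hs.1
        rw [hmks, Ideal.Quotient.eq_zero_iff_mem.2 (hpos _ ?_), smul_zero]
        rw [pr_sub, h1]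
        have := hs.2
        omega
      rw [h10, add_zero] at h9
      have h12 : ∀ s ∈ (F j).support.filter (fun s => pr (ex s) w = φ),
          Ideal.Quotient.mk J ((F j).coeff s • cx y w (ex s - ex t0)) =
          (ch ξ (ex t0))⁻¹ • (((F j).coeff s * ch ξ (ex s)) • (1 - θ (ex t0)) +
            ((F j).coeff s * ch ξ (ex s)) • θ (ex s)) := by
        intro s hs
        rw [Finset.mem_filter] at hs
        rw [hmks, hcx _ (by rw [pr_sub, hs.2, h1, sub_self]), ch_sub hξ, map_sub, ← smul_add,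
          smul_smul, smul_smul]
        congr 1
        · ring
        · abel
      rw [Finset.sum_congr rfl h12, ← Finset.smul_sum, Finset.sum_add_distrib, ← Finset.sum_smul]
        at h9
      have h6 := hFξ j
      rw [h3, map_sum] at h6
      simp only [hevs] at h6
      rw [h6, zero_smul, zero_add, smul_eq_zero] at h9
      have h13 := h9.resolve_left (inv_ne_zero (ch_ne hξ _))
      rw [← h13]
      simp only [hθs, hu j _ φ h3, Finset.sum_smul, Finset.smul_sum, smul_smul]
      rw [Finset.sum_comm]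
  obtain ⟨k, x, hk, hx, hxg⟩ := exists_gens ev J e he _ hlin hker hgen
  refine ⟨k, x, hk, hx, ?_⟩
  intro a ha
  have h1 := hxg a (RingHom.mem_ker.1 ha)
  rw [hJ] at h1
  have h2 : Ideal.span {π} ⊔ M ^ 2 ⊔ Ideal.span (Set.range x) =
      Ideal.span {π} ⊔ Ideal.span (Set.range x) ⊔ M ^ 2 := by
    rw [sup_assoc, sup_comm (M ^ 2), ← sup_assoc]
  rw [← h2]
  exact h1

end Pool.Agent.Helper43K9.CI
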