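import Mathlib
import Pool.Agent.Helper43K9.NH.Asm

/-!
# Nondegenerate complete intersections in affine toric varieties: definitions
-/

set_option autoImplicit false

namespace Pool.Agent.Helper43K9.CI

open Pool.Agent.H436R3.Fol Pool.Agent.H436R3.KT Pool.Agent.W497.Mld MvPolynomial
open Pool.Agent.TH165.ACC (pr ex Prim Cn Hs lead part mldsR)
open Pool.Agent.Helper43K9.NH (ch AA wt Inn expo phi dot)

variable {n d r : ℕ} {L : Type} [Field L] [Algebra ℂ L]

/-- The toric log discrepancy `ψ · w - ∑ φ_j (w)`, where `φ_j (w)` is the least weight of an element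
of `S_j`. -/
noncomputable def la (ψ : Fin n → ℝ) (S : Fin r → Finset (Fin n → ℤ)) (w : Fin n → ℤ) : ℝ :=
  dot ψ w - ∑ j, (phi (S j) w : ℝ)

/-- The square matrix whose first `d` columns are the ones of `M` and whose last `r` columns are the
logarithmic gradients `(y_l ∂F_j/∂y_l)_l` of the `F_j` at `y`. -/
noncomputable def GM (y : Fin (d + r) → L) (F : Fin r → MvPolynomial (Fin (d + r)) ℂ)
    (M : Matrix (Fin (d + r)) (Fin d) L) : Matrix (Fin (d + r)) (Fin (d + r)) L :=
  Matrix.of fun l i => Fin.addCases (fun i => M l i)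
    (fun j => aeval y (MvPolynomial.X l * pderiv l (F j))) i

/-- A nondegenerate complete intersection `X` of dimension `d` and codimension `r` in the affine toric
variety `Y` of dimension `d + r` of the strictly convex cone of dimension `d + r` whose edges are
spanned by the primitive vectors `E 1, ..., E N`, through the fixed point `P` of `Y`. The field `L` is
the function field of `X`, `y` are the restrictions to `X` of the coordinates of the torus and
`F 1, ..., F r` are the equations of `X` in the torus: they generate the ideal of `X` in the ring of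
the Laurent polynomials. The canonical divisor of `X` is the one of the residue `ω` of
`dy_1 / y_1 ∧ ... ∧ dy_(d + r) / y_(d + r) / (F_1 ... F_r)`, that is, for all functions `M_li` we have
`∧_i (∑_l M_li dy_l / y_l) = det (M, θ F_1, ..., θ F_r) ω`, where `θ F_j` is the column of the
logarithmic derivatives `y_l ∂F_j/∂y_l`. -/
structure CIGerm (r d : ℕ) (L : Type) [Field L] [Algebra ℂ L] where
  N : ℕ
  /-- the primitive generators of the edges of the cone -/
  E : Fin N → Fin (d + r) → ℤ
  prim : ∀ i, Prim (E i)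
  /-- `E i` spans an edge: a face of the cone of dimension one -/
  edge : ∀ i, ∃ Q : Fin (d + r) → ℤ, pr Q (E i) = 0 ∧ ∀ j, j ≠ i → 0 < pr Q (E j)
  /-- the cone is strictly convex -/
  pointed : ∃ Q : Fin (d + r) → ℤ, ∀ j, 0 < pr Q (E j)
  /-- the cone has dimension `d + r` -/
  full : ∀ m : Fin (d + r) → ℤ, (∀ i, pr m (E i) = 0) → m = 0
  /-- the coordinates of the torus, restricted to `X` -/
  y : Fin (d + r) → L
  yne : ∀ i, y i ≠ 0
  /-- the equations of `X` -/
  F : Fin r → MvPolynomial (Fin (d + r)) ℂ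
  Fne : ∀ j, F j ≠ 0
  ker : ∀ p : MvPolynomial (Fin (d + r)) ℂ, aeval y p = 0 ↔
    ∃ s : Fin (d + r) →₀ ℕ, monomial s (1 : ℂ) * p ∈ Ideal.span (Set.range F)
  X : AffVar L
  /-- `X` is a closed subvariety of `Y` -/
  hR : X.R = AA y (Cn E)
  e : Fin X.d ≃ Fin d
  /-- the canonical divisor is the one of the residue form -/
  res : ∀ M : Matrix (Fin (d + r)) (Fin d) L,
    ((Matrix.of fun (j : Fin d) (l : Fin (d + r)) => X.T.D (e.symm j) (y l) / y l) * M).det =
      (GM y F M).det
  P : Pt X
  /-- `P` is the fixed point -/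
  hP : ∀ f : X.R, ∀ m ∈ Cn E, m ≠ 0 → (f : L) = ch y m → P f = 0
  /-- for all weights in the interior of the cone the zero set in the torus of the initial forms of
  the `F_j` is a smooth complete intersection of codimension `r` (or empty) -/
  nondeg : ∀ w, Inn E w → ∀ ξ : Fin (d + r) → ℂ, (∀ i, ξ i ≠ 0) →
    (∀ j, eval ξ (lead w (F j)) = 0) →
      LinearIndependent ℂ fun (j : Fin r) (i : Fin (d + r)) => eval ξ (pderiv i (lead w (F j)))

/-- the exponents of the monomials of the equations -/
noncomputable def CIGerm.S (g : CIGerm r d L) : Fin r → Finset (Fin (d + r) → ℤ) :=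
  fun j => expo (g.F j)

/-- A toric boundary `∑ β_i D_i` on `Y` such that `K_Y + X_1 + ... + X_r + ∑ β_i D_i` is
`ℝ`-Cartier at `P`, with the local equation `y^(-ψ)`; here `X_j` is the closure of the zero set of
`F_j` in the torus. (With the form `dy_1 / y_1 ∧ ... ∧ dy_(d + r) / y_(d + r) / (F_1 ... F_r)` this
divisor is `∑ (β_i - 1 - ∑_j φ_j (E_i)) D_i`, where `φ_j (E_i)` is the order of `F_j` along `D_i`.) -/
structure Bd (g : CIGerm r d L) where
  β : Fin g.N → ℝ
  nonneg : ∀ i, 0 ≤ β i
  ψ : Fin (d + r) → ℝ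
  eq : ∀ i, dot ψ (g.E i) = 1 - β i + ∑ j, (phi (g.S j) (g.E i) : ℝ)

variable {g : CIGerm r d L}

/-- `K_X + B` is the restriction to `X` of `K_Y + X_1 + ... + X_r + ∑ β_i D_i`. -/
def IsRestr (b : Bd g) {B : EffDiv g.X} (e : LocEq B g.P) : Prop :=
  ∀ v : DVal L, ∑ k, e.ρ k * (v.ord (e.g k) : ℝ) = -dot b.ψ (wt g.y v)

/-- The pair `(Y, X_1 + ... + X_r + ∑ β_i D_i)` is log canonical for the toric valuations with
centre `P`: their log discrepancies `ψ · w - ∑ φ_j (w)` are not negative. -/
def LcType (b : Bd g) : Prop := ∀ w, Inn g.E w → 0 ≤ la b.ψ g.S w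

/-- `X` is of klt type, in the embedded sense: for some toric boundary `∑ β_i D_i` the log
discrepancies of the pair `(Y, X_1 + ... + X_r + ∑ β_i D_i)` at the toric valuations with centre `P`
are bounded from below by a positive multiple of the order of a monomial which vanishes on the
boundary of `Y`. -/
def KltType (g : CIGerm r d L) : Prop :=
  ∃ (b : Bd g) (ε : ℝ) (Q : Fin (d + r) → ℤ), 0 < ε ∧ (∀ i, 0 < pr Q (g.E i)) ∧
    ∀ w, Inn g.E w → ε * (pr Q w : ℝ) ≤ la b.ψ g.S w

/-- the elements of least weight -/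
noncomputable def ini (S : Finset (Fin n → ℤ)) (w : Fin n → ℤ) : Finset (Fin n → ℤ) :=
  S.filter fun m => pr m w = phi S w

/-- the span of the differences of the elements of least weight of the `S_j`, `j ∈ J` -/
noncomputable def VJ (S : Fin r → Finset (Fin n → ℤ)) (w : Fin n → ℤ) (J : Finset (Fin r)) :
    Submodule ℚ (Fin n → ℚ) :=
  Submodule.span ℚ {v | ∃ j ∈ J, ∃ m ∈ ini (S j) w, ∃ m' ∈ ini (S j) w,
    v = fun i => ((m i - m' i : ℤ) : ℚ)}

/-- Bernstein's condition at the weight `w` -/
def Bern (S : Fin r → Finset (Fin n → ℤ)) (w : Fin n → ℤ) : Prop :=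
  ∀ J : Finset (Fin r), J.card ≤ Module.finrank ℚ (VJ S w J)

end Pool.Agent.Helper43K9.CI
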