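import Pool.Agent.Helper43K9.CI.Stm
import Pool.Agent.Helper43K9.CI.Top
import Pool.Agent.Helper43K9.NH.Pnt
import Pool.Agent.Helper43K9.NH.Exi

/-!
# [DIV] Divisors with given weights
-/

set_option autoImplicit false
set_option linter.unusedSectionVars false
set_option linter.unusedVariables false

namespace Pool.Agent.Helper43K9.CI

open Pool.Agent.H436R3.Fol Pool.Agent.H436R3.KT Pool.Agent.W497.Mld MvPolynomial
open Pool.Agent.TH165.ACC (pr ex Prim Cn Hs lead part mldsR pr_add pr_zero pr_neg pr_sub pr_smul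
  pr_smul_right ex_add ex_inj exists_nat_ex coeff_euler support_euler)
open Pool.Agent.Helper43K9.NH

variable {n d r : ℕ} {L : Type} [Field L] [Algebra ℂ L]

theorem frac_poly (g : CIGerm r d L) (f : L) : ∃ a b : MvPolynomial (Fin (d + r)) ℂ,
    aeval g.y b ≠ 0 ∧ f * aeval g.y b = aeval g.y a := by
  obtain ⟨a, b, ha, hb, hb0, hab⟩ := g.X.frac f
  rw [g.hR] at ha hb
  obtain ⟨p, s, h1⟩ := frac_AA g.yne ha
  obtain ⟨q, t, h2⟩ := frac_AA g.yne hb
  refine ⟨p * monomial t 1, q * monomial s 1, ?_, ?_⟩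
  · rw [map_mul, ← h2, ← ch_ex]
    exact mul_ne_zero (mul_ne_zero hb0 (ch_ne g.yne _)) (ch_ne g.yne _)
  · rw [map_mul, map_mul, ← h1, ← h2, ← ch_ex, ← ch_ex, ← hab]
    ring

/-- the weights of a divisor over the germ lie in the interior of the cone -/
theorem inn_of_over {g : CIGerm r d L} {v : DVal L} (h : IsOverGerm g.P v) :
    Inn g.E (wt g.y v) := by
  intro m hm hm0
  have hmem : ch g.y m ∈ g.X.R := by
    rw [g.hR]
    exact ch_mem_AA hm
  have h1 := (h.2 ⟨ch g.y m, hmem⟩).2 (g.hP _ m hm hm0 rfl)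
  rcases h1 with h1 | h1
  · exact absurd h1 (ch_ne g.yne _)
  · rw [← ord_ch g.yne]
    exact h1

theorem R_le' {g : CIGerm r d L} {w : Fin (d + r) → ℤ} (h : Inn g.E w) :
    g.X.R ≤ AA g.y (Hs w) := by
  rw [g.hR]
  refine AA_mono fun m hm => ?_
  change 0 ≤ pr m w
  by_cases h0 : m = 0
  · rw [h0, pr_zero]
  · exact (h m hm h0).le

theorem pos_sub {g : CIGerm r d L} {v : DVal L} (h : Inn g.E (wt g.y v)) :
    ∀ x : L, x ∈ AA g.y (Cn g.E) → ∀ hx : x ∈ g.X.R,
      v.Pos (x - algebraMap ℂ L (g.P ⟨x, hx⟩)) := by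
  have hR : ∀ x ∈ AA g.y (Cn g.E), x ∈ g.X.R := fun x hx => by rw [g.hR]; exact hx
  have hreg : ∀ x ∈ g.X.R, v.Reg x := by
    intro x hx
    exact reg_AA g.yne (fun m hm => hm) (R_le' h hx)
  intro x hx
  induction hx using Algebra.adjoin_induction with
  | mem x hx =>
    intro hx'
    obtain ⟨m, hm, rfl⟩ := hx
    by_cases h0 : m = 0
    · subst h0
      have h1 : (⟨ch g.y 0, hx'⟩ : g.X.R) = 1 := Subtype.ext ch_zero
      rw [h1, map_one, ch_zero, map_one, sub_self]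
      exact Or.inl rfl
    · rw [g.hP ⟨ch g.y m, hx'⟩ m hm h0 rfl, map_zero, sub_zero]
      right
      rw [ord_ch g.yne]
      exact h m hm h0
  | algebraMap r =>
    intro hx'
    have h1 : (⟨algebraMap ℂ L r, hx'⟩ : g.X.R) = algebraMap ℂ g.X.R r := Subtype.ext rfl
    rw [h1, AlgHom.commutes]
    left
    exact sub_self _
  | add x z hx hz ihx ihz =>
    intro hxz
    have h1 := ihx (hR x hx)
    have h2 := ihz (hR z hz)
    have h3 : (⟨x + z, hxz⟩ : g.X.R) = ⟨x, hR x hx⟩ + ⟨z, hR z hz⟩ := Subtype.ext rfl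
    rw [h3, map_add, map_add]
    have h4 := v.pos_add h1 h2
    convert h4 using 1
    ring
  | mul x z hx hz ihx ihz =>
    intro hxz
    have h1 := ihx (hR x hx)
    have h2 := ihz (hR z hz)
    have h3 : (⟨x * z, hxz⟩ : g.X.R) = ⟨x, hR x hx⟩ * ⟨z, hR z hz⟩ := Subtype.ext rfl
    rw [h3, map_mul, map_mul]
    have h4 := v.pos_add (v.pos_mul_left (hreg z (hR z hz)) h1)
      (v.pos_mul_left (v.reg_const (g.P ⟨x, hR x hx⟩)) h2)
    convert h4 using 1
    ring

theorem over_of_local {g : CIGerm r d L} {v : DVal L} (h : Inn g.E (wt g.y v))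
    (hw : Prim (wt g.y v)) (hv : IsLocalRing' (AA g.y (Hs (wt g.y v))) v) :
    IsOverGerm g.P v := by
  refine ⟨⟨_, fg_Hs' g.yne hw, R_le' h, hv⟩, fun f => ?_⟩
  have hmem : ∀ x, x ∈ g.X.R → x ∈ AA g.y (Cn g.E) := fun x hx => by rw [← g.hR]; exact hx
  have h1 := pos_sub h (f : L) (hmem _ f.2) f.2
  have h2 : (⟨(f : L), f.2⟩ : g.X.R) = f := rfl
  rw [h2] at h1
  constructor
  · intro hp
    by_contra h0
    have h3 : v.Pos (algebraMap ℂ L (g.P f)) := by
      have h4 := v.pos_add hp (v.pos_mul_left (v.reg_neg v.reg_one) h1)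
      convert h4 using 1
      ring
    rcases h3 with h3 | h3
    · exact h0 ((map_eq_zero_iff _ (algebraMap ℂ L).injective).1 h3)
    · rw [v.const _ h0] at h3
      exact lt_irrefl _ h3
  · intro h0
    rw [h0, map_zero, sub_zero] at h1
    exact h1

theorem div (lim : S_LIM) (evh : S_EVH) (cot : S_COT) (trd : S_TRD) (prm : S_PRM) : S_DIV := by
  intro r d L _ _ g w ξ hi hw hξ hz
  classical
  have hy := g.yne
  have hind : Ind (fun j => lead w (g.F j)) ξ := g.nondeg w hi ξ hξ hz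
  obtain ⟨-, hlim⟩ := lim (d + r) r g.F g.Fne w ξ hξ hz hind
  have hvan : ∀ p : MvPolynomial (Fin (d + r)) ℂ, aeval g.y p = 0 → eval ξ (lead w p) = 0 := by
    intro p hp
    refine hlim p fun x hx hx0 => ?_
    obtain ⟨s, hs⟩ := (g.ker p).1 hp
    have h1 : eval x (monomial s (1 : ℂ) * p) = 0 := by
      have h2 : Ideal.span (Set.range g.F) ≤ RingHom.ker (eval x) := by
        rw [Ideal.span_le]
        rintro _ ⟨j, rfl⟩
        exact hx0 j
      exact h2 hs
    rw [map_mul] at h1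
    refine (mul_eq_zero.1 h1).resolve_left ?_
    rw [eval_monomial, one_mul]
    exact Finsupp.prod_ne_zero_iff.2 fun i _ => pow_ne_zero _ (hx i)
  obtain ⟨ev, hev⟩ := evh L (d + r) g.y hy w ξ hξ hvan
  obtain ⟨m1, hm1⟩ := id hw
  have hm1A : ch g.y m1 ∈ AA g.y (Hs w) := ch_mem_AA (by change 0 ≤ pr _ _; rw [hm1]; norm_num)
  let π : AA g.y (Hs w) := ⟨ch g.y m1, hm1A⟩
  obtain ⟨k, x, hk, hx, hM⟩ := cot L (d + r) r g.y hy w ξ hξ g.F g.Fne (TopL.aeval_F g) hz hind ev hev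
    m1 hm1 π rfl
  have hmulA : ∀ (p : MvPolynomial (Fin (d + r)) ℂ) (m : Fin (d + r) → ℤ),
      (∀ s ∈ p.support, 0 ≤ pr (ex s) w + pr m w) → aeval g.y p * ch g.y m ∈ AA g.y (Hs w) := by
    intro p m h
    refine aeval_mul_mem_AA hy fun s hs => ?_
    change 0 ≤ pr _ _
    rw [pr_add]
    exact h s hs
  have hfracA : ∀ f : L, ∃ a b : L, a ∈ AA g.y (Hs w) ∧ b ∈ AA g.y (Hs w) ∧ b ≠ 0 ∧ f * b = a := by
    intro f
    obtain ⟨a, b, hb, hab⟩ := frac_poly g f
    obtain ⟨k, hk⟩ : ∃ k : ℤ, ∀ s ∈ a.support ∪ b.support, -pr (ex s) w ≤ k := by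
      obtain ⟨k, hk⟩ := ((a.support ∪ b.support).image fun s => -pr (ex s) w).exists_le
      exact ⟨k, fun s hs => hk _ (Finset.mem_image_of_mem _ hs)⟩
    refine ⟨aeval g.y a * ch g.y (k • m1), aeval g.y b * ch g.y (k • m1), ?_, ?_, ?_, ?_⟩
    · refine hmulA _ _ fun s hs => ?_
      have := hk s (Finset.mem_union_left _ hs)
      rw [pr_smul, hm1]
      omega
    · refine hmulA _ _ fun s hs => ?_
      have := hk s (Finset.mem_union_right _ hs)
      rw [pr_smul, hm1]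
      omega
    · exact mul_ne_zero hb (ch_ne hy _)
    · rw [← mul_assoc, hab]
  have hfg := fg_Hs' hy hw
  obtain ⟨t, ht, htr⟩ := trd L g.X (AA g.y (Hs w)) hfg hfracA
  have hXd : g.X.d = d := by
    have := Fintype.card_congr g.e
    simpa using this
  have hft : Algebra.FiniteType ℂ (AA g.y (Hs w)) := (Subalgebra.fg_iff_finiteType _).1 hfg
  have hmax : (RingHom.ker ev).IsMaximal :=
    RingHom.ker_isMaximal_of_surjective ev fun c => ⟨algebraMap ℂ _ c, by simp⟩
  have hπM : π ∈ RingHom.ker ev := by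
    rw [RingHom.mem_ker, hev m1 π (by rw [hm1]; norm_num) rfl, hm1, if_neg one_ne_zero]
  obtain ⟨P, hP, hπP, hloc⟩ := prm (AA g.y (Hs w)) (RingHom.ker ev) hmax π t k x htr (by omega) hπM
    (fun i => by rw [RingHom.mem_ker]; exact hx i) hM
  have hπ0 : π ≠ 0 := fun h => ch_ne hy m1 (congrArg Subtype.val h)
  obtain ⟨v, hv, -, hv1⟩ := exists_dval_unif hfg hfracA P hP π hπ0 hπP hloc
  refine ⟨v, hv, ?_⟩
  funext i
  change v.ord (g.y i) = w i
  set e : Fin (d + r) → ℤ := Pi.single i 1 with he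
  have hei : ch g.y e = g.y i := by
    rw [ch, Finset.prod_eq_single i]
    · rw [he, Pi.single_eq_same, zpow_one]
    · intro j _ hj
      rw [he, Pi.single_eq_of_ne hj, zpow_zero]
    · intro h; exact absurd (Finset.mem_univ i) h
  have hpe : pr e w = w i := by
    rw [pr, Finset.sum_eq_single i]
    · rw [he, Pi.single_eq_same, one_mul]
    · intro j _ hj
      rw [he, Pi.single_eq_of_ne hj, zero_mul]
    · intro h; exact absurd (Finset.mem_univ i) h
  have hm0 : pr (e - w i • m1) w = 0 := by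
    rw [pr_sub, pr_smul, hm1, hpe, mul_one, sub_self]
  have h1 : v.Reg (ch g.y (e - w i • m1)) := hv.1 _ (ch_mem_AA (by change 0 ≤ pr _ _; rw [hm0]))
  have h2 : v.Reg (ch g.y (-(e - w i • m1))) :=
    hv.1 _ (ch_mem_AA (by change 0 ≤ pr _ _; rw [pr_neg, hm0, neg_zero]))
  have h3 := v.ord_nonneg (ch_ne hy _) h1
  have h4 := v.ord_nonneg (ch_ne hy _) h2
  have h5 : v.ord (ch g.y (-(e - w i • m1))) = -v.ord (ch g.y (e - w i • m1)) := by
    rw [ch_neg, v.ord_inv (ch_ne hy _)]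
  have h6 : v.ord (ch g.y (e - w i • m1)) = v.ord (g.y i) - w i := by
    rw [ch_sub hy, hei, ch_smul hy, v.map_mul _ _ (hy i) (inv_ne_zero (zpow_ne_zero _ (ch_ne hy _))),
      v.ord_inv (zpow_ne_zero _ (ch_ne hy _)), v.ord_zpow (ch_ne hy _)]
    have : v.ord (ch g.y m1) = 1 := hv1
    rw [this]
    ring
  omega

end Pool.Agent.Helper43K9.CI
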