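import Pool.Agent.Helper43K9.CI.Stm

/-!
# [EVH] The evaluation at a point of the boundary divisor of a weight
-/

set_option autoImplicit false

namespace Pool.Agent.Helper43K9.CI.EvhL

open Pool.Agent.H436R3.Fol Pool.Agent.H436R3.KT Pool.Agent.W497.Mld MvPolynomial
open Pool.Agent.TH165.ACC (pr ex Prim Cn Hs lead part mldsR ex_add pr_add pr_sub)
open Pool.Agent.Helper43K9.NH (ch AA wt Inn expo phi dot part_mul)
open Pool.Agent.Helper43K9.NH.Exi Pool.Agent.Helper43K9.NH.Hom

variable {n : ℕ} {L : Type} [Field L] [Algebra ℂ L] {y : Fin n → L} {w : Fin n → ℤ}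
  {ξ : Fin n → ℂ}

lemma ev_mon (t : Fin n →₀ ℕ) : eval ξ (monomial t (1 : ℂ)) = ch ξ (ex t) := by
  rw [Pool.Agent.Helper43K9.NH.ch_ex, ← coe_aeval_eq_eval]
  rfl

lemma ev_mon_ne (hξ : ∀ i, ξ i ≠ 0) (t : Fin n →₀ ℕ) : eval ξ (monomial t (1 : ℂ)) ≠ 0 := by
  rw [ev_mon]
  exact Pool.Agent.Helper43K9.NH.ch_ne hξ _

lemma ev_part (hlead : ∀ p : MvPolynomial (Fin n) ℂ, aeval y p = 0 → eval ξ (lead w p) = 0)
    {p : MvPolynomial (Fin n) ℂ} (hp : aeval y p = 0) {k : ℤ}
    (hk : ∀ s ∈ p.support, k ≤ pr (ex s) w) : eval ξ (part w k p) = 0 := by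
  by_cases h : ∃ s ∈ p.support, k = pr (ex s) w
  · rw [← Pool.Agent.TH165.ACC.lead_eq h hk]
    exact hlead p hp
  · have : part w k p = 0 := by
      ext s
      rw [Pool.Agent.TH165.ACC.coeff_part, coeff_zero]
      by_cases h1 : pr (ex s) w = k
      · rw [if_pos h1]
        by_contra h2
        exact h ⟨s, mem_support_iff.2 h2, h1.symm⟩
      · rw [if_neg h1]
    rw [this, map_zero]

lemma wd (hξ : ∀ i, ξ i ≠ 0)
    (hlead : ∀ p : MvPolynomial (Fin n) ℂ, aeval y p = 0 → eval ξ (lead w p) = 0)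
    {a : L} {q q' : MvPolynomial (Fin n) ℂ} {t t' : Fin n →₀ ℕ}
    (h : Rep y w a q t) (h' : Rep y w a q' t') :
    eval ξ (rp w q t) / eval ξ (monomial t (1 : ℂ)) =
      eval ξ (rp w q' t') / eval ξ (monomial t' (1 : ℂ)) := by
  have h1 : aeval y (q * monomial t' 1 - q' * monomial t 1) = 0 := by
    rw [map_sub, map_mul, map_mul, aeval_mon1, aeval_mon1, ← h.1, ← h'.1]
    ring
  have h2 : ∀ s ∈ (q * monomial t' 1 - q' * monomial t 1).support,
      pr (ex t) w + pr (ex t') w ≤ pr (ex s) w := by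
    intro s hs
    rw [sub_eq_add_neg] at hs
    refine mem_add (fun s hs => mem_mul h.2 (supp_mon t') hs) (fun s hs => ?_) hs
    refine mem_neg (fun s hs => ?_) hs
    rw [add_comm]
    exact mem_mul h'.2 (supp_mon t) hs
  have h3 := ev_part hlead h1 h2
  rw [part_sub, part_mul h.2 (supp_mon t'), add_comm (pr (ex t) w),
    part_mul h'.2 (supp_mon t)] at h3
  have e1 := rp_mon w t'
  have e2 := rp_mon w t
  rw [rp] at e1 e2
  rw [e1, e2, map_sub, map_mul, map_mul] at h3
  rw [div_eq_div_iff (ev_mon_ne hξ t) (ev_mon_ne hξ t'), rp, rp]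
  exact sub_eq_zero.1 h3

end Pool.Agent.Helper43K9.CI.EvhL

namespace Pool.Agent.Helper43K9.CI

open Pool.Agent.H436R3.Fol Pool.Agent.H436R3.KT Pool.Agent.W497.Mld MvPolynomial
open Pool.Agent.TH165.ACC (pr ex Prim Cn Hs lead part mldsR ex_add pr_add pr_sub exists_nat_ex)
open Pool.Agent.Helper43K9.NH (ch AA wt Inn expo phi dot part_mul)
open Pool.Agent.Helper43K9.NH.Exi Pool.Agent.Helper43K9.NH.Hom EvhL

theorem evh : S_EVH := by
  classical
  intro L _ _ n y hy w ξ hξ hlead
  choose q t hqt using fun a : AA y (Hs w) => exists_rep hy a.2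
  have hev : ∀ (a : AA y (Hs w)) (q' : MvPolynomial (Fin n) ℂ) (t' : Fin n →₀ ℕ),
      Rep y w (a : L) q' t' → eval ξ (rp w (q a) (t a)) / eval ξ (monomial (t a) (1 : ℂ)) =
        eval ξ (rp w q' t') / eval ξ (monomial t' (1 : ℂ)) :=
    fun a q' t' h => wd hξ hlead (hqt a) h
  have hconst : ∀ c : ℂ, eval ξ (rp w (C c) 0) / eval ξ (monomial (0 : Fin n →₀ ℕ) (1 : ℂ)) = c := by
    intro c
    have h1 : rp w (C c : MvPolynomial (Fin n) ℂ) 0 = C c := by
      ext s
      rw [rp, Pool.Agent.TH165.ACC.coeff_part, coeff_C]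
      by_cases h : 0 = s
      · rw [← h]
        simp
      · rw [if_neg h, ite_self]
    rw [h1, eval_C]
    have h2 : (monomial (0 : Fin n →₀ ℕ) (1 : ℂ)) = 1 := rfl
    rw [h2, map_one, div_one]
  have hmm : ∀ a b : Fin n →₀ ℕ, eval ξ (monomial (a + b) (1 : ℂ)) =
      eval ξ (monomial a (1 : ℂ)) * eval ξ (monomial b (1 : ℂ)) := by
    intro a b
    rw [← map_mul, monomial_mul, one_mul]
  let ev : AA y (Hs w) →ₐ[ℂ] ℂ :=
    { toFun := fun a => eval ξ (rp w (q a) (t a)) / eval ξ (monomial (t a) (1 : ℂ))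
      map_one' := by
        have h1 : Rep y w ((1 : AA y (Hs w)) : L) (C 1) 0 := by
          have := rep_const (y := y) (w := w) 1
          rwa [map_one] at this
        rw [hev 1 _ _ h1, hconst]
      map_mul' := by
        intro a b
        have h1 := (hqt a).mul hy (hqt b)
        rw [hev (a * b) _ _ h1.1, h1.2, map_mul, hmm, mul_div_mul_comm]
      map_zero' := by
        have h1 : Rep y w ((0 : AA y (Hs w)) : L) (C 0) 0 := by
          have := rep_const (y := y) (w := w) 0
          rwa [map_zero] at this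
        rw [hev 0 _ _ h1, hconst]
      map_add' := by
        intro a b
        have h1 := (hqt a).add hy (hqt b)
        rw [hev (a + b) _ _ h1.1, h1.2, map_add, map_mul, map_mul, hmm]
        have e1 := ev_mon_ne hξ (t a)
        have e2 := ev_mon_ne hξ (t b)
        field_simp
      commutes' := by
        intro c
        have h1 : Rep y w ((algebraMap ℂ (AA y (Hs w)) c : AA y (Hs w)) : L) (C c) 0 :=
          rep_const (y := y) (w := w) c
        rw [hev _ _ _ h1, hconst]
        rfl }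
  refine ⟨ev, fun m a hm ha => ?_⟩
  obtain ⟨s, t', hst⟩ := exists_nat_ex m
  have h1 : Rep y w (a : L) (monomial s 1) t' := by
    rw [ha]
    exact rep_ch hy hm hst
  show eval ξ (rp w (q a) (t a)) / eval ξ (monomial (t a) (1 : ℂ)) = _
  rw [hev a _ _ h1]
  have hpm : pr m w = pr (ex s) w - pr (ex t') w := by rw [hst, pr_sub]
  by_cases h : pr m w = 0
  · rw [if_pos h]
    have h2 : rp w (monomial s (1 : ℂ)) t' = monomial s 1 := by
      rw [rp]
      refine part_eq_self fun r hr => ?_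
      rw [support_monomial, if_neg one_ne_zero, Finset.mem_singleton] at hr
      rw [hr]
      omega
    rw [h2, ev_mon, ev_mon, hst, Pool.Agent.Helper43K9.NH.ch_sub hξ, div_eq_mul_inv]
  · rw [if_neg h]
    have h2 : rp w (monomial s (1 : ℂ)) t' = 0 := by
      ext r
      rw [rp, Pool.Agent.TH165.ACC.coeff_part, coeff_monomial, coeff_zero]
      by_cases h3 : s = r
      · subst h3
        rw [if_neg (by omega)]
      · rw [if_neg h3, ite_self]
    rw [h2, map_zero, zero_div]

end Pool.Agent.Helper43K9.CI
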