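import Pool.Agent.Helper43K9.CI.Red

/-!
# [IDX] A minor of least possible order, and [LOW]
-/

set_option autoImplicit false

namespace Pool.Agent.Helper43K9.CI.IdxL

open Pool.Agent.H436R3.Fol Pool.Agent.H436R3.KT Pool.Agent.W497.Mld MvPolynomial

/-- the completion of the columns `a j` by unit vectors -/
def cm {d r : ℕ} {R : Type} [Zero R] [One R] (κ : Fin d → Fin (d + r))
    (a : Fin r → Fin (d + r) → R) : Matrix (Fin (d + r)) (Fin (d + r)) R :=
  Matrix.of fun l i => Fin.addCases (motive := fun _ => R) (fun i => if l = κ i then 1 else 0)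
    (fun j => a j l) i

lemma cm_left {d r : ℕ} {R : Type} [Zero R] [One R] (κ : Fin d → Fin (d + r))
    (a : Fin r → Fin (d + r) → R) (l : Fin (d + r)) (i : Fin d) :
    cm κ a l (Fin.castAdd r i) = if l = κ i then 1 else 0 := by
  simp [cm]

lemma cm_right {d r : ℕ} {R : Type} [Zero R] [One R] (κ : Fin d → Fin (d + r))
    (a : Fin r → Fin (d + r) → R) (l : Fin (d + r)) (j : Fin r) :
    cm κ a l (Fin.natAdd d j) = a j l := by
  simp [cm]

lemma complete {d r : ℕ} (a : Fin r → Fin (d + r) → ℂ) (ha : LinearIndependent ℂ a) :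
    ∃ κ : Fin d → Fin (d + r), (cm κ a).det ≠ 0 := by
  classical
  obtain ⟨σ, hσ, hdet⟩ := Pool.Agent.TH165.ACC.exists_minor (Matrix.of a) ha
  have hcard : Fintype.card {l // l ∉ Set.range σ} = d := by
    rw [Fintype.card_subtype_compl, Fintype.card_fin]
    have : Fintype.card {l // l ∈ Set.range σ} = r := by
      have := Set.card_range_of_injective hσ
      rw [Fintype.card_fin] at this
      convert! this
    rw [this]
    omega
  let ε : Fin d ≃ {l // l ∉ Set.range σ} := (Fintype.equivFinOfCardEq hcard).symm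
  refine ⟨fun i => (ε i).1, ?_⟩
  have hκ : ∀ k i, σ k ≠ (ε i).1 := fun k i h => (ε i).2 ⟨k, h⟩
  intro h0
  obtain ⟨v, hv, hv0⟩ := Matrix.exists_mulVec_eq_zero_iff.2 h0
  have hrow : ∀ l, (∑ i : Fin d, (if l = (ε i).1 then 1 else 0) * v (Fin.castAdd r i)) +
      ∑ j, a j l * v (Fin.natAdd d j) = 0 := by
    intro l
    have h1 := congrFun hv0 l
    rw [Matrix.mulVec, dotProduct, Fin.sum_univ_add] at h1
    simpa only [cm_left, cm_right, Pi.zero_apply] using h1
  have hb : (fun j => v (Fin.natAdd d j)) = 0 := by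
    by_contra hne
    apply hdet
    rw [← Matrix.exists_mulVec_eq_zero_iff]
    refine ⟨_, hne, funext fun k => ?_⟩
    have h1 := hrow (σ k)
    rw [Finset.sum_eq_zero fun i _ => by rw [if_neg (hκ k i), zero_mul], zero_add] at h1
    rw [Matrix.mulVec, dotProduct]
    simpa using h1
  have hc : ∀ i, v (Fin.castAdd r i) = 0 := by
    intro i
    have h1 := hrow (ε i).1
    have h2 : ∑ j, a j (ε i).1 * v (Fin.natAdd d j) = 0 := Finset.sum_eq_zero fun j _ => by
      have := congrFun hb j
      simp only [Pi.zero_apply] at this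
      rw [this, mul_zero]
    rw [h2, add_zero, Finset.sum_eq_single i] at h1
    · simpa using h1
    · intro b _ hbi
      rw [if_neg, zero_mul]
      intro h
      exact hbi (ε.injective (Subtype.ext h.symm))
    · intro h
      exact absurd (Finset.mem_univ _) h
  apply hv
  funext l
  refine Fin.addCases (fun i => ?_) (fun j => ?_) l
  · exact hc i
  · exact congrFun hb j

end Pool.Agent.Helper43K9.CI.IdxL

namespace Pool.Agent.Helper43K9.CI

open Pool.Agent.H436R3.Fol Pool.Agent.H436R3.KT Pool.Agent.W497.Mld MvPolynomial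
open Pool.Agent.TH165.ACC (pr ex Prim Cn Hs lead part mldsR mvI mem_mvI ord_eq_zero_of_notMem
  lead_eq euler_part support_euler)
open Pool.Agent.Helper43K9.NH (ch AA wt Inn expo phi dot Phi' reg_mul_zpow' phi_expo)
open RedL IdxL

theorem idx : S_IDX := by
  classical
  intro r d L _ _ g v hInn
  obtain ⟨π, hπ, h1⟩ := v.surj
  have hy := g.yne
  obtain ⟨ξ, hξ, hev⟩ := point hy hπ h1
  set u := wt g.y v with hu
  have hm1 := fun j => (phi_expo (g.Fne j) u).1
  have hm2 := fun j => (phi_expo (g.Fne j) u).2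
  obtain ⟨m, hm⟩ : ∃ m : Fin r → ℤ, m = fun j => phi (expo (g.F j)) u := ⟨_, rfl⟩
  have hmj : ∀ j, phi (expo (g.F j)) u = m j := fun j => by rw [hm]
  simp only [hmj] at hm1 hm2
  have hlead : ∀ j, lead u (g.F j) = part u (m j) (g.F j) := fun j => lead_eq (hm1 j) (hm2 j)
  have hF0 : ∀ j, aeval g.y (g.F j) = 0 := by
    intro j
    rw [g.ker]
    refine ⟨0, ?_⟩
    have : (monomial (0 : Fin (d + r) →₀ ℕ) (1 : ℂ)) = 1 := rfl
    rw [this, one_mul]
    exact Ideal.subset_span ⟨j, rfl⟩
  have hJ : ∀ j, lead u (g.F j) ∈ P hy hπ h1 := by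
    intro j
    rw [hlead]
    change v.Pos _
    obtain ⟨h2, h3⟩ := reg_mul_zpow' hy hπ h1 (hm2 j)
    rw [hF0, zero_mul] at h3
    have h5 : (Phi' hy hπ h1 (part u (m j) (g.F j)) : L) =
        (-1) * (0 - (Phi' hy hπ h1 (part u (m j) (g.F j)) : L)) := by ring
    rw [h5]
    exact v.pos_mul_left (v.reg_neg v.reg_one) h3
  have hind := g.nondeg u hInn ξ hξ fun j => hev _ (hJ j)
  have hli : LinearIndependent ℂ fun (j : Fin r) (i : Fin (d + r)) =>
      eval ξ (X i * pderiv i (lead u (g.F j))) := by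
    let D : (Fin (d + r) → ℂ) →ₗ[ℂ] (Fin (d + r) → ℂ) :=
      LinearMap.pi fun i => ξ i • LinearMap.proj i
    have hD : ∀ z i, D z i = ξ i * z i := fun z i => rfl
    have h2 := hind.map' D (by
      rw [LinearMap.ker_eq_bot']
      intro z hz
      funext i
      have h3 := congrFun hz i
      rw [hD] at h3
      exact (mul_eq_zero.1 h3).resolve_left (hξ i))
    have h3 : (fun (j : Fin r) (i : Fin (d + r)) => eval ξ (X i * pderiv i (lead u (g.F j)))) =
        D ∘ fun (j : Fin r) (i : Fin (d + r)) => eval ξ (pderiv i (lead u (g.F j))) := by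
      funext j i
      rw [Function.comp_apply, hD, map_mul, eval_X]
    rw [h3]
    exact h2
  obtain ⟨κ, hκ⟩ := complete _ hli
  obtain ⟨Q, hQe⟩ : ∃ Q : Matrix (Fin (d + r)) (Fin (d + r)) (MvPolynomial (Fin (d + r)) ℂ),
      Q = cm κ fun j l => X l * pderiv l (lead u (g.F j)) := ⟨_, rfl⟩
  have hQ : Q.det ∉ P hy hπ h1 := by
    intro h2
    apply hκ
    rw [← hev _ h2, RingHom.map_det]
    congr 1
    ext l i
    refine Fin.addCases (fun i => ?_) (fun j => ?_) i
    · rw [RingHom.mapMatrix_apply, Matrix.map_apply, hQe, cm_left, cm_left]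
      split_ifs <;> simp
    · rw [RingHom.mapMatrix_apply, Matrix.map_apply, hQe, cm_right, cm_right]
  have hreg : ∀ (l : Fin (d + r)) (j : Fin r),
      v.Reg (aeval g.y (X l * pderiv l (g.F j)) * π ^ (-m j)) ∧
      v.Pos (aeval g.y (X l * pderiv l (g.F j)) * π ^ (-m j) -
        (Phi' hy hπ h1 (X l * pderiv l (lead u (g.F j))) : L)) := by
    intro l j
    have h2 := reg_mul_zpow' hy hπ h1 (q := X l * pderiv l (g.F j)) (m := m j)
      fun t ht => hm2 j t (support_euler _ _ ht)
    rw [← hu, ← euler_part, ← hlead] at h2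
    exact h2
  obtain ⟨AO, hAOe⟩ : ∃ AO : Matrix (Fin (d + r)) (Fin (d + r)) v.O,
      AO = cm κ fun j l => ⟨aeval g.y (X l * pderiv l (g.F j)) * π ^ (-m j), (hreg l j).1⟩ :=
    ⟨_, rfl⟩
  have hAO : AO.det ∉ mvI v := by
    intro h2
    apply hQ
    have h3 : (Ideal.Quotient.mk (mvI v)).mapMatrix AO =
        (Ideal.Quotient.mk (mvI v)).mapMatrix ((Phi' hy hπ h1).mapMatrix Q) := by
      ext l i
      rw [RingHom.mapMatrix_apply, RingHom.mapMatrix_apply, RingHom.mapMatrix_apply,
        Matrix.map_apply, Matrix.map_apply, Matrix.map_apply, hQe, hAOe]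
      refine Fin.addCases (fun i => ?_) (fun j => ?_) i
      · rw [cm_left, cm_left]
        split_ifs <;> simp
      · rw [cm_right, cm_right, Ideal.Quotient.eq, mem_mvI]
        exact (hreg l j).2
    have h4 : Ideal.Quotient.mk (mvI v) AO.det =
        Ideal.Quotient.mk (mvI v) (Phi' hy hπ h1 Q.det) := by
      rw [RingHom.map_det, h3, RingHom.map_det, RingHom.map_det]
    rw [Ideal.Quotient.eq_zero_iff_mem.2 h2] at h4
    change Phi' hy hπ h1 Q.det ∈ mvI v
    exact Ideal.Quotient.eq_zero_iff_mem.1 h4.symm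
  obtain ⟨hd0, hd⟩ := ord_eq_zero_of_notMem hAO
  set G := GM g.y g.F (Matrix.of fun l i => if l = κ i then 1 else 0) with hG
  have hdet : (AO.det : L) = (∏ j, π ^ (-m j)) * G.det := by
    have h2 := v.O.subtype.map_det AO
    change (AO.det : L) = _ at h2
    have h3 : v.O.subtype.mapMatrix AO = Matrix.of fun l i =>
        Fin.addCases (motive := fun _ => L) (fun _ => (1 : L)) (fun j => π ^ (-m j)) i * G l i := by
      ext l i
      rw [RingHom.mapMatrix_apply, Matrix.map_apply, Matrix.of_apply, hAOe]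
      refine Fin.addCases (fun i => ?_) (fun j => ?_) i
      · rw [cm_left, Fin.addCases_left, one_mul, hG, GM, Matrix.of_apply, Fin.addCases_left,
          Matrix.of_apply]
        split_ifs <;> simp
      · rw [cm_right, Fin.addCases_right, hG, GM, Matrix.of_apply, Fin.addCases_right]
        exact mul_comm _ _
    rw [h2, h3, Matrix.det_mul_row, Fin.prod_univ_add]
    simp only [Fin.addCases_left, Fin.addCases_right, Finset.prod_const_one, one_mul]
  rw [hdet] at hd0 hd
  have hG0 : G.det ≠ 0 := right_ne_zero_of_mul hd0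
  refine ⟨κ, hG0, ?_⟩
  have hp : ∏ j, π ^ (-m j) ≠ 0 := left_ne_zero_of_mul hd0
  rw [v.map_mul _ _ hp hG0, v.ord_prod _ _ fun j _ => zpow_ne_zero _ hπ] at hd
  have hsum : ∑ j, v.ord (π ^ (-m j)) = -∑ j, m j := by
    rw [← Finset.sum_neg_distrib]
    refine Finset.sum_congr rfl fun j _ => ?_
    rw [v.ord_zpow hπ, h1, mul_one]
  have hgoal : ∑ j, phi (g.S j) u = ∑ j, m j := Finset.sum_congr rfl fun j _ => hmj j
  rw [hgoal]
  have hd' : (∑ j, v.ord (π ^ (-m j))) + v.ord G.det = 0 := hd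
  rw [hsum] at hd'
  have hfin : v.ord G.det = ∑ j, m j := by omega
  exact hfin

theorem det_h {r d : ℕ} {L : Type} [Field L] [Algebra ℂ L] (g : CIGerm r d L)
    (κ : Fin d → Fin (d + r)) :
    (Matrix.of fun (j i : Fin g.X.d) => g.X.T.D j (g.y (κ (g.e i)))).det =
      (∏ i, g.y (κ (g.e i))) *
        (GM g.y g.F (Matrix.of fun l i => if l = κ i then 1 else 0)).det := by
  rw [← g.res, ← Matrix.det_submatrix_equiv_self g.e ((Matrix.of fun (j : Fin d)
    (l : Fin (d + r)) => g.X.T.D (g.e.symm j) (g.y l) / g.y l) *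
      (Matrix.of fun l i => if l = κ i then 1 else 0)), ← Matrix.det_mul_row]
  congr 1
  ext j i
  rw [Matrix.of_apply, Matrix.of_apply, Matrix.submatrix_apply, Matrix.mul_apply,
    Finset.sum_eq_single (κ (g.e i))]
  · simp only [Matrix.of_apply, Equiv.symm_apply_apply, if_true, mul_one]
    rw [mul_div_cancel₀ _ (g.yne _)]
  · intro b _ hb
    rw [Matrix.of_apply, Matrix.of_apply, if_neg hb, mul_zero]
  · intro h
    exact absurd (Finset.mem_univ _) h

theorem low : S_LOW := by
  intro r d L _ _ g v h A hA0 hA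
  obtain ⟨κ, hk0, hk⟩ := idx r d L g v h
  have hp : (∏ i, g.y (κ (g.e i))) ≠ 0 := Finset.prod_ne_zero_iff.2 fun i _ => g.yne _
  have h1 := gji v g.X.T.D A hA0 hA (fun i => g.y (κ (g.e i))) (fun i => g.yne _)
    (by rw [det_h]; exact mul_ne_zero hp hk0)
  rw [det_h, v.map_mul _ _ hp hk0, hk, v.ord_prod _ _ fun i _ => g.yne _] at h1
  omega

end Pool.Agent.Helper43K9.CI
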