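import Pool.Agent.Helper43K9.CI.Stm

/-!
# [INN] the interior of the cone is open
-/

set_option autoImplicit false

namespace Pool.Agent.Helper43K9.CI

open Pool.Agent.TH165.ACC (pr Cn pr_zero exists_simplex pr_smul_right)
open Pool.Agent.Helper43K9.NH (Inn pr_add_right)

theorem inn : S_INN := by
  intro n N E w u hw
  let E' : Fin (N + 1) → Fin n → ℤ := Fin.cons (-w) E
  have h1 : ∀ m ∈ Cn E', 0 ≤ pr m u := by
    intro m hm
    have h2 : m ∈ Cn E := fun i => by
      have := hm i.succ
      simpa [E'] using this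
    have h3 : 0 ≤ pr m (-w) := by
      have := hm 0
      simpa [E'] using this
    have h4 : pr m (-w) = -pr m w := by simp [pr]
    by_contra hneg
    have h5 : m ≠ 0 := by
      rintro rfl
      rw [pr_zero] at hneg
      exact hneg le_rfl
    have := hw m h2 h5
    omega
  obtain ⟨d, a, c, hc, hcu, -⟩ := exists_simplex h1
  set W : ℝ := ∑ i, c i with hW
  refine ⟨max 1 (⌈W⌉ + 1), by positivity, ?_⟩
  intro k hk m hm hm0
  have hmw : 0 < pr m w := hw m hm hm0
  have hmwr : (0 : ℝ) < pr m w := by exact_mod_cast hmw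
  rw [pr_add_right, pr_smul_right]
  -- the pairing with `u`
  have h6 : ((pr m u : ℤ) : ℝ) = ∑ i, c i * ((pr m (E' (a i)) : ℤ) : ℝ) := by
    simp only [pr]
    push_cast
    simp only [← hcu, Finset.mul_sum]
    rw [Finset.sum_comm]
    refine Finset.sum_congr rfl fun i _ => Finset.sum_congr rfl fun l _ => ?_
    ring
  have h7 : ∀ i, -((pr m w : ℤ) : ℝ) ≤ ((pr m (E' (a i)) : ℤ) : ℝ) := by
    intro i
    have h8 : -(pr m w) ≤ pr m (E' (a i)) := by
      rcases Fin.eq_zero_or_eq_succ (a i) with h | ⟨j, h⟩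
      · rw [h]
        have h4 : pr m (-w) = -pr m w := by simp [pr]
        simp only [E', Fin.cons_zero]
        rw [h4]
      · rw [h]
        simp only [E', Fin.cons_succ]
        have := hm j
        omega
    exact_mod_cast h8
  have h9 : -(W * (pr m w : ℝ)) ≤ ((pr m u : ℤ) : ℝ) := by
    rw [h6, hW, Finset.sum_mul, ← Finset.sum_neg_distrib]
    refine Finset.sum_le_sum fun i _ => ?_
    have := mul_le_mul_of_nonneg_left (h7 i) (hc i).le
    linarith
  have h10 : W < k := by
    have e1 : W ≤ ⌈W⌉ := Int.le_ceil W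
    have e2 : (⌈W⌉ + 1 : ℤ) ≤ k := (le_max_right _ _).trans hk
    have e3 : ((⌈W⌉ + 1 : ℤ) : ℝ) ≤ k := by exact_mod_cast e2
    push_cast at e3
    linarith
  have h11 : (0 : ℝ) < ((k * pr m w + pr m u : ℤ) : ℝ) := by
    push_cast
    nlinarith
  exact_mod_cast h11

end Pool.Agent.Helper43K9.CI
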