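import Pool.Agent.Helper43K9.CI.Stm

/-!
# [LEAD] The initial form of the initial form
-/

set_option autoImplicit false

namespace Pool.Agent.Helper43K9.CI

open Pool.Agent.H436R3.Fol Pool.Agent.H436R3.KT Pool.Agent.W497.Mld MvPolynomial
open Pool.Agent.TH165.ACC (pr ex Prim Cn Hs lead part mldsR)
open Pool.Agent.Helper43K9.NH (ch AA wt Inn expo phi dot)

theorem lead_ : S_LEAD := by
  classical
  intro n F w u hF
  obtain ⟨⟨s0, hs0, h1⟩, h2⟩ := Pool.Agent.Helper43K9.NH.phi_expo hF w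
  set φ := phi (expo F) w with hφ
  have hlead : lead w F = part w φ F := Pool.Agent.TH165.ACC.lead_eq ⟨s0, hs0, h1⟩ h2
  -- the support of the initial form
  have hsupp : ∀ s, s ∈ (lead w F).support ↔ s ∈ F.support ∧ pr (ex s) w = φ := by
    intro s
    rw [hlead, mem_support_iff, Pool.Agent.TH165.ACC.coeff_part, mem_support_iff]
    by_cases h : pr (ex s) w = φ <;> simp [h]
  have hne : (lead w F).support.Nonempty := ⟨s0, (hsupp s0).2 ⟨hs0, h1.symm⟩⟩
  obtain ⟨s1, hs1, hmin⟩ := (lead w F).support.exists_min_image (fun s => pr (ex s) u) hne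
  obtain ⟨B, hB⟩ : ∃ B : ℤ, ∀ s ∈ F.support, |pr (ex s) u| ≤ B := by
    obtain ⟨B, hB⟩ := (F.support.image fun s => |pr (ex s) u|).exists_le
    exact ⟨B, fun s hs => hB _ (Finset.mem_image_of_mem _ hs)⟩
  have hB0 : 0 ≤ B := (abs_nonneg _).trans (hB s0 hs0)
  refine ⟨2 * B + 1, by omega, fun k hk => ?_⟩
  have hprk : ∀ s : Fin n →₀ ℕ, pr (ex s) (k • w + u) = k * pr (ex s) w + pr (ex s) u := by
    intro s
    rw [Pool.Agent.Helper43K9.NH.pr_add_right, Pool.Agent.TH165.ACC.pr_smul_right]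
  obtain ⟨hs1F, hs1w⟩ := (hsupp s1).1 hs1
  have key : ∀ s ∈ F.support, pr (ex s) w ≠ φ →
      k * φ + pr (ex s1) u < k * pr (ex s) w + pr (ex s) u := by
    intro s hs hne
    have a1 := h2 s hs
    have a2 : φ + 1 ≤ pr (ex s) w := by omega
    have a3 := abs_le.1 (hB s hs)
    have a4 := abs_le.1 (hB s1 hs1F)
    have a5 : k * (φ + 1) ≤ k * pr (ex s) w := by nlinarith
    nlinarith
  have e1 : lead u (lead w F) = part u (pr (ex s1) u) (lead w F) :=
    Pool.Agent.TH165.ACC.lead_eq ⟨s1, hs1, rfl⟩ hmin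
  have e2 : lead (k • w + u) F = part (k • w + u) (k * φ + pr (ex s1) u) F := by
    refine Pool.Agent.TH165.ACC.lead_eq ⟨s1, hs1F, ?_⟩ fun s hs => ?_
    · rw [hprk, hs1w]
    · rw [hprk]
      by_cases h : pr (ex s) w = φ
      · rw [h]
        have := hmin s ((hsupp s).2 ⟨hs, h⟩)
        omega
      · exact (key s hs h).le
  rw [e1, e2]
  ext s
  rw [Pool.Agent.TH165.ACC.coeff_part, Pool.Agent.TH165.ACC.coeff_part, hlead,
    Pool.Agent.TH165.ACC.coeff_part, hprk]
  by_cases hs : s ∈ F.support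
  · by_cases h : pr (ex s) w = φ
    · rw [if_pos h, h]
      by_cases h' : pr (ex s) u = pr (ex s1) u
      · rw [if_pos h', if_pos (by rw [h'])]
      · rw [if_neg h', if_neg (by omega)]
    · rw [if_neg h, ite_self, if_neg]
      have := key s hs h
      omega
  · rw [notMem_support_iff.1 hs]
    simp

end Pool.Agent.Helper43K9.CI
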