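import Pool.Agent.Helper43K9.CI.Open

/-!
# Nondegenerate complete intersections: smooth zeros of the initial forms deform
-/

set_option autoImplicit false

namespace Pool.Agent.Helper43K9.CI

open MvPolynomial Filter Topology
open Pool.Agent.TH165.ACC (pr ex lead)

namespace LimL

variable {n : ℕ}

/-- the least weight of a monomial of `F` -/
lemma exists_min (w : Fin n → ℤ) {F : MvPolynomial (Fin n) ℂ} (hF : F ≠ 0) :
    ∃ m : ℤ, (∃ s ∈ F.support, pr (ex s) w = m) ∧ ∀ s ∈ F.support, m ≤ pr (ex s) w := by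
  have h1 : F.support.Nonempty := by
    rw [Finset.nonempty_iff_ne_empty]
    intro h
    exact hF (MvPolynomial.support_eq_empty.1 h)
  obtain ⟨s, hs, hs'⟩ := F.support.exists_min_image (fun s => pr (ex s) w) h1
  exact ⟨pr (ex s) w, ⟨s, hs, rfl⟩, hs'⟩

/-- the polynomial `τ ^ (- m) F (τ ^ w z)` -/
noncomputable def hom (w : Fin n → ℤ) (m : ℤ) (F : MvPolynomial (Fin n) ℂ) :
    MvPolynomial (Fin (n + 1)) ℂ :=
  ∑ s ∈ F.support, X 0 ^ (pr (ex s) w - m).toNat * rename Fin.succ (monomial s (F.coeff s))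

lemma eval_hom (w : Fin n → ℤ) (m : ℤ) (F : MvPolynomial (Fin n) ℂ) (τ : ℂ) (z : Fin n → ℂ) :
    eval (Fin.cons τ z : Fin (n + 1) → ℂ) (hom w m F) =
      ∑ s ∈ F.support, τ ^ (pr (ex s) w - m).toNat * eval z (monomial s (F.coeff s)) := by
  rw [hom, map_sum]
  refine Finset.sum_congr rfl fun s _ => ?_
  rw [map_mul, map_pow, eval_X, Fin.cons_zero, eval_rename]
  rfl

lemma pderiv_hom (w : Fin n → ℤ) (m : ℤ) (F : MvPolynomial (Fin n) ℂ) (τ : ℂ) (z : Fin n → ℂ)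
    (i : Fin n) : eval (Fin.cons τ z : Fin (n + 1) → ℂ) (pderiv i.succ (hom w m F)) =
      ∑ s ∈ F.support, τ ^ (pr (ex s) w - m).toNat *
        eval z (pderiv i (monomial s (F.coeff s))) := by
  rw [hom, map_sum, map_sum]
  refine Finset.sum_congr rfl fun s _ => ?_
  rw [Derivation.leibniz, Derivation.leibniz_pow, pderiv_X_of_ne (Fin.succ_ne_zero i).symm,
    smul_zero, smul_zero, smul_zero, add_zero, smul_eq_mul, map_mul, map_pow, eval_X,
    Fin.cons_zero, pderiv_rename (Fin.succ_injective n), eval_rename]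
  rfl

/-- the specialisation at `τ = 0` -/
lemma at_zero (w : Fin n → ℤ) {m : ℤ} {F : MvPolynomial (Fin n) ℂ}
    (h1 : ∃ s ∈ F.support, pr (ex s) w = m) (h2 : ∀ s ∈ F.support, m ≤ pr (ex s) w)
    (Λ : MvPolynomial (Fin n) ℂ →ₗ[ℂ] ℂ) :
    ∑ s ∈ F.support, (0 : ℂ) ^ (pr (ex s) w - m).toNat * Λ (monomial s (F.coeff s)) =
      Λ (lead w F) := by
  classical
  rw [lead, map_sum, Finset.sum_filter]
  refine Finset.sum_congr rfl fun s hs => ?_
  by_cases h : pr (ex s) w = m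
  · rw [if_pos (fun t ht => by rw [h]; exact h2 t ht), h, sub_self, Int.toNat_zero, pow_zero,
      one_mul]
  · have h3 : m < pr (ex s) w := lt_of_le_of_ne (h2 s hs) (Ne.symm h)
    rw [if_neg, zero_pow (by omega), zero_mul]
    intro h4
    obtain ⟨t, ht, ht'⟩ := h1
    have := h4 t ht
    omega

/-- the evaluation as a linear map -/
noncomputable def evL (ξ : Fin n → ℂ) : MvPolynomial (Fin n) ℂ →ₗ[ℂ] ℂ where
  toFun := eval ξ
  map_add' := map_add (eval ξ)
  map_smul' := by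
    intro c p
    rw [smul_eq_C_mul, map_mul, eval_C]
    rfl

lemma zpow_sum {τ : ℂ} (hτ : τ ≠ 0) (s : Finset (Fin n)) (f : Fin n → ℤ) :
    τ ^ (∑ i ∈ s, f i) = ∏ i ∈ s, τ ^ f i := by
  classical
  induction s using Finset.induction_on with
  | empty => simp
  | insert a s ha ih => rw [Finset.sum_insert ha, Finset.prod_insert ha, zpow_add₀ hτ, ih]

/-- the value at `τ ^ w z` -/
lemma eval_tor (w : Fin n → ℤ) {m : ℤ} {F : MvPolynomial (Fin n) ℂ}
    (h2 : ∀ s ∈ F.support, m ≤ pr (ex s) w) {τ : ℂ} (hτ : τ ≠ 0) (z : Fin n → ℂ) :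
    eval (fun i => τ ^ w i * z i) F =
      τ ^ m * eval (Fin.cons τ z : Fin (n + 1) → ℂ) (hom w m F) := by
  rw [eval_hom, eval_eq, Finset.mul_sum]
  refine Finset.sum_congr rfl fun s hs => ?_
  have h3 : ∏ i ∈ s.support, (τ ^ w i * z i) ^ s i =
      (∏ i, (τ ^ w i) ^ s i) * ∏ i, z i ^ s i := by
    rw [← Finset.prod_mul_distrib]
    rw [Finset.prod_subset (Finset.subset_univ s.support)]
    · refine Finset.prod_congr rfl fun i _ => ?_
      rw [mul_pow]
    · intro i _ hi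
      rw [Finsupp.notMem_support_iff.1 hi, pow_zero]
  have h4 : ∏ i, (τ ^ w i) ^ s i = τ ^ pr (ex s) w := by
    rw [pr, zpow_sum hτ]
    refine Finset.prod_congr rfl fun i _ => ?_
    rw [← zpow_natCast, ← zpow_mul, mul_comm]
    rfl
  have h5 : eval z (monomial s (F.coeff s)) = F.coeff s * ∏ i, z i ^ s i := by
    rw [eval_monomial, Finsupp.prod_fintype]
    intro i
    exact pow_zero _
  rw [h3, h4, h5]
  have h6 : τ ^ pr (ex s) w = τ ^ m * τ ^ (pr (ex s) w - m).toNat := by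
    rw [← zpow_natCast, Int.toNat_of_nonneg (by have := h2 s hs; omega), ← zpow_add₀ hτ]
    congr 1
    ring
  rw [h6]
  ring

end LimL

open LimL in
theorem lim : S_LIM := by
  intro n r F hF w ξ hξ h0 hind
  have hm := fun j => exists_min w (hF j)
  choose m hm1 hm2 using hm
  let G : Fin r → MvPolynomial (Fin (n + 1)) ℂ := fun j => hom w (m j) (F j)
  have hG0 : ∀ j, eval (Fin.cons 0 ξ : Fin (n + 1) → ℂ) (G j) = 0 := by
    intro j
    rw [eval_hom]
    exact (at_zero w (hm1 j) (hm2 j) (evL ξ)).trans (h0 j)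
  have hG1 : LinearIndependent ℂ fun (j : Fin r) (i : Fin n) =>
      eval (Fin.cons 0 ξ : Fin (n + 1) → ℂ) (pderiv i.succ (G j)) := by
    have h1 : (fun (j : Fin r) (i : Fin n) =>
        eval (Fin.cons 0 ξ : Fin (n + 1) → ℂ) (pderiv i.succ (G j))) =
        fun (j : Fin r) (i : Fin n) => eval ξ (pderiv i (lead w (F j))) := by
      funext j i
      rw [pderiv_hom]
      exact at_zero w (hm1 j) (hm2 j) (evL ξ ∘ₗ (pderiv i).toLinearMap)
    rw [h1]
    exact hind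
  have key := opn n r G 0 ξ hG0 hG1
  -- the points
  have hpt : ∀ (τ : ℂ) (z : Fin n → ℂ), τ ≠ 0 → (∀ i, z i ≠ 0) →
      (∀ j, eval (Fin.cons τ z : Fin (n + 1) → ℂ) (G j) = 0) →
      (∀ i, τ ^ w i * z i ≠ 0) ∧ ∀ j, eval (fun i => τ ^ w i * z i) (F j) = 0 := by
    intro τ z hτ hz hz'
    refine ⟨fun i => mul_ne_zero (zpow_ne_zero _ hτ) (hz i), fun j => ?_⟩
    rw [eval_tor w (hm2 j) hτ z, hz' j, mul_zero]
  have htor : ∀ᶠ z in 𝓝 ξ, ∀ i, z i ≠ 0 := by
    rw [eventually_all]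
    intro i
    exact (continuous_apply i).continuousAt.eventually_ne (hξ i)
  obtain ⟨ε₁, hε₁, hε₁'⟩ := Metric.eventually_nhds_iff.1 htor
  have hdist : ∀ {ε : ℝ} {z : Fin n → ℂ}, 0 < ε → (∀ i, ‖z i - ξ i‖ < ε) → dist z ξ < ε := by
    intro ε z hε hz
    rw [dist_pi_lt_iff hε]
    intro i
    rw [dist_eq_norm]
    exact hz i
  have hsmall : ∀ δ : ℝ, 0 < δ → ∃ τ : ℂ, τ ≠ 0 ∧ ‖τ‖ < δ := by
    intro δ hδ
    refine ⟨((δ / 2 : ℝ) : ℂ), ?_, ?_⟩
    · exact_mod_cast (by positivity : δ / 2 ≠ 0)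
    · rw [Complex.norm_real, Real.norm_of_nonneg (by positivity)]
      linarith
  refine ⟨?_, fun p hp => ?_⟩
  · obtain ⟨δ, hδ, h⟩ := key ε₁ hε₁
    obtain ⟨τ, hτ, hτδ⟩ := hsmall δ hδ
    obtain ⟨z, hz, hz'⟩ := h τ (by rwa [sub_zero])
    exact ⟨_, hpt τ z hτ (hε₁' (hdist hε₁ hz)) hz'⟩
  · by_cases hp0 : p = 0
    · subst hp0
      have h1 : lead w (0 : MvPolynomial (Fin n) ℂ) = 0 := by simp [lead]
      rw [h1, map_zero]
    · obtain ⟨μ, hμ1, hμ2⟩ := exists_min w hp0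
      by_contra hne
      have h1 : eval (Fin.cons 0 ξ : Fin (n + 1) → ℂ) (hom w μ p) ≠ 0 := by
        rw [eval_hom]
        intro h2
        exact hne ((at_zero w hμ1 hμ2 (evL ξ)).symm.trans h2)
      have hcont : Continuous fun x : Fin (n + 1) → ℂ => eval x (hom w μ p) :=
        MvPolynomial.continuous_eval _
      have h2 : ∀ᶠ x in 𝓝 (Fin.cons 0 ξ : Fin (n + 1) → ℂ), eval x (hom w μ p) ≠ 0 :=
        hcont.continuousAt.eventually_ne h1
      obtain ⟨ε₂, hε₂, hε₂'⟩ := Metric.eventually_nhds_iff.1 h2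
      obtain ⟨δ, hδ, h⟩ := key (min ε₁ ε₂) (lt_min hε₁ hε₂)
      obtain ⟨τ, hτ, hτδ⟩ := hsmall (min δ ε₂) (lt_min hδ hε₂)
      obtain ⟨z, hz, hz'⟩ := h τ (by rw [sub_zero]; exact lt_of_lt_of_le hτδ (min_le_left _ _))
      have hz1 : ∀ i, z i ≠ 0 :=
        hε₁' (hdist hε₁ fun i => lt_of_lt_of_le (hz i) (min_le_left _ _))
      obtain ⟨h3, h4⟩ := hpt τ z hτ hz1 hz'
      have h5 := hp _ h3 h4
      rw [eval_tor w hμ2 hτ z] at h5
      have h6 := (mul_eq_zero.1 h5).resolve_left (zpow_ne_zero _ hτ)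
      refine hε₂' ?_ h6
      rw [dist_pi_lt_iff hε₂]
      intro i
      refine Fin.cases ?_ (fun i => ?_) i
      · rw [Fin.cons_zero, Fin.cons_zero, dist_zero_right]
        exact lt_of_lt_of_le hτδ (min_le_right _ _)
      · rw [Fin.cons_succ, Fin.cons_succ, dist_eq_norm]
        exact lt_of_lt_of_le (hz i) (min_le_right _ _)

end Pool.Agent.Helper43K9.CI
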