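import Pool.Agent.Helper43K9.CI.Stm

/-!
# Nondegenerate complete intersections: smooth zeros of polynomial systems deform
-/

set_option autoImplicit false

namespace Pool.Agent.Helper43K9.CI

open MvPolynomial Filter Topology

namespace OpenL

variable {σ : Type} [Fintype σ] [DecidableEq σ]

/-- The strict derivative of a polynomial. -/
lemma strict (p : MvPolynomial σ ℂ) (x : σ → ℂ) :
    HasStrictFDerivAt (fun y : σ → ℂ => eval y p)
      (∑ i, (eval x (pderiv i p)) • (ContinuousLinearMap.proj i : (σ → ℂ) →L[ℂ] ℂ)) x := by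
  induction p using MvPolynomial.induction_on with
  | C a =>
    have h1 : (∑ i, (eval x (pderiv i (C a : MvPolynomial σ ℂ))) •
        (ContinuousLinearMap.proj i : (σ → ℂ) →L[ℂ] ℂ)) = 0 := by
      refine Finset.sum_eq_zero fun i _ => ?_
      rw [pderiv_C, map_zero]
      exact zero_smul ℂ (ContinuousLinearMap.proj i : (σ → ℂ) →L[ℂ] ℂ)
    rw [h1]
    simp only [eval_C]
    exact hasStrictFDerivAt_const a x
  | add p q hp hq =>
    have h := hp.add hq
    have h1 : (∑ i, (eval x (pderiv i (p + q))) •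
        (ContinuousLinearMap.proj i : (σ → ℂ) →L[ℂ] ℂ)) =
        ∑ i, (eval x (pderiv i p)) • (ContinuousLinearMap.proj i : (σ → ℂ) →L[ℂ] ℂ) +
          ∑ i, (eval x (pderiv i q)) • (ContinuousLinearMap.proj i : (σ → ℂ) →L[ℂ] ℂ) := by
      rw [← Finset.sum_add_distrib]
      refine Finset.sum_congr rfl fun i _ => ?_
      rw [map_add, map_add]
      exact add_smul _ _ (ContinuousLinearMap.proj i : (σ → ℂ) →L[ℂ] ℂ)
    rw [h1]
    simp only [map_add]
    exact h
  | mul_X p j hp =>
    have h := hp.mul ((ContinuousLinearMap.proj j : (σ → ℂ) →L[ℂ] ℂ).hasStrictFDerivAt (x := x))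
    have h1 : (∑ i, (eval x (pderiv i (p * X j))) •
        (ContinuousLinearMap.proj i : (σ → ℂ) →L[ℂ] ℂ)) =
        eval x p • (ContinuousLinearMap.proj j : (σ → ℂ) →L[ℂ] ℂ) +
          (ContinuousLinearMap.proj j : (σ → ℂ) →L[ℂ] ℂ) x •
            ∑ i, (eval x (pderiv i p)) • (ContinuousLinearMap.proj i : (σ → ℂ) →L[ℂ] ℂ) := by
      ext v
      simp only [Derivation.leibniz, pderiv_X, smul_eq_mul, map_add, map_mul, eval_X,
        FunLike.coe_sum, Finset.sum_apply, FunLike.coe_smul,
        Pi.smul_apply, ContinuousLinearMap.proj_apply, add_apply, add_mul,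
        Finset.sum_add_distrib, Finset.mul_sum]
      congr 1
      · rw [Finset.sum_eq_single j]
        · simp
        · intro i _ hij
          rw [Pi.single_eq_of_ne (Ne.symm hij)]
          simp
        · intro h
          exact absurd (Finset.mem_univ _) h
      · refine Finset.sum_congr rfl fun i _ => ?_
        ring
    rw [h1]
    simp only [map_mul, eval_X]
    exact h

end OpenL

open OpenL in
theorem opn : S_OPEN := by
  intro n r G s0 z0 h0 hind ε hε
  set x0 : Fin (n + 1) → ℂ := Fin.cons s0 z0 with hx0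
  let Φ : (Fin (n + 1) → ℂ) → ℂ × (Fin r → ℂ) := fun x => (x 0, fun j => eval x (G j))
  let Φ' : (Fin (n + 1) → ℂ) →L[ℂ] ℂ × (Fin r → ℂ) :=
    (ContinuousLinearMap.proj 0 : (Fin (n + 1) → ℂ) →L[ℂ] ℂ).prod
      (ContinuousLinearMap.pi fun j =>
        ∑ i, (eval x0 (pderiv i (G j))) • (ContinuousLinearMap.proj i : (Fin (n + 1) → ℂ) →L[ℂ] ℂ))
  have hΦ : HasStrictFDerivAt Φ Φ' x0 := by
    refine HasStrictFDerivAt.prodMk ?_ ?_
    · exact (ContinuousLinearMap.proj 0 : (Fin (n + 1) → ℂ) →L[ℂ] ℂ).hasStrictFDerivAt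
    · rw [hasStrictFDerivAt_pi]
      intro j
      exact strict (G j) x0
  have hsurj : LinearMap.range (Φ' : (Fin (n + 1) → ℂ) →ₗ[ℂ] ℂ × (Fin r → ℂ)) = ⊤ := by
    rw [LinearMap.range_eq_top]
    rintro ⟨a, b⟩
    let A : Matrix (Fin r) (Fin n) ℂ := Matrix.of fun j i => eval x0 (pderiv i.succ (G j))
    have hA : LinearIndependent ℂ A.row := hind
    have h2 : LinearMap.range A.mulVecLin = ⊤ := by
      apply Submodule.eq_top_of_finrank_eq
      rw [Module.finrank_fintype_fun_eq_card]
      exact hA.rank_matrix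
    obtain ⟨v, hv⟩ := LinearMap.range_eq_top.1 h2
      (fun j => b j - eval x0 (pderiv 0 (G j)) * a)
    refine ⟨Fin.cons a v, ?_⟩
    refine Prod.ext ?_ ?_
    · simp [Φ']
    · funext j
      have h3 := congrFun hv j
      simp only [Matrix.mulVecLin_apply, Matrix.mulVec, dotProduct, A, Matrix.of_apply] at h3
      simp only [Φ', ContinuousLinearMap.coe_coe, ContinuousLinearMap.prod_apply,
        ContinuousLinearMap.coe_pi', FunLike.coe_sum, Finset.sum_apply,
        FunLike.coe_smul, Pi.smul_apply, ContinuousLinearMap.proj_apply,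
        smul_eq_mul]
      rw [Fin.sum_univ_succ]
      simp only [Fin.cons_zero, Fin.cons_succ]
      rw [h3]
      ring
  have hmap := hΦ.map_nhds_eq_of_surj hsurj
  have hball : Metric.ball x0 ε ∈ 𝓝 x0 := Metric.ball_mem_nhds x0 hε
  have h1 : Φ '' Metric.ball x0 ε ∈ 𝓝 (Φ x0) := by
    rw [← hmap]
    exact Filter.image_mem_map hball
  obtain ⟨δ, hδ, hδ'⟩ := Metric.mem_nhds_iff.1 h1
  refine ⟨δ, hδ, fun s hs => ?_⟩
  have h2 : ((s, fun _ => 0) : ℂ × (Fin r → ℂ)) ∈ Metric.ball (Φ x0) δ := by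
    have h3 : Φ x0 = (s0, fun _ => 0) := by
      refine Prod.ext rfl ?_
      funext j
      exact h0 j
    rw [h3, Metric.mem_ball, Prod.dist_eq]
    simp only [dist_self]
    rw [max_eq_left dist_nonneg, dist_eq_norm]
    exact hs
  obtain ⟨x, hx, hx'⟩ := hδ' h2
  have h4 : x 0 = s := congrArg Prod.fst hx'
  have h5 : ∀ j, eval x (G j) = 0 := fun j => congrFun (congrArg Prod.snd hx') j
  refine ⟨Fin.tail x, fun i => ?_, fun j => ?_⟩
  · have h6 : dist (x i.succ) (x0 i.succ) < ε :=
      (dist_le_pi_dist x x0 i.succ).trans_lt hx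
    rw [dist_eq_norm] at h6
    simpa [hx0, Fin.tail] using h6
  · rw [← h4, Fin.cons_self_tail]
    exact h5 j

end Pool.Agent.Helper43K9.CI
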