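import Pool.Agent.Helper43K9.CI.Stm

/-!
# Nondegenerate complete intersections: no monomial of an equation is minimal along all rays
-/

set_option autoImplicit false
set_option linter.unusedSectionVars false
set_option linter.unusedVariables false

namespace Pool.Agent.Helper43K9.CI

open Pool.Agent.H436R3.Fol Pool.Agent.H436R3.KT Pool.Agent.W497.Mld MvPolynomial
open Pool.Agent.TH165.ACC (pr ex Prim Cn Hs lead part mldsR pr_add pr_zero pr_neg pr_sub pr_smul
  pr_smul_right ex_add ex_inj exists_nat_ex Cn_add Cn_zero)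
open Pool.Agent.Helper43K9.NH (ch AA wt Inn expo phi dot mem_expo phi_expo ch_mem_AA aeval_eq_sum
  ch_add ch_zero)

/-- the equations vanish at `y` -/
theorem aeval_F {r d : ℕ} {L : Type} [Field L] [Algebra ℂ L] (g : CIGerm r d L) (j : Fin r) :
    aeval g.y (g.F j) = 0 := by
  rw [g.ker]
  refine ⟨0, Ideal.mul_mem_left _ _ (Ideal.subset_span ⟨j, rfl⟩)⟩

theorem pnt : S_PNT := by
  classical
  intro r d L _ _ g j m hm
  by_contra hcon
  push Not at hcon
  obtain ⟨s0, hs0, rfl⟩ := mem_expo.1 hm
  have hC : ∀ s ∈ (g.F j).support, ex s + -ex s0 ∈ Cn g.E := by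
    intro s hs i
    rw [← sub_eq_add_neg, pr_sub]
    have h1 := hcon i
    have h2 := (phi_expo (g.Fne j) (g.E i)).2 s hs
    have h3 : phi (g.S j) (g.E i) = phi (expo (g.F j)) (g.E i) := rfl
    omega
  have hmem : ∀ s ∈ (g.F j).support, ch g.y (ex s + -ex s0) ∈ g.X.R := by
    intro s hs
    rw [g.hR]
    exact ch_mem_AA (hC s hs)
  let f : (Fin (d + r) →₀ ℕ) → g.X.R := fun s =>
    if hs : s ∈ (g.F j).support then ⟨ch g.y (ex s + -ex s0), hmem s hs⟩ else 0
  have h0 : (∑ s ∈ (g.F j).support, algebraMap ℂ g.X.R ((g.F j).coeff s) * f s) = 0 := by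
    apply Subtype.ext
    have h1 : aeval g.y (g.F j) * ch g.y (-ex s0) = 0 := by
      rw [aeval_F g j, zero_mul]
    rw [aeval_eq_sum, Finset.sum_mul] at h1
    push_cast
    rw [← h1]
    refine Finset.sum_congr rfl fun s hs => ?_
    simp only [f]
    rw [dif_pos hs, mul_assoc, ← ch_add g.yne]
  have h2 := congrArg g.P h0
  rw [map_sum, map_zero, Finset.sum_eq_single s0] at h2
  · rw [map_mul, AlgHom.commutes] at h2
    have h3 : f s0 = 1 := by
      apply Subtype.ext
      simp only [f]
      rw [dif_pos hs0]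
      change ch g.y (ex s0 + -ex s0) = 1
      rw [add_neg_cancel, ch_zero]
    rw [h3, map_one, mul_one] at h2
    exact (mem_support_iff.1 hs0) h2
  · intro s hs hne
    rw [map_mul]
    have h3 : g.P (f s) = 0 := by
      refine g.hP _ _ (hC s hs) ?_ ?_
      · intro h4
        rw [← sub_eq_add_neg, sub_eq_zero] at h4
        exact hne (ex_inj h4)
      · simp only [f]
        rw [dif_pos hs]
    rw [h3, mul_zero]
  · intro h; exact absurd hs0 h

end Pool.Agent.Helper43K9.CI
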