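import Pool.Agent.Helper43K9.CI.Stm
import Pool.Agent.D71.Reg
import Pool.Agent.H379R3.Reg

/-!
# [PRM] a parameter of a regular local ring generates a prime ideal
-/

set_option autoImplicit false

namespace Pool.Agent.Helper43K9.CI

open IsLocalRing

namespace PrmL

/-- Nakayama's lemma for the maximal ideal -/
theorem nak {B : Type} [CommRing B] [IsLocalRing B] [IsNoetherianRing B] (J : Ideal B)
    (h : maximalIdeal B ≤ J ⊔ maximalIdeal B ^ 2) : maximalIdeal B ≤ J := by
  refine Submodule.le_of_le_smul_of_le_jacobson_bot (I := maximalIdeal B)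
    (IsNoetherian.noetherian _) (IsLocalRing.maximalIdeal_le_jacobson _) ?_
  rwa [smul_eq_mul, ← pow_two]

theorem range_ncard {B : Type} {k : ℕ} (f : Fin k → B) : (Set.range f).ncard ≤ k := by
  rw [← Set.image_univ]
  refine (Set.ncard_image_le Set.finite_univ).trans ?_
  rw [Set.ncard_univ, Nat.card_eq_fintype_card, Fintype.card_fin]

/-- the number of generators of the maximal ideal -/
theorem dim_le {B : Type} [CommRing B] [IsLocalRing B] [IsNoetherianRing B] {k : ℕ} (f : Fin k → B)
    (hf : ∀ i, f i ∈ maximalIdeal B)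
    (h : maximalIdeal B ≤ Ideal.span (Set.range f) ⊔ maximalIdeal B ^ 2) :
    (maximalIdeal B).spanFinrank ≤ k := by
  have h1 : maximalIdeal B = Ideal.span (Set.range f) := by
    refine le_antisymm (nak _ h) (Ideal.span_le.2 ?_)
    rintro _ ⟨i, rfl⟩
    exact hf i
  rw [h1]
  exact (Submodule.spanFinrank_span_le_ncard_of_finite (Set.finite_range f)).trans (range_ncard f)

/-- a parameter of a regular local ring is prime -/
theorem prime_param {B : Type} [CommRing B] [IsLocalRing B] [IsNoetherianRing B] {t k : ℕ}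
    (hd : (t : WithBot ℕ∞) ≤ ringKrullDim B) (hk : k + 1 ≤ t) (p : B) (x : Fin k → B)
    (hp : p ∈ maximalIdeal B) (hx : ∀ i, x i ∈ maximalIdeal B)
    (h : maximalIdeal B ≤ Ideal.span {p} ⊔ Ideal.span (Set.range x) ⊔ maximalIdeal B ^ 2) :
    (Ideal.span {p}).IsPrime := by
  have h1 : Ideal.span (Set.range (Fin.cons p x : Fin (k + 1) → B)) =
      Ideal.span {p} ⊔ Ideal.span (Set.range x) := by
    rw [Fin.range_cons, ← Ideal.span_union, Set.singleton_union]
  have h2 : (maximalIdeal B).spanFinrank ≤ k + 1 := by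
    refine dim_le (Fin.cons p x : Fin (k + 1) → B) ?_ (by rw [h1]; exact h)
    intro i
    refine Fin.cases ?_ (fun j => ?_) i
    · simpa using hp
    · simpa using hx j
  have h3 : ((maximalIdeal B).spanFinrank : WithBot ℕ∞) ≤ ringKrullDim B := by
    refine le_trans ?_ hd
    exact_mod_cast h2.trans hk
  have hreg : IsRegularLocalRing B := IsRegularLocalRing.of_spanFinrank_maximalIdeal_le B h3
  have h4 : ringKrullDim B ≤ (maximalIdeal B).spanFinrank :=
    ringKrullDim_le_spanFinrank_maximalIdeal B
  have h5 : ringKrullDim B = (k + 1 : ℕ) := by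
    refine le_antisymm (h4.trans ?_) (le_trans ?_ hd)
    · exact_mod_cast h2
    · exact_mod_cast hk
  have h6 : p ∉ maximalIdeal B ^ 2 := by
    intro h6
    have h7 : (maximalIdeal B).spanFinrank ≤ k := by
      refine dim_le x hx (h.trans ?_)
      refine sup_le (sup_le ?_ le_sup_left) le_sup_right
      rw [Ideal.span_singleton_le_iff_mem]
      exact Ideal.mem_sup_right h6
    have h8 : ((k + 1 : ℕ) : WithBot ℕ∞) ≤ (k : ℕ) := by
      rw [← h5]
      refine h4.trans ?_
      exact_mod_cast h7
    have h9 : k + 1 ≤ k := by exact_mod_cast h8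
    omega
  obtain ⟨h10, -⟩ := Pool.Agent.H379R3.regular_quotient p hp h6 k h5
  have h11 := Pool.Agent.H379R3.isDomain (B ⧸ Ideal.span {p})
  exact (Ideal.Quotient.isDomain_iff_prime _).1 h11

end PrmL

open PrmL

theorem prm : S_PRM := by
  intro A _ _ _ _ M hM π t k x ht hk hπ hx hle
  have : IsNoetherianRing A := Algebra.FiniteType.isNoetherianRing ℂ A
  have hMp : M.IsPrime := hM.isPrime
  let B := Localization.AtPrime M
  have hB : IsNoetherianRing B := IsLocalization.isNoetherianRing M.primeCompl B inferInstance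
  let g : A →+* B := algebraMap A B
  have hmax : M.map g = maximalIdeal B := Localization.AtPrime.map_eq_maximalIdeal
  have hdim : (t : WithBot ℕ∞) ≤ ringKrullDim B := by
    rw [IsLocalization.AtPrime.ringKrullDim_eq_height M B]
    exact_mod_cast D71.height_ge t ht M hM
  have hmem : ∀ a ∈ M, g a ∈ maximalIdeal B := fun a ha => by
    rw [← hmax]; exact Ideal.mem_map_of_mem g ha
  have hp : (Ideal.span {g π}).IsPrime := by
    refine prime_param hdim hk (g π) (fun i => g (x i)) (hmem π hπ) (fun i => hmem _ (hx i)) ?_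
    have h1 := Ideal.map_mono (f := g) hle
    rw [hmax, Ideal.map_sup, Ideal.map_sup, Ideal.map_pow, hmax, Ideal.map_span, Ideal.map_span,
      Set.image_singleton, ← Set.range_comp] at h1
    exact h1
  refine ⟨(Ideal.span {g π}).comap g, hp.comap g, Ideal.mem_span_singleton_self _, ?_⟩
  intro a ha
  obtain ⟨z, hz⟩ := Ideal.mem_span_singleton'.1 (Ideal.mem_comap.1 ha)
  obtain ⟨⟨b, s⟩, hbs⟩ := IsLocalization.surj M.primeCompl z
  refine ⟨s, ?_, b, ?_⟩
  · intro hs
    have h2 : g (s : A) ∈ maximalIdeal B := by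
      have h3 : Ideal.span {g π} ≤ maximalIdeal B := by
        rw [Ideal.span_singleton_le_iff_mem]
        exact hmem π hπ
      exact h3 (Ideal.mem_comap.1 hs)
    rw [mem_maximalIdeal, mem_nonunits_iff] at h2
    exact h2 (IsLocalization.map_units B s)
  · have hinj : Function.Injective g :=
      IsLocalization.injective B (M.primeCompl_le_nonZeroDivisors)
    apply hinj
    rw [map_mul, map_mul, ← hz]
    change z * g (s : A) = g b at hbs
    rw [← hbs]
    ring

end Pool.Agent.Helper43K9.CI
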