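import Pool.Agent.Helper43K9.CI.Stm

/-!
# The leaf [RADO]: Rado's theorem on transversals, for vectors
-/

set_option autoImplicit false

namespace Pool.Agent.Helper43K9.CI

namespace RadoL

/-- the span of the sets -/
def sp {n r : ℕ} (V : Fin r → Finset (Fin n → ℚ)) (J : Finset (Fin r)) :
    Submodule ℚ (Fin n → ℚ) :=
  Submodule.span ℚ {v | ∃ j ∈ J, v ∈ V j}

theorem nonempty {n r : ℕ} {V : Fin r → Finset (Fin n → ℚ)}
    (h : ∀ J : Finset (Fin r), J.card ≤ Module.finrank ℚ (sp V J)) (j : Fin r) : (V j).Nonempty := by
  by_contra hne
  rw [Finset.not_nonempty_iff_eq_empty] at hne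
  have h1 := h {j}
  have h2 : sp V {j} = ⊥ := by
    rw [sp, Submodule.span_eq_bot]
    rintro x ⟨i, hi, hx⟩
    rw [Finset.mem_singleton] at hi
    subst hi
    rw [hne] at hx
    exact absurd hx (Finset.notMem_empty _)
  rw [h2, finrank_bot, Finset.card_singleton] at h1
  omega

theorem aux {n r : ℕ} : ∀ (k : ℕ) (V : Fin r → Finset (Fin n → ℚ)), ∑ j, (V j).card = k →
    (∀ J : Finset (Fin r), J.card ≤ Module.finrank ℚ (sp V J)) →
    ∃ v : Fin r → Fin n → ℚ, (∀ j, v j ∈ V j) ∧ LinearIndependent ℚ v := by
  intro k
  induction k using Nat.strong_induction_on with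
  | _ k ih =>
    intro V hk hV
    by_cases hall : ∀ j, (V j).card ≤ 1
    · choose v hv using fun j => nonempty hV j
      refine ⟨v, hv, ?_⟩
      have h1 := hV Finset.univ
      rw [Finset.card_univ] at h1
      rw [linearIndependent_iff_card_le_finrank_span]
      refine h1.trans (le_of_eq ?_)
      have h2 : {x | ∃ j ∈ (Finset.univ : Finset (Fin r)), x ∈ V j} = Set.range v := by
        ext x
        constructor
        · rintro ⟨j, -, hx⟩
          exact ⟨j, Finset.card_le_one.1 (hall j) _ (hv j) _ hx⟩
        · rintro ⟨j, rfl⟩
          exact ⟨j, Finset.mem_univ _, hv j⟩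
      rw [sp, h2, Set.finrank]
    · push Not at hall
      obtain ⟨j, hj⟩ := hall
      obtain ⟨x, hx, y, hy, hxy⟩ := Finset.one_lt_card.1 hj
      have key : ∀ z ∈ V j, (∃ v : Fin r → Fin n → ℚ, (∀ j, v j ∈ V j) ∧ LinearIndependent ℚ v) ∨
          ∃ J : Finset (Fin r), j ∈ J ∧
            Module.finrank ℚ (sp (Function.update V j ((V j).erase z)) J) < J.card := by
        intro z hz
        by_cases hJ : ∀ J : Finset (Fin r),
            J.card ≤ Module.finrank ℚ (sp (Function.update V j ((V j).erase z)) J)
        · left
          obtain ⟨v, hv1, hv2⟩ := ih (∑ i, (Function.update V j ((V j).erase z) i).card) (by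
            rw [← hk]
            apply Finset.sum_lt_sum
            · intro i _
              by_cases hi : i = j
              · subst hi
                rw [Function.update_self]
                exact Finset.card_le_card (Finset.erase_subset _ _)
              · rw [Function.update_of_ne hi]
            · refine ⟨j, Finset.mem_univ _, ?_⟩
              rw [Function.update_self]
              exact Finset.card_erase_lt_of_mem hz) _ rfl hJ
          refine ⟨v, fun i => ?_, hv2⟩
          have := hv1 i
          by_cases hi : i = j
          · subst hi
            rw [Function.update_self] at this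
            exact Finset.mem_of_mem_erase this
          · rwa [Function.update_of_ne hi] at this
        · right
          push Not at hJ
          obtain ⟨J, hJ⟩ := hJ
          refine ⟨J, ?_, hJ⟩
          by_contra hjJ
          have h3 : sp (Function.update V j ((V j).erase z)) J = sp V J := by
            unfold sp
            congr 1
            ext w
            constructor
            · rintro ⟨i, hi, hw⟩
              rw [Function.update_of_ne (ne_of_mem_of_not_mem hi hjJ)] at hw
              exact ⟨i, hi, hw⟩
            · rintro ⟨i, hi, hw⟩
              refine ⟨i, hi, ?_⟩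
              rwa [Function.update_of_ne (ne_of_mem_of_not_mem hi hjJ)]
          rw [h3] at hJ
          exact absurd (hV J) (not_le.2 hJ)
      rcases key x hx with h | ⟨J, hjJ, hJ⟩
      · exact h
      rcases key y hy with h | ⟨K, hjK, hK⟩
      · exact h
      exfalso
      set A := sp (Function.update V j ((V j).erase x)) J with hA
      set B := sp (Function.update V j ((V j).erase y)) K with hB
      have h1 : sp V (J ∪ K) ≤ A ⊔ B := by
        rw [sp, Submodule.span_le]
        rintro w ⟨i, hi, hw⟩
        by_cases hij : i = j
        · subst hij
          by_cases hwx : w = x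
          · subst hwx
            apply Submodule.mem_sup_right
            apply Submodule.subset_span
            refine ⟨i, hjK, ?_⟩
            rw [Function.update_self]
            exact Finset.mem_erase.2 ⟨hxy, hw⟩
          · apply Submodule.mem_sup_left
            apply Submodule.subset_span
            refine ⟨i, hjJ, ?_⟩
            rw [Function.update_self]
            exact Finset.mem_erase.2 ⟨hwx, hw⟩
        · rcases Finset.mem_union.1 hi with hi | hi
          · apply Submodule.mem_sup_left
            apply Submodule.subset_span
            refine ⟨i, hi, ?_⟩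
            rwa [Function.update_of_ne hij]
          · apply Submodule.mem_sup_right
            apply Submodule.subset_span
            refine ⟨i, hi, ?_⟩
            rwa [Function.update_of_ne hij]
      have h2 : sp V ((J ∩ K).erase j) ≤ A ⊓ B := by
        rw [sp, Submodule.span_le]
        rintro w ⟨i, hi, hw⟩
        rw [Finset.mem_erase, Finset.mem_inter] at hi
        refine ⟨Submodule.subset_span ⟨i, hi.2.1, ?_⟩, Submodule.subset_span ⟨i, hi.2.2, ?_⟩⟩ <;>
        rwa [Function.update_of_ne hi.1]
      have e1 := Submodule.finrank_mono h1
      have e2 := Submodule.finrank_mono h2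
      have e3 := Submodule.finrank_sup_add_finrank_inf_eq A B
      have e4 := hV (J ∪ K)
      have e5 := hV ((J ∩ K).erase j)
      rw [Finset.card_erase_of_mem (Finset.mem_inter.2 ⟨hjJ, hjK⟩)] at e5
      have e6 := Finset.card_union_add_card_inter J K
      have e7 : 0 < (J ∩ K).card := Finset.card_pos.2 ⟨j, Finset.mem_inter.2 ⟨hjJ, hjK⟩⟩
      omega

end RadoL

/-- [RADO] -/
theorem rado : S_RADO := fun _ _ V h => RadoL.aux _ V rfl h

end Pool.Agent.Helper43K9.CI
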