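import Pool.Agent.Helper43K9.CI.Stm

/-!
# [RED] A zero over a valued field gives a zero of the initial forms
-/

set_option autoImplicit false

namespace Pool.Agent.Helper43K9.CI.RedL

open Pool.Agent.H436R3.Fol Pool.Agent.H436R3.KT Pool.Agent.W497.Mld MvPolynomial
open Pool.Agent.TH165.ACC (pr ex Prim Cn Hs lead part mldsR mvI mem_mvI ord_eq_zero_of_notMem
  lead_eq)
open Pool.Agent.Helper43K9.NH (ch AA wt Inn expo phi dot Phi' reg_mul_zpow')

variable {n : ℕ} {K : Type} [Field K] [Algebra ℂ K] {x : Fin n → K} (hx : ∀ i, x i ≠ 0)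
  {v : DVal K} {π : K} (hπ : π ≠ 0) (h1 : v.ord π = 1)

/-- the prime ideal of the polynomials whose reduction vanishes -/
noncomputable def P : Ideal (MvPolynomial (Fin n) ℂ) := (mvI v).comap (Phi' hx hπ h1)

lemma P_prime : (P hx hπ h1).IsPrime := Ideal.IsPrime.comap _

lemma X_notMem (i : Fin n) : (X i : MvPolynomial (Fin n) ℂ) ∉ P hx hπ h1 := by
  intro hi
  have h2 : (Phi' hx hπ h1 (X i) : K) = x i * π ^ (-v.ord (x i)) := by
    rw [Phi', coe_eval₂Hom, eval₂_X]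
  have h3 : v.Pos (x i * π ^ (-v.ord (x i))) := by
    rw [← h2]
    exact hi
  rcases h3 with h3 | h3
  · exact mul_ne_zero (hx i) (zpow_ne_zero _ hπ) h3
  · rw [v.map_mul _ _ (hx i) (zpow_ne_zero _ hπ), v.ord_zpow hπ, h1] at h3
    omega

/-- a point of the torus in the zero locus -/
lemma point : ∃ ξ : Fin n → ℂ, (∀ i, ξ i ≠ 0) ∧ ∀ q ∈ P hx hπ h1, eval ξ q = 0 := by
  have h𝔭 := P_prime hx hπ h1
  obtain ⟨ξ, hξ𝔭, hξ⟩ : ∃ ξ ∈ zeroLocus ℂ (P hx hπ h1), ∀ i, ξ i ≠ 0 := by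
    by_contra h2
    push Not at h2
    have h3 : (∏ i, (X i : MvPolynomial (Fin n) ℂ)) ∈
        vanishingIdeal ℂ (zeroLocus ℂ (P hx hπ h1)) := by
      rw [mem_vanishingIdeal_iff]
      intro ξ hξ
      obtain ⟨i, hi⟩ := h2 ξ hξ
      rw [map_prod]
      exact Finset.prod_eq_zero (Finset.mem_univ i) (by rw [aeval_X, hi])
    rw [vanishingIdeal_zeroLocus_eq_radical, h𝔭.radical, h𝔭.prod_mem_iff] at h3
    obtain ⟨i, -, hi⟩ := h3
    exact X_notMem hx hπ h1 i hi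
  refine ⟨ξ, hξ, fun q hq => ?_⟩
  have := mem_zeroLocus_iff.1 hξ𝔭 q hq
  rwa [← coe_aeval_eq_eval]

end Pool.Agent.Helper43K9.CI.RedL

namespace Pool.Agent.Helper43K9.CI

open Pool.Agent.H436R3.Fol Pool.Agent.H436R3.KT Pool.Agent.W497.Mld MvPolynomial
open Pool.Agent.TH165.ACC (pr ex Prim Cn Hs lead part mldsR mvI mem_mvI ord_eq_zero_of_notMem
  lead_eq)
open Pool.Agent.Helper43K9.NH (ch AA wt Inn expo phi dot Phi' reg_mul_zpow' phi_expo)
open RedL

theorem red : S_RED := by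
  intro K _ _ v s hs hs0 n r F G hF hFG x hx hzero
  obtain ⟨π, hπ, h1⟩ := v.surj
  obtain ⟨ξ, hξ, hev⟩ := point hx hπ h1
  refine ⟨ξ, hξ, fun j => hev _ ?_⟩
  obtain ⟨hm1, hm2⟩ := phi_expo (hF j) (wt x v)
  set m : ℤ := phi (expo (F j)) (wt x v) with hm
  rw [lead_eq hm1 hm2]
  change v.Pos _
  obtain ⟨-, h3⟩ := reg_mul_zpow' hx hπ h1 hm2
  obtain ⟨h4, -⟩ := reg_mul_zpow' hx hπ h1 (q := G j) (m := m) fun t ht => hm2 t (hFG j ht)
  have h5 : (Phi' hx hπ h1 (part (wt x v) m (F j)) : K) =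
      (-1) * (aeval x (F j) * π ^ (-m) - (Phi' hx hπ h1 (part (wt x v) m (F j)) : K)) +
        (-1) * (aeval x (G j) * π ^ (-m) * s) := by
    linear_combination (π ^ (-m)) * hzero j
  rw [h5]
  refine v.pos_add (v.pos_mul_left (v.reg_neg v.reg_one) h3)
    (v.pos_mul_left (v.reg_neg v.reg_one) (v.pos_mul_left h4 (Or.inr hs)))

end Pool.Agent.Helper43K9.CI
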