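import Pool.Agent.Helper43K9.CI.Stm
import Pool.Agent.Helper58K9.CI.Step

/-!
# [STEP], from `Pool.Agent.Helper58K9.CI.Step` (real spans instead of rational ones)
-/

set_option autoImplicit false

namespace Pool.Agent.Helper43K9.CI

open Pool.Agent.TH165.ACC (pr)
open Pool.Agent.Helper43K9.NH (phi dot Inn)

theorem finrank_real_le {n r : ℕ} (S : Fin r → Finset (Fin n → ℤ)) (w : Fin n → ℤ)
    (J : Finset (Fin r)) : Module.finrank ℝ (Pool.Agent.Helper58K9.CI.VJ S w J) ≤
      Module.finrank ℚ (VJ S w J) := by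
  classical
  let T : (Fin n → ℚ) →ₗ[ℚ] (Fin n → ℝ) :=
    { toFun := fun x i => ((x i : ℚ) : ℝ)
      map_add' := fun x y => by funext i; simp
      map_smul' := fun c x => by funext i; simp [Rat.smul_def] }
  let b := Module.finBasis ℚ (VJ S w J)
  have h1 : ∀ x ∈ VJ S w J, T x ∈ Submodule.span ℝ (Set.range fun i => T (b i : Fin n → ℚ)) := by
    intro x hx
    have h2 := b.sum_repr ⟨x, hx⟩
    have h3 : x = ∑ i, (b.repr ⟨x, hx⟩ i) • ((b i : VJ S w J) : Fin n → ℚ) := by
      have h4 := congrArg (VJ S w J).subtype h2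
      rw [map_sum] at h4
      exact h4.symm
    rw [h3, map_sum]
    refine Submodule.sum_mem _ fun i _ => ?_
    rw [map_smul]
    have h5 : (b.repr ⟨x, hx⟩ i) • T (b i : Fin n → ℚ) =
        ((b.repr ⟨x, hx⟩ i : ℚ) : ℝ) • T (b i : Fin n → ℚ) := by
      funext k
      simp [Rat.smul_def]
    rw [h5]
    exact Submodule.smul_mem _ _ (Submodule.subset_span ⟨i, rfl⟩)
  have h6 : Pool.Agent.Helper58K9.CI.VJ S w J ≤
      Submodule.span ℝ (Set.range fun i => T (b i : Fin n → ℚ)) := by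
    unfold Pool.Agent.Helper58K9.CI.VJ
    rw [Submodule.span_le]
    rintro v ⟨j, hj, m, hm, m', hm', hmw, hmw', rfl⟩
    have h7 : (fun i => ((m i - m' i : ℤ) : ℚ)) ∈ VJ S w J :=
      Submodule.subset_span ⟨j, hj, m, Finset.mem_filter.2 ⟨hm, hmw⟩, m',
        Finset.mem_filter.2 ⟨hm', hmw'⟩, rfl⟩
    have h8 := h1 _ h7
    have h9 : T (fun i => ((m i - m' i : ℤ) : ℚ)) = Pool.Agent.Helper58K9.CI.rv (m - m') := by
      funext i
      simp [T, Pool.Agent.Helper58K9.CI.rv]
    rw [h9] at h8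
    exact h8
  calc Module.finrank ℝ (Pool.Agent.Helper58K9.CI.VJ S w J)
      ≤ Module.finrank ℝ (Submodule.span ℝ (Set.range fun i => T (b i : Fin n → ℚ))) :=
        Submodule.finrank_mono h6
    _ ≤ Fintype.card (Fin (Module.finrank ℚ (VJ S w J))) := finrank_range_le_card _
    _ = Module.finrank ℚ (VJ S w J) := Fintype.card_fin _

theorem step : S_STEP := by
  intro n N r E S ψ w _ _ hS hP hψ hw hB
  have hR : ¬ Pool.Agent.Helper58K9.CI.RadoC S w := by
    intro h
    exact hB fun J => (h J).trans (finrank_real_le S w J)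
  obtain ⟨I, hI, -, hle⟩ := Pool.Agent.Helper58K9.CI.step E S hS hP ψ hψ w hw hR
  exact ⟨I, hI, hle⟩

end Pool.Agent.Helper43K9.CI
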