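import Pool.Agent.Helper43K9.CI.Defs

/-!
# Nondegenerate complete intersections: statements of the leaves

Deliver leaf [NAME] in its own file `Pool/Agent/Helper43K9/CI/<Name>.lean`, namespace
`Pool.Agent.Helper43K9.CI`, as `theorem <name> : S_NAME` (lower case), importing this file. Other
`S_...` may be assumed as hypotheses if you want. Everything of `NH/*` (same directory) is imported.
-/

set_option autoImplicit false

namespace Pool.Agent.Helper43K9.CI

open Pool.Agent.H436R3.Fol Pool.Agent.H436R3.KT Pool.Agent.W497.Mld MvPolynomial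
open Pool.Agent.TH165.ACC (pr ex Prim Cn Hs lead part mldsR)
open Pool.Agent.Helper43K9.NH (ch AA wt Inn expo phi dot)

/-- The gradients of the `G j` at `ξ` are linearly independent. -/
def Ind {n r : ℕ} (G : Fin r → MvPolynomial (Fin n) ℂ) (ξ : Fin n → ℂ) : Prop :=
  LinearIndependent ℂ fun (j : Fin r) (i : Fin n) => eval ξ (pderiv i (G j))

/-- [STEP] (helper58). `A := ∑_{i ∈ I} E_i`. Take `J` minimal with `|J| > dim V_J`; `w|V_J = 0`,
`w = ∑ c_i E_i` with all `c_i > 0`. If `V_J = 0` then `J = {j}`, the initial support of `S_j` is one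
element `m`, and `I = {i}` with `phi (S j) (E i) < pr m (E i)`. Otherwise take a minimal positive
relation `I` of the nonzero `E_i|V_J`. -/
def S_STEP : Prop := ∀ (n N r : ℕ) (E : Fin N → Fin n → ℤ) (S : Fin r → Finset (Fin n → ℤ))
    (ψ : Fin n → ℝ) (w : Fin n → ℤ),
    (∀ m : Fin n → ℤ, (∀ i, pr m (E i) = 0) → m = 0) → (∃ Q : Fin n → ℤ, ∀ i, 0 < pr Q (E i)) →
    (∀ j, (S j).Nonempty) → (∀ j, ∀ m ∈ S j, ∃ i, phi (S j) (E i) < pr m (E i)) →
    (∀ i, dot ψ (E i) ≤ 1 + ∑ j, (phi (S j) (E i) : ℝ)) → Inn E w → ¬ Bern S w →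
    ∃ I : Finset (Fin N), I.Nonempty ∧ la ψ S (w + ∑ i ∈ I, E i) ≤ la ψ S w

/-- [RADO] Rado's theorem on transversals, for vectors: if the span of the `V_j`, `j ∈ J`, has
dimension at least `|J|` for all `J` then there are linearly independent `v_j ∈ V_j`. (Standard proof:
if some `V_j` has two elements `x ≠ y` such that neither can be removed, take the two bad sets `J, J'`
for the removal of `x` and of `y`; submodularity of the dimension on `J ∪ J'` and `J ∩ J' \ j` gives a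
contradiction. So one may shrink all `V_j` to one element each. The `V_j` are finite here.) -/
def S_RADO : Prop := ∀ (n r : ℕ) (V : Fin r → Finset (Fin n → ℚ)),
    (∀ J : Finset (Fin r), J.card ≤ Module.finrank ℚ
      (Submodule.span ℚ {v | ∃ j ∈ J, v ∈ V j} : Submodule ℚ (Fin n → ℚ))) →
    ∃ v : Fin r → Fin n → ℚ, (∀ j, v j ∈ V j) ∧ LinearIndependent ℚ v

/-- [OPEN] Variable `0` is a parameter `s`. If `G_j (s0, z0) = 0` for all `j` and the gradients in the
other variables are linearly independent at `(s0, z0)`, then for all `s` near `s0` there is a zero `z`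
near `z0`. (`(s, z) ↦ (s, G (s, z))` has a surjective strict derivative at `(s0, z0)`, so it is open
there: `HasStrictFDerivAt.map_nhds_eq_of_surj`. Polynomials: `MvPolynomial` evaluation is smooth, e.g.
by induction; the derivative is given by the `pderiv`.) -/
def S_OPEN : Prop := ∀ (n r : ℕ) (G : Fin r → MvPolynomial (Fin (n + 1)) ℂ) (s0 : ℂ)
    (z0 : Fin n → ℂ), (∀ j, eval (Fin.cons s0 z0 : Fin (n + 1) → ℂ) (G j) = 0) →
    (LinearIndependent ℂ fun (j : Fin r) (i : Fin n) =>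
      eval (Fin.cons s0 z0 : Fin (n + 1) → ℂ) (pderiv i.succ (G j))) →
    ∀ ε > (0 : ℝ), ∃ δ > (0 : ℝ), ∀ s : ℂ, ‖s - s0‖ < δ → ∃ z : Fin n → ℂ,
      (∀ i, ‖z i - z0 i‖ < ε) ∧ ∀ j, eval (Fin.cons s z : Fin (n + 1) → ℂ) (G j) = 0

/-- [LIM] If the initial forms of the `F_j` for the weights `w` have a smooth common zero `ξ` in the
torus then (1) for all small `τ ≠ 0` there is `z` near `ξ` with `F_j (τ^w z) = 0` for all `j` and (2)
the initial form of every polynomial which vanishes on the zero set of the `F_j` in the torus vanishes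
at `ξ`. (Use [OPEN] for `G_j (τ, z) = τ^(-φ_j) F_j (τ^w z) = ∑_s a_s τ^(pr (ex s) w - φ_j) z^s`, a
polynomial with `G_j (0, z) = lead w (F_j) (z)`. For (2): `p (τ^w z) = 0`, multiply by
`τ^(-φ_p)` and let `τ → 0`.) -/
def S_LIM : Prop := ∀ (n r : ℕ) (F : Fin r → MvPolynomial (Fin n) ℂ), (∀ j, F j ≠ 0) →
    ∀ (w : Fin n → ℤ) (ξ : Fin n → ℂ), (∀ i, ξ i ≠ 0) → (∀ j, eval ξ (lead w (F j)) = 0) →
    Ind (fun j => lead w (F j)) ξ →
    (∃ x : Fin n → ℂ, (∀ i, x i ≠ 0) ∧ ∀ j, eval x (F j) = 0) ∧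
    ∀ p : MvPolynomial (Fin n) ℂ,
      (∀ x : Fin n → ℂ, (∀ i, x i ≠ 0) → (∀ j, eval x (F j) = 0) → eval x p = 0) →
      eval ξ (lead w p) = 0

/-- [LEAD] The initial form of the initial form. (`k` large: the weights of the finitely many
monomials of `F` which are not `w`-minimal are bigger than the least one by at least one.) -/
def S_LEAD : Prop := ∀ (n : ℕ) (F : MvPolynomial (Fin n) ℂ) (w u : Fin n → ℤ), F ≠ 0 →
    ∃ K : ℤ, 0 < K ∧ ∀ k ≥ K, lead u (lead w F) = lead (k • w + u) F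

/-- [INN] The interior of the cone is open. (Apply `exists_simplex` of TH165/ACC/Cara to the
vectors `E_1, ..., E_N, -w` and `u`: an element `m` which is nonnegative on all of them is in `Cn E`
and `pr m w ≤ 0`, so `m = 0`. So `D u + K w` is a nonnegative real combination of the `E_i` for some
`D > 0`, `K ≥ 0`.) -/
def S_INN : Prop := ∀ (n N : ℕ) (E : Fin N → Fin n → ℤ) (w u : Fin n → ℤ), Inn E w →
    ∃ K : ℤ, 0 < K ∧ ∀ k ≥ K, Inn E (k • w + u)

/-- [DVR] A finite extension `K` of `ℂ (s)` has a discrete valuation which is positive at `s`. (The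
integral closure of `ℂ [s]` in `K` is a Dedekind domain, `integralClosure.isDedekindDomain`; take a
prime over `s` and its adic valuation; or use `NH.exists_dval_unif`.) -/
def S_DVR : Prop := ∀ (K : Type) [Field K] [Algebra ℂ K]
    [Algebra (FractionRing (Polynomial ℂ)) K] [IsScalarTower ℂ (FractionRing (Polynomial ℂ)) K]
    [Module.Finite (FractionRing (Polynomial ℂ)) K],
    ∃ v : DVal K, 0 < v.ord (algebraMap (FractionRing (Polynomial ℂ)) K
      (algebraMap (Polynomial ℂ) (FractionRing (Polynomial ℂ)) Polynomial.X))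

/-- [RED] A zero over a valued field gives a zero in the torus of the initial forms. (As in
`NH.exists_index`, file NH/Low.lean: with `Phi'`, the prime ideal `𝔭 = Phi'⁻¹ (m_v)` contains the
initial forms and no coordinate; Nullstellensatz.) -/
def S_RED : Prop := ∀ (K : Type) [Field K] [Algebra ℂ K] (v : DVal K) (s : K), 0 < v.ord s → s ≠ 0 →
    ∀ (n r : ℕ) (F G : Fin r → MvPolynomial (Fin n) ℂ), (∀ j, F j ≠ 0) →
    (∀ j, (G j).support ⊆ (F j).support) →
    ∀ x : Fin n → K, (∀ i, x i ≠ 0) → (∀ j, aeval x (F j) + s * aeval x (G j) = 0) →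
    ∃ ξ : Fin n → ℂ, (∀ i, ξ i ≠ 0) ∧ ∀ j, eval ξ (lead (wt x v) (F j)) = 0

/-- [EXT] If the system `F_j + s G_j = 0` has a smooth zero `(1, ..., 1)` for `s = 1`, `G_j = B_j - F_j`,
then it has a zero over a finite extension of `ℂ (s)`. (By [OPEN], for all `s` near `1` it has a zero
in the torus. If it generated the unit ideal of `ℂ (s) [x^±]`, clearing denominators
`a (s) x^M = ∑ A_j (s, x) (F_j + s G_j)` with `a ≠ 0`: contradiction for `s` near `1`. So there is a
maximal ideal of `ℂ (s) [x_1, ..., x_n, t]` which contains `F_j + s G_j` and `t x_1 ... x_n - 1`; its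
residue field is finite over `ℂ (s)` by Zariski's lemma.) -/
def S_EXT : Prop := ∀ (n r : ℕ) (F B : Fin r → MvPolynomial (Fin n) ℂ),
    (∀ j, eval (fun _ => (1 : ℂ)) (B j) = 0) → Ind B (fun _ => (1 : ℂ)) →
    ∃ (K : Type) (_ : Field K) (_ : Algebra ℂ K) (_ : Algebra (FractionRing (Polynomial ℂ)) K)
      (_ : IsScalarTower ℂ (FractionRing (Polynomial ℂ)) K)
      (_ : Module.Finite (FractionRing (Polynomial ℂ)) K) (x : Fin n → K),
      (∀ i, x i ≠ 0) ∧ ∀ j, aeval x (F j) + algebraMap (FractionRing (Polynomial ℂ)) K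
        (algebraMap (Polynomial ℂ) (FractionRing (Polynomial ℂ)) Polynomial.X) *
          aeval x (B j - F j) = 0

/-- [BK] Bernstein's theorem, existence of a zero. (By [RADO] there are `m_j, m_j'` in the support of
`F_j` with independent differences; `B_j = x^(m_j) - x^(m_j')`, [EXT], [DVR], [RED], then [LIM].) -/
def S_BK : Prop := ∀ (n r : ℕ) (F : Fin r → MvPolynomial (Fin n) ℂ), (∀ j, F j ≠ 0) →
    (∀ (u : Fin n → ℤ) (ξ : Fin n → ℂ), (∀ i, ξ i ≠ 0) → (∀ j, eval ξ (lead u (F j)) = 0) →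
      Ind (fun j => lead u (F j)) ξ) →
    (∀ J : Finset (Fin r), J.card ≤ Module.finrank ℚ (Submodule.span ℚ
      {v : Fin n → ℚ | ∃ j ∈ J, ∃ m ∈ expo (F j), ∃ m' ∈ expo (F j),
        v = fun i => ((m i - m' i : ℤ) : ℚ)})) →
    ∃ ξ : Fin n → ℂ, (∀ i, ξ i ≠ 0) ∧ ∀ j, eval ξ (F j) = 0

/-- [TRD] The transcendence degree is at least the number of linearly independent derivations. (A
derivation which vanishes on a transcendence basis vanishes.) -/
def S_TRD : Prop := ∀ (L : Type) [Field L] [Algebra ℂ L] (X : AffVar L) (A : Subalgebra ℂ L),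
    A.FG → (∀ f : L, ∃ a b : L, a ∈ A ∧ b ∈ A ∧ b ≠ 0 ∧ f * b = a) →
    ∃ t : ℕ, X.d ≤ t ∧ Algebra.trdeg ℂ A = t

/-- [PRM] Commutative algebra. (`B` = localisation of `A` at `M` modulo `π`: its dimension is at least
`t - 1` by `D71.height_ge` and Krull, and its maximal ideal has `k ≤ t - 1` generators by Nakayama; so it
is a regular local ring, hence a domain: `Pool.Agent.H379R3` Reg.lean `isDomain`. `P` = the preimage of
`0`.) -/
def S_PRM : Prop := ∀ (A : Type) [CommRing A] [IsDomain A] [Algebra ℂ A] [Algebra.FiniteType ℂ A]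
    (M : Ideal A), M.IsMaximal → ∀ (π : A) (t k : ℕ) (x : Fin k → A), Algebra.trdeg ℂ A = t →
    k + 1 ≤ t → π ∈ M → (∀ i, x i ∈ M) → M ≤ Ideal.span {π} ⊔ Ideal.span (Set.range x) ⊔ M ^ 2 →
    ∃ P : Ideal A, P.IsPrime ∧ π ∈ P ∧ ∀ a ∈ P, ∃ s : A, s ∉ P ∧ ∃ b : A, s * a = π * b

/-- [EVH] The point `ξ` of the boundary divisor of the weight `w`. (As in NH/Exi.lean: `Rep`,
`exists_rep`, `Rep.add`, `Rep.mul`; `ev a = eval ξ (rp w q t) / eval ξ (X^t)`.) -/
def S_EVH : Prop := ∀ (L : Type) [Field L] [Algebra ℂ L] (n : ℕ) (y : Fin n → L),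
    (∀ i, y i ≠ 0) → ∀ (w : Fin n → ℤ) (ξ : Fin n → ℂ), (∀ i, ξ i ≠ 0) →
    (∀ p : MvPolynomial (Fin n) ℂ, aeval y p = 0 → eval ξ (lead w p) = 0) →
    ∃ ev : AA y (Hs w) →ₐ[ℂ] ℂ, ∀ (m : Fin n → ℤ) (a : AA y (Hs w)), 0 ≤ pr m w →
      (a : L) = ch y m → ev a = if pr m w = 0 then ch ξ m else 0

/-- [COT] The cotangent space at the point `ξ`. (The classes modulo `M^2 + (π)`, `M = ker ev`, of
`ch y (m - (pr m w) m1) / ξ^(...) - 1` are additive in `m ∈ ℤ^n` and generate `M`; they give a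
surjective linear map `ℂ^n → M / (M^2 + (π))` whose kernel contains `m1` and the `r` vectors
`(ξ_l ∂_l lead w (F_j) (ξ))_l`, which are orthogonal to `w`.) -/
def S_COT : Prop := ∀ (L : Type) [Field L] [Algebra ℂ L] (n r : ℕ) (y : Fin n → L),
    (∀ i, y i ≠ 0) → ∀ (w : Fin n → ℤ) (ξ : Fin n → ℂ), (∀ i, ξ i ≠ 0) →
    ∀ F : Fin r → MvPolynomial (Fin n) ℂ, (∀ j, F j ≠ 0) → (∀ j, aeval y (F j) = 0) →
    (∀ j, eval ξ (lead w (F j)) = 0) → Ind (fun j => lead w (F j)) ξ →
    ∀ ev : AA y (Hs w) →ₐ[ℂ] ℂ, (∀ (m : Fin n → ℤ) (a : AA y (Hs w)), 0 ≤ pr m w →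
      (a : L) = ch y m → ev a = if pr m w = 0 then ch ξ m else 0) →
    ∀ m1 : Fin n → ℤ, pr m1 w = 1 → ∀ π : AA y (Hs w), (π : L) = ch y m1 →
    ∃ (k : ℕ) (x : Fin k → AA y (Hs w)), k + 1 + r ≤ n ∧ (∀ i, ev (x i) = 0) ∧
      RingHom.ker ev ≤ Ideal.span {π} ⊔ Ideal.span (Set.range x) ⊔ RingHom.ker ev ^ 2

/-- [IDX] Some minor of the matrix of the logarithmic gradients has the least possible order. (As in
`NH.exists_index`, file NH/Low.lean. At `ξ` the `r` gradients are independent, so they can be completed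
to a basis by `d` unit vectors `e_(κ i)`. Multiply the last columns of `GM` by `π^(-φ_j)`: regular
entries, the determinant is congruent to `Phi'` of the one for the initial forms.) -/
def S_IDX : Prop := ∀ (r d : ℕ) (L : Type) [Field L] [Algebra ℂ L] (g : CIGerm r d L) (v : DVal L),
    Inn g.E (wt g.y v) → ∃ κ : Fin d → Fin (d + r),
      (GM g.y g.F (Matrix.of fun l i => if l = κ i then 1 else 0)).det ≠ 0 ∧
      v.ord (GM g.y g.F (Matrix.of fun l i => if l = κ i then 1 else 0)).det =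
        ∑ j, phi (g.S j) (wt g.y v)

/-- [LOW] The lower bound of the canonical order. (As `NH.can_low`, file NH/Low.lean, with `gji` for the
functions `y (κ i)`.) -/
def S_LOW : Prop := ∀ (r d : ℕ) (L : Type) [Field L] [Algebra ℂ L] (g : CIGerm r d L) (v : DVal L),
    Inn g.E (wt g.y v) → ∀ A : Matrix (Fin g.X.d) (Fin g.X.d) L, A.det ≠ 0 →
    (∀ i, Preserves v (∑ j, A i j • g.X.T.D j)) →
    -1 - ∑ j, phi (g.S j) (wt g.y v) ≤ v.ord A.det

/-- [TOP] (helper43) The canonical order of the divisors of [DIV]. -/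
def S_TOP : Prop := ∀ (r d : ℕ) (L : Type) [Field L] [Algebra ℂ L] (g : CIGerm r d L) (v : DVal L),
    Inn g.E (wt g.y v) → Prim (wt g.y v) → IsLocalRing' (AA g.y (Hs (wt g.y v))) v →
    IsCanOrd g.X.T v (-1 - ∑ j, phi (g.S j) (wt g.y v))

/-- [PNT] No monomial of an equation is minimal along all rays, as `P` lies on `X`. (As
`NH.not_all_min`, file NH/Pnt.lean.) -/
def S_PNT : Prop := ∀ (r d : ℕ) (L : Type) [Field L] [Algebra ℂ L] (g : CIGerm r d L),
    ∀ j, ∀ m ∈ g.S j, ∃ i, phi (g.S j) (g.E i) < pr m (g.E i)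

/-- [DIV] (helper43) Divisors with given weights, from LIM, EVH, COT, TRD, PRM. -/
def S_DIV : Prop := ∀ (r d : ℕ) (L : Type) [Field L] [Algebra ℂ L] (g : CIGerm r d L)
    (w : Fin (d + r) → ℤ) (ξ : Fin (d + r) → ℂ), Inn g.E w → Prim w → (∀ i, ξ i ≠ 0) →
    (∀ j, eval ξ (lead w (g.F j)) = 0) →
    ∃ v : DVal L, IsLocalRing' (AA g.y (Hs w)) v ∧ wt g.y v = w

/-- [MINK] The sum of the `φ_j` is the `φ` of the Minkowski sum; so `NH.mem_mlds` applies. (helper43) -/
def S_MINK : Prop := ∀ (n r : ℕ) (S : Fin r → Finset (Fin n → ℤ)), (∀ j, (S j).Nonempty) →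
    ∃ T : Finset (Fin n → ℤ), T.Nonempty ∧ ∀ w, phi T w = ∑ j, phi (S j) w

end Pool.Agent.Helper43K9.CI
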