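import Pool.Agent.Helper43K9.CI.Stm

/-!
# Nondegenerate complete intersections: derivations and the transcendence degree
-/

set_option autoImplicit false

namespace Pool.Agent.Helper43K9.CI

open Pool.Agent.H436R3.Fol Pool.Agent.H436R3.KT Pool.Agent.W497.Mld

namespace TrdL

variable {L : Type} [Field L] [Algebra ℂ L]

lemma alg_of_frac (A : Subalgebra ℂ L)
    (h : ∀ f : L, ∃ a b : L, a ∈ A ∧ b ∈ A ∧ b ≠ 0 ∧ f * b = a) : Algebra.IsAlgebraic A L := by
  refine ⟨fun f => ?_⟩
  obtain ⟨a, b, ha, hb, hb0, hf⟩ := h f
  refine ⟨Polynomial.C ⟨b, hb⟩ * Polynomial.X - Polynomial.C ⟨a, ha⟩, ?_, ?_⟩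
  · intro h0
    have h1 := congrArg (fun p => Polynomial.coeff p 1) h0
    simp only [Polynomial.coeff_sub, Polynomial.coeff_C_mul, Polynomial.coeff_X_one, mul_one,
      Polynomial.coeff_C_succ, sub_zero, Polynomial.coeff_zero] at h1
    exact hb0 (congrArg Subtype.val h1)
  · rw [map_sub, map_mul, Polynomial.aeval_C, Polynomial.aeval_C, Polynomial.aeval_X]
    change b * f - a = 0
    rw [← hf]
    ring

/-- The field of the constants of a derivation. -/
noncomputable def consts (D : Derivation ℂ L L) : IntermediateField ℂ L where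
  carrier := {x | D x = 0}
  mul_mem' := by
    intro a b ha hb
    have ha' : D a = 0 := ha
    have hb' : D b = 0 := hb
    change D (a * b) = 0
    rw [D.leibniz, ha', hb', smul_zero, smul_zero, add_zero]
  add_mem' := by
    intro a b ha hb
    have ha' : D a = 0 := ha
    have hb' : D b = 0 := hb
    change D (a + b) = 0
    rw [map_add, ha', hb', add_zero]
  algebraMap_mem' := fun r => D.map_algebraMap r
  inv_mem' := by
    intro a ha
    have ha' : D a = 0 := ha
    change D a⁻¹ = 0
    by_cases h0 : a = 0
    · rw [h0, inv_zero, map_zero]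
    · have h1 : D (a * a⁻¹) = 0 := by rw [mul_inv_cancel₀ h0, D.map_one_eq_zero]
      rw [D.leibniz, ha', smul_zero, add_zero, smul_eq_mul] at h1
      exact (mul_eq_zero.1 h1).resolve_left h0

/-- A derivation which vanishes on a transcendence basis vanishes. -/
lemma der_zero (D : Derivation ℂ L L) (S : Set L)
    (hS : Algebra.IsAlgebraic (IntermediateField.adjoin ℂ S) L) (hD : ∀ x ∈ S, D x = 0) :
    D = 0 := by
  have hle : IntermediateField.adjoin ℂ S ≤ consts D :=
    IntermediateField.adjoin_le_iff.2 fun x hx => hD x hx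
  let D' : Derivation (consts D) L L := Derivation.mk'
    { toFun := D
      map_add' := fun a b => map_add D a b
      map_smul' := by
        intro c x
        have hc : D (c : L) = 0 := c.2
        change D ((c : L) * x) = (c : L) * D x
        rw [D.leibniz, hc, smul_zero, add_zero, smul_eq_mul] } (fun a b => D.leibniz a b)
  ext f
  have hf : IsAlgebraic (consts D) f := by
    have h1 : IsAlgebraic (IntermediateField.adjoin ℂ S) f := hS.isAlgebraic f
    obtain ⟨p, hp, hpf⟩ := h1
    let φ := (IntermediateField.inclusion hle).toRingHom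
    refine ⟨p.map φ, ?_, ?_⟩
    · exact (Polynomial.map_ne_zero_iff φ.injective).2 hp
    · rw [Polynomial.aeval_def, Polynomial.eval₂_map]
      exact hpf
  have hint := hf.isIntegral
  have hsep : (minpoly (consts D) f).Separable := (minpoly.irreducible hint).separable
  have h2 := D'.map_aeval (minpoly (consts D) f) f
  rw [minpoly.aeval, map_zero, smul_eq_mul] at h2
  have h3 := hsep.aeval_derivative_ne_zero (minpoly.aeval (consts D) f)
  exact (mul_eq_zero.1 h2.symm).resolve_left h3

end TrdL

open TrdL in
theorem trd : S_TRD := by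
  intro L _ _ X A hfg hfrac
  obtain ⟨G, hG⟩ := hfg
  have halg : Algebra.IsAlgebraic A L := alg_of_frac A hfrac
  have : Algebra.IsAlgebraic (Algebra.adjoin ℂ (G : Set L)) L := by
    rw [hG]
    exact halg
  obtain ⟨u, hu, hub⟩ := exists_isTranscendenceBasis_subset (R := ℂ) (A := L) (G : Set L)
  have : Fintype u := (G.finite_toSet.subset hu).fintype
  refine ⟨Fintype.card u, ?_, ?_⟩
  · let ev : Derivation ℂ L L →ₗ[L] (u → L) :=
      { toFun := fun D i => D (i : L)
        map_add' := fun D D' => rfl
        map_smul' := fun c D => rfl }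
    have hker : LinearMap.ker ev = ⊥ := by
      rw [LinearMap.ker_eq_bot']
      intro D hD
      have h1 := hub.isAlgebraic_field
      rw [Subtype.range_coe] at h1
      exact der_zero D u h1 fun x hx => congrFun hD ⟨x, hx⟩
    have h2 := (X.T.indep.map' ev hker).fintype_card_le_finrank
    rw [Fintype.card_fin, Module.finrank_fintype_fun_eq_card] at h2
    exact h2
  · have f1 : FaithfulSMul ℂ A :=
      (faithfulSMul_iff_algebraMap_injective ℂ A).2 (algebraMap ℂ A).injective
    have f2 : FaithfulSMul A L :=
      (faithfulSMul_iff_algebraMap_injective A L).2 Subtype.val_injective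
    have h1 := _root_.trdeg_add_eq ℂ A (A := L)
    rw [_root_.trdeg_eq_zero (R := A) (A := L), add_zero] at h1
    rw [h1, ← hub.cardinalMk_eq_trdeg, Cardinal.mk_fintype]

end Pool.Agent.Helper43K9.CI
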